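import Mathlib

set_option autoImplicit false

open MeasureTheory
open scoped Topology

namespace Pool.Agent.Helper985.CP

/-- Physical space `ℝ³`. -/
abbrev E3 : Type := EuclideanSpace ℝ (Fin 3)

/-- smoothness of class `C^∞` -/
abbrev SM : WithTop ℕ∞ := ((⊤ : ℕ∞) : WithTop ℕ∞)

/-- Data of finitely many particle species: charges, masses, statistics (`true` for fermions), and
the spin states of species `s`, a subset `spin s` of a finite set of labels `Fin g`. -/
structure Species (S : Type) where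
  charge : S → ℝ
  mass : S → ℝ
  fermion : S → Bool
  g : ℕ
  spin : S → Finset (Fin g)

/-- The conditions on the species data. -/
structure Species.Valid {S : Type} (D : Species S) : Prop where
  charge_ne : ∀ s, D.charge s ≠ 0
  mass_pos : ∀ s, 0 < D.mass s
  spin_nonempty : ∀ s, (D.spin s).Nonempty

/-- The open cube of side `ℓ`. -/
def cube (ℓ : ℝ) : Set E3 := {y | ∀ k, 0 < y k ∧ y k < ℓ}

/-- Wave functions of the particles `I`: functions of the spin labels and of the positions. -/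
abbrev Wave {S : Type} (D : Species S) (I : Type) : Type := (I → Fin D.g) → (I → E3) → ℂ

/-- The factor picked up when two particles of species `s` are exchanged. -/
noncomputable def exch {S : Type} (D : Species S) (s : S) : ℂ := if D.fermion s then -1 else 1

section

variable {S : Type} (D : Species S) {I : Type} [Fintype I] [DecidableEq I] (sp : I → S)

/-- The states of the particles `I` (particle `i` is of species `sp i`) in the cube of side `ℓ`:
smooth wave functions with compact support in the cube, with the spins of the species and the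
symmetry required by the statistics. -/
structure IsState (ℓ : ℝ) (Ψ : Wave D I) : Prop where
  smooth : ∀ τ, ContDiff ℝ SM (Ψ τ)
  compact : ∀ τ, HasCompactSupport (Ψ τ)
  support : ∀ τ, tsupport (Ψ τ) ⊆ {x | ∀ i, x i ∈ cube ℓ}
  spin : ∀ τ, Ψ τ ≠ 0 → ∀ i, τ i ∈ D.spin (sp i)
  symm : ∀ i j, i ≠ j → sp i = sp j → ∀ τ x,
    Ψ (fun k => τ (Equiv.swap i j k)) (fun k => x (Equiv.swap i j k)) = exch D (sp i) * Ψ τ x

/-- The kinetic energy density `(1/2μᵢ) |∇ᵢ u|²` of particle `i`. -/
noncomputable def kin (i : I) (u : (I → E3) → ℂ) (x : I → E3) : ℝ :=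
  (1 / (2 * D.mass (sp i))) *
    ∑ k : Fin 3, ‖fderiv ℝ u x (Pi.single i (EuclideanSpace.single k (1 : ℝ)))‖ ^ 2

/-- The Coulomb energy `∑_{i<j} cᵢ cⱼ / |xᵢ - xⱼ|`, written as one half of the sum over all ordered
pairs. -/
noncomputable def coul (x : I → E3) : ℝ :=
  (1 / 2) * ∑ i, ∑ j, if i = j then 0 else D.charge (sp i) * D.charge (sp j) / ‖x i - x j‖

/-- The quadratic form `⟨Ψ, H Ψ⟩`. -/
noncomputable def energy (Ψ : Wave D I) : ℝ :=
  ∑ τ, ∫ x, ((∑ i, kin D sp i (Ψ τ) x) + coul D sp x * ‖Ψ τ x‖ ^ 2)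

/-- The squared norm `⟨Ψ, Ψ⟩`. -/
noncomputable def nrm2 (Ψ : Wave D I) : ℝ := ∑ τ, ∫ x, ‖Ψ τ x‖ ^ 2

/-- The energies `⟨Ψ, H Ψ⟩ / ⟨Ψ, Ψ⟩` of the nonzero states. -/
def energies (ℓ : ℝ) : Set ℝ :=
  {e : ℝ | ∃ Ψ : Wave D I, IsState D sp ℓ Ψ ∧ Ψ ≠ 0 ∧ e = energy D sp Ψ / nrm2 D Ψ}

end

/-- The ground state energy `E_Λ(n)` for the occupation numbers `n` in the cube of side `ℓ`. -/
noncomputable def groundEnergy {S : Type} [Fintype S] [DecidableEq S] (D : Species S) (ℓ : ℝ)
    (n : S → ℕ) : ℝ :=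
  sInf (energies D (fun i : (Σ s, Fin (n s)) => i.1) ℓ)

/-- H-stability: `H_{Λ,n} ≥ -A N` for all cubes and all occupation numbers. -/
def HStable {S : Type} [Fintype S] [DecidableEq S] (D : Species S) : Prop :=
  ∃ A : ℝ, ∀ ℓ : ℝ, 0 < ℓ → ∀ (n : S → ℕ) (Ψ : Wave D (Σ s, Fin (n s))),
    IsState D (fun i : (Σ s, Fin (n s)) => i.1) ℓ Ψ →
      -A * (∑ s, (n s : ℝ)) * nrm2 D Ψ ≤ energy D (fun i : (Σ s, Fin (n s)) => i.1) Ψ

/-- The occupation numbers `n` with one particle of species `a` and one of species `b` added. -/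
def addPair {S : Type} [DecidableEq S] (n : S → ℕ) (a b : S) : S → ℕ :=
  n + Pi.single a 1 + Pi.single b 1

end Pool.Agent.Helper985.CP
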