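import Pool.Agent.Helper985.CP.Base

set_option autoImplicit false

open MeasureTheory
open scoped Topology

namespace Pool.Agent.Helper985.CP

/-- energy of particle `i`: kinetic energy plus all its interactions -/
noncomputable def pe {S : Type} (D : Species S) {I : Type} [Fintype I] [DecidableEq I]
    (sp : I → S) (i : I) (Ψ : Wave D I) : ℝ :=
  ∑ τ, ∫ x, (kin D sp i (Ψ τ) x +
    (∑ j, if i = j then 0 else D.charge (sp i) * D.charge (sp j) / ‖x i - x j‖) * ‖Ψ τ x‖ ^ 2)

/-- expectation of `∑ᵢ cᵢ u(xᵢ)` -/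
noncomputable def mean {S : Type} (D : Species S) {I : Type} [Fintype I] [DecidableEq I]
    (sp : I → S) (Ψ : Wave D I) (u : E3 → ℝ) : ℝ :=
  ∑ τ, ∫ x, (∑ i, D.charge (sp i) * u (x i)) * ‖Ψ τ x‖ ^ 2

/-- potential of the density `φ²` -/
noncomputable def pot (φ : E3 → ℝ) (y : E3) : ℝ := ∫ z, φ z ^ 2 / ‖y - z‖

/-- `∫ |∇φ|²` -/
noncomputable def grad2 (φ : E3 → ℝ) : ℝ :=
  ∫ z, ∑ k : Fin 3, (fderiv ℝ φ z (EuclideanSpace.single k (1 : ℝ))) ^ 2

/-- relabelled wave function -/
noncomputable def relab {S : Type} (D : Species S) {I J : Type} (e : I ≃ J) (Ψ : Wave D I) :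
    Wave D J :=
  fun τ x => Ψ (fun i => τ (e i)) (fun i => x (e i))

/-- the wave function with spin and position of the extra particle fixed -/
noncomputable def slice {S : Type} (D : Species S) {I : Type} (σ : Fin D.g) (z : E3)
    (Φ : Wave D (Option I)) : Wave D I :=
  fun τ x => Φ (fun o => o.elim σ τ) (fun o => o.elim z x)

/-- product of `Ψ` with an extra particle in the state `φ` with spin `σ0` -/
noncomputable def ins0 {S : Type} (D : Species S) {I : Type} (σ0 : Fin D.g) (φ : E3 → ℝ)
    (Ψ : Wave D I) : Wave D (Option I) :=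
  fun τ x => if τ none = σ0 then
    ((φ (x none) : ℝ) : ℂ) * Ψ (fun i => τ (some i)) (fun i => x (some i)) else 0

/-- the same, symmetrised -/
noncomputable def ins1 {S : Type} [DecidableEq S] (D : Species S) {I : Type} [Fintype I]
    [DecidableEq I] (sp : I → S) (s : S) (σ0 : Fin D.g) (φ : E3 → ℝ) (Ψ : Wave D I) :
    Wave D (Option I) :=
  fun τ x => ins0 D σ0 φ Ψ τ x + ∑ i, if sp i = s then
    exch D s * ins0 D σ0 φ Ψ (fun k => τ (Equiv.swap none (some i) k))
      (fun k => x (Equiv.swap none (some i) k)) else 0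

/-- number of particles of species `s` -/
def cnt {S : Type} [DecidableEq S] {I : Type} [Fintype I] (sp : I → S) (s : S) : ℕ :=
  (Finset.univ.filter (fun i => sp i = s)).card

end Pool.Agent.Helper985.CP
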