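import Pool.Agent.Helper985.CP.M_exists_equiv
import Pool.Agent.Helper985.CP.Defs

set_option autoImplicit false

open MeasureTheory
open scoped Topology

namespace Pool.Agent.Helper985.CP



theorem cnt_sigma {S : Type} [Fintype S] [DecidableEq S] (n : S → ℕ) (s : S) :
    cnt (fun i : (Σ s, Fin (n s)) => i.1) s = n s := by
  unfold cnt
  have h : (Finset.univ.filter (fun i : (Σ s, Fin (n s)) => i.1 = s)) =
      (Finset.univ : Finset (Fin (n s))).map
        ⟨fun k : Fin (n s) => (⟨s, k⟩ : Σ s, Fin (n s)), fun _ _ h => by simpa using h⟩ := by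
    ext i
    simp only [Finset.mem_filter, Finset.mem_univ, true_and, Finset.mem_map,
      Function.Embedding.coeFn_mk]
    constructor
    · intro h
      obtain ⟨t, k⟩ := i
      simp only at h
      subst h
      exact ⟨k, rfl⟩
    · rintro ⟨k, rfl⟩
      rfl
  rw [h, Finset.card_map, Finset.card_univ, Fintype.card_fin]

theorem addPair_equiv {S : Type} [Fintype S] [DecidableEq S] (n : S → ℕ) (a b : S) :
    ∃ e : Option (Option (Σ s, Fin (n s))) ≃ (Σ s, Fin (addPair n a b s)),
      ∀ o, (e o).1 = o.elim b (fun o' => o'.elim a (fun i => i.1)) := by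
  refine exists_equiv (fun o : Option (Option (Σ s, Fin (n s))) =>
    o.elim b (fun o' => o'.elim a (fun i => i.1))) (fun j : (Σ s, Fin (addPair n a b s)) => j.1) ?_
  intro s
  rw [cnt_sigma]
  have h1 := cnt_sigma n s
  have h2 : cnt (fun o : Option (Option (Σ s, Fin (n s))) =>
      o.elim b (fun o' => o'.elim a (fun i => i.1))) s =
      (if b = s then 1 else 0) + ((if a = s then 1 else 0) +
        cnt (fun i : (Σ s, Fin (n s)) => i.1) s) := by
    unfold cnt
    rw [Finset.card_filter, Finset.card_filter, Fintype.sum_option, Fintype.sum_option]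
    rfl
  rw [h2, h1]
  simp only [addPair, Pi.add_apply, Pi.single_apply, eq_comm (a := s)]
  omega

end Pool.Agent.Helper985.CP
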