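import Pool.Agent.Helper985.CP.Defs

set_option autoImplicit false

open MeasureTheory
open scoped Topology

namespace Pool.Agent.Helper985.CP


theorem exists_equiv {S : Type} [DecidableEq S] {I J : Type} [Fintype I] [DecidableEq I]
    [Fintype J] [DecidableEq J] (sp : I → S) (sp' : J → S) (h : ∀ s, cnt sp s = cnt sp' s) :
    ∃ e : I ≃ J, ∀ i, sp' (e i) = sp i := by
  have hf : ∀ s, Nonempty ({i // sp i = s} ≃ {j // sp' j = s}) := by
    intro s
    refine ⟨Fintype.equivOfCardEq ?_⟩
    rw [Fintype.card_subtype, Fintype.card_subtype]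
    exact h s
  let f : ∀ s, {i // sp i = s} ≃ {j // sp' j = s} := fun s => Classical.choice (hf s)
  let e : I ≃ J :=
    ((Equiv.sigmaFiberEquiv sp).symm.trans (Equiv.sigmaCongrRight f)).trans
      (Equiv.sigmaFiberEquiv sp')
  refine ⟨e, fun i => ?_⟩
  exact (f (sp i) ⟨i, rfl⟩).2

end Pool.Agent.Helper985.CP
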