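import Pool.Agent.Helper985.CP.Defs

set_option autoImplicit false

open MeasureTheory
open scoped Topology

namespace Pool.Agent.Helper985.CP


theorem relaux_int {I J : Type} [Fintype I] [Fintype J] (e : I ≃ J) (F : (I → E3) → ℝ) :
    ∫ x : J → E3, F (fun i => x (e i)) = ∫ y : I → E3, F y := by
  have h1 := (volume_measurePreserving_piCongrLeft (fun _ : J => E3) e).symm
  have h2 := h1.integral_comp' F
  rw [← h2]
  rfl

theorem relaux_sum {I J A : Type} [Fintype I] [DecidableEq I] [Fintype J] [DecidableEq J]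
    [Fintype A] (e : I ≃ J) (G : (I → A) → ℝ) :
    ∑ τ : J → A, G (fun i => τ (e i)) = ∑ τ : I → A, G τ :=
  Fintype.sum_equiv (Equiv.arrowCongr e.symm (Equiv.refl A)) _ _ fun τ => rfl

theorem relaux_kin {S : Type} (D : Species S) {I J : Type} [Fintype I] [DecidableEq I]
    [Fintype J] [DecidableEq J] (e : I ≃ J) (sp : I → S) (sp' : J → S)
    (h : ∀ i, sp' (e i) = sp i) (i : I) (u : (I → E3) → ℂ) (x : J → E3) :
    kin D sp' (e i) (fun y : J → E3 => u (fun k => y (e k))) x =
      kin D sp i u (fun k => x (e k)) := by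
  let L : (J → E3) ≃L[ℝ] (I → E3) := (LinearEquiv.funCongrLeft ℝ E3 e).toContinuousLinearEquiv
  have hL : ∀ y : J → E3, L y = fun k => y (e k) := fun y => rfl
  have hf : (fun y : J → E3 => u (fun k => y (e k))) = u ∘ L := rfl
  have hs : ∀ v : E3, L (Pi.single (e i) v) = Pi.single i v := by
    intro v
    rw [hL]
    funext k
    by_cases hk : k = i
    · subst hk
      simp
    · rw [Pi.single_eq_of_ne (fun hh => hk (e.injective hh)), Pi.single_eq_of_ne hk]
  unfold kin
  rw [h i, hf]
  congr 1
  apply Finset.sum_congr rfl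
  intro k _
  rw [ContinuousLinearEquiv.comp_right_fderiv]
  have : ((fderiv ℝ u (L x)).comp (L : (J → E3) →L[ℝ] (I → E3)))
      (Pi.single (e i) (EuclideanSpace.single k (1 : ℝ))) =
      fderiv ℝ u (fun k => x (e k)) (Pi.single i (EuclideanSpace.single k (1 : ℝ))) := by
    show fderiv ℝ u (L x) (L (Pi.single (e i) (EuclideanSpace.single k (1 : ℝ)))) = _
    rw [hs]
    rfl
  rw [this]

theorem relaux_inter {S : Type} (D : Species S) {I J : Type} [Fintype I] [DecidableEq I]
    [Fintype J] [DecidableEq J] (e : I ≃ J) (sp : I → S) (sp' : J → S)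
    (h : ∀ i, sp' (e i) = sp i) (i : I) (x : J → E3) :
    (∑ j, if e i = j then 0 else D.charge (sp' (e i)) * D.charge (sp' j) / ‖x (e i) - x j‖) =
    ∑ j, if i = j then 0 else D.charge (sp i) * D.charge (sp j) / ‖x (e i) - x (e j)‖ := by
  rw [← Equiv.sum_comp e]
  apply Finset.sum_congr rfl
  intro j _
  rw [h i, h j]
  by_cases hij : i = j
  · rw [if_pos hij, if_pos (congrArg e hij)]
  · rw [if_neg hij, if_neg (fun hh => hij (e.injective hh))]

theorem relaux_coul {S : Type} (D : Species S) {I J : Type} [Fintype I] [DecidableEq I]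
    [Fintype J] [DecidableEq J] (e : I ≃ J) (sp : I → S) (sp' : J → S)
    (h : ∀ i, sp' (e i) = sp i) (x : J → E3) :
    coul D sp' x = coul D sp (fun i => x (e i)) := by
  unfold coul
  congr 1
  rw [← Equiv.sum_comp e]
  apply Finset.sum_congr rfl
  intro i _
  exact relaux_inter D e sp sp' h i x

theorem relabel_num {S : Type} (D : Species S) {I J : Type} [Fintype I] [DecidableEq I]
    [Fintype J] [DecidableEq J] (e : I ≃ J) (sp : I → S) (sp' : J → S)
    (h : ∀ i, sp' (e i) = sp i) (Ψ : Wave D I) :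
    nrm2 D (relab D e Ψ) = nrm2 D Ψ ∧
    energy D sp' (relab D e Ψ) = energy D sp Ψ ∧
    (∀ i, pe D sp' (e i) (relab D e Ψ) = pe D sp i Ψ) ∧
    (∀ u : E3 → ℝ, mean D sp' (relab D e Ψ) u = mean D sp Ψ u) := by
  refine ⟨?_, ?_, ?_, ?_⟩
  · unfold nrm2
    rw [← relaux_sum e]
    apply Finset.sum_congr rfl
    intro τ _
    rw [← relaux_int e]
    rfl
  · unfold energy
    rw [← relaux_sum e]
    apply Finset.sum_congr rfl
    intro τ _
    rw [← relaux_int e]
    congr 1
    funext x
    have h1 : ∑ j, kin D sp' j (relab D e Ψ τ) x =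
        ∑ i, kin D sp i (Ψ (fun i => τ (e i))) (fun i => x (e i)) := by
      rw [← Equiv.sum_comp e]
      apply Finset.sum_congr rfl
      intro i _
      exact relaux_kin D e sp sp' h i (Ψ (fun i => τ (e i))) x
    rw [h1, relaux_coul D e sp sp' h x]
    rfl
  · intro i
    unfold pe
    rw [← relaux_sum e]
    apply Finset.sum_congr rfl
    intro τ _
    rw [← relaux_int e]
    congr 1
    funext x
    have h1 : kin D sp' (e i) (relab D e Ψ τ) x =
        kin D sp i (Ψ (fun i => τ (e i))) (fun i => x (e i)) :=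
      relaux_kin D e sp sp' h i (Ψ (fun i => τ (e i))) x
    rw [h1, relaux_inter D e sp sp' h i x]
    rfl
  · intro u
    unfold mean
    rw [← relaux_sum e]
    apply Finset.sum_congr rfl
    intro τ _
    rw [← relaux_int e]
    congr 1
    funext x
    have h1 : ∑ j, D.charge (sp' j) * u (x j) = ∑ i, D.charge (sp i) * u (x (e i)) := by
      rw [← Equiv.sum_comp e]
      apply Finset.sum_congr rfl
      intro i _
      rw [h i]
    rw [h1]
    rfl

end Pool.Agent.Helper985.CP
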