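import Pool.Agent.Helper985.CP.M_comb
import Pool.Agent.Helper985.CP.M_exists_equiv
import Pool.Agent.Helper985.CP.M_relabel_num
import Pool.Agent.Helper985.CP.M_relabel_state
import Pool.Agent.Helper985.CP.Defs

set_option autoImplicit false

open MeasureTheory
open scoped Topology

namespace Pool.Agent.Helper985.CP






theorem stable_any {S : Type} [Fintype S] [DecidableEq S] (D : Species S) (A : ℝ)
    (hA : ∀ ℓ : ℝ, 0 < ℓ → ∀ (n : S → ℕ) (Ψ : Wave D (Σ s, Fin (n s))),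
      IsState D (fun i : (Σ s, Fin (n s)) => i.1) ℓ Ψ →
        -A * (∑ s, (n s : ℝ)) * nrm2 D Ψ ≤ energy D (fun i : (Σ s, Fin (n s)) => i.1) Ψ)
    {I : Type} [Fintype I] [DecidableEq I] (sp : I → S) (ℓ : ℝ) (hℓ : 0 < ℓ) (Ψ : Wave D I)
    (hΨ : IsState D sp ℓ Ψ) :
    -A * (Fintype.card I : ℝ) * nrm2 D Ψ ≤ energy D sp Ψ := by
  obtain ⟨e, he⟩ := exists_equiv sp (fun i : (Σ s, Fin (cnt sp s)) => i.1)
    (fun s => (cnt_sigma (cnt sp) s).symm)
  have h := hA ℓ hℓ (cnt sp) (relab D e Ψ) (relabel_state D e sp _ he ℓ Ψ hΨ)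
  obtain ⟨h1, h2, -, -⟩ := relabel_num D e sp (fun i : (Σ s, Fin (cnt sp s)) => i.1) he Ψ
  rw [h1, h2] at h
  have h3 : (∑ s, (cnt sp s : ℝ)) = (Fintype.card I : ℝ) := by
    have h4 : Fintype.card I = ∑ s, cnt sp s := by
      unfold cnt
      exact Finset.card_eq_sum_card_fiberwise (fun _ _ => Finset.mem_univ _)
    rw [h4]
    push_cast
    rfl
  rw [h3] at h
  exact h

end Pool.Agent.Helper985.CP
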