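import Pool.Agent.Helper985.CP.M_int_state
import Pool.Agent.Helper985.CP.Defs

set_option autoImplicit false

open MeasureTheory
open scoped Topology

namespace Pool.Agent.Helper985.CP



/-- a place with few particles -/
theorem good_center {S : Type} (D : Species S) {I : Type} [Fintype I] [DecidableEq I]
    (sp : I → S) (ℓ r : ℝ) (hr : 0 < r) (hrℓ : 8 * r ≤ ℓ)
    (hN : (Fintype.card I : ℝ) * (1024 * r ^ 3) ≤ ℓ ^ 3) (Ψ : Wave D I)
    (hΨ : IsState D sp ℓ Ψ) :
    ∃ x0 : E3, Metric.closedBall x0 r ⊆ cube ℓ ∧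
      ∑ τ, ∫ x, (∑ i, Set.indicator (Metric.ball x0 (2 * r)) (fun _ => (1 : ℝ)) (x i)) *
        ‖Ψ τ x‖ ^ 2 ≤ (1 / 2) * nrm2 D Ψ := by
  classical
  have hℓ : 0 < ℓ := by linarith
  set K : ℕ := ⌈ℓ / (8 * r)⌉₊ with hK
  have hKpos : 0 < K := Nat.ceil_pos.2 (by positivity)
  have hK1 : ℓ / (8 * r) ≤ K := Nat.le_ceil _
  have hK2 : (K : ℝ) < ℓ / (8 * r) + 1 := Nat.ceil_lt_add_one (by positivity)
  let c : (Fin 3 → Fin K) → E3 := fun g => WithLp.toLp 2 fun k => 2 * r + 4 * r * ((g k : ℕ) : ℝ)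
  have hc : ∀ g k, c g k = 2 * r + 4 * r * ((g k : ℕ) : ℝ) := fun g k => rfl
  have hcoord : ∀ (x y : E3) (k : Fin 3), |x k - y k| ≤ dist x y := by
    intro x y k
    rw [dist_eq_norm]
    exact PiLp.norm_apply_le (x - y) k
  have hdisj : ∀ g g' : Fin 3 → Fin K, ∀ y : E3, dist y (c g) < 2 * r →
      dist y (c g') < 2 * r → g = g' := by
    intro g g' y h1 h2
    funext k
    by_contra hne
    have h3 : dist (c g) (c g') < 4 * r := by
      have := dist_triangle_left (c g) (c g') y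
      linarith
    have h4 := hcoord (c g) (c g') k
    have h5 : c g k - c g' k = 4 * r * (((g k : ℕ) : ℝ) - ((g' k : ℕ) : ℝ)) := by
      rw [hc, hc]; ring
    have h6 : (1:ℝ) ≤ |((g k : ℕ) : ℝ) - ((g' k : ℕ) : ℝ)| := by
      have hne' : (g k : ℕ) ≠ (g' k : ℕ) := fun h => hne (Fin.ext h)
      rcases lt_or_gt_of_ne hne' with h | h
      · have : ((g k : ℕ) : ℝ) + 1 ≤ ((g' k : ℕ) : ℝ) := by exact_mod_cast h
        rw [abs_sub_comm]
        exact le_trans (by linarith) (le_abs_self _)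
      · have : ((g' k : ℕ) : ℝ) + 1 ≤ ((g k : ℕ) : ℝ) := by exact_mod_cast h
        exact le_trans (by linarith) (le_abs_self _)
    rw [h5, abs_mul, abs_of_pos (by positivity)] at h4
    nlinarith
  -- the functions
  set f : (I → Fin D.g) → (I → E3) → ℝ := fun τ x => ‖Ψ τ x‖ ^ 2 with hf
  have hfi : ∀ τ, Integrable (f τ) := fun τ => (int_state D sp ℓ Ψ hΨ τ).1
  have hf0 : ∀ τ x, 0 ≤ f τ x := fun τ x => by positivity
  let A : (Fin 3 → Fin K) → I → Set (I → E3) := fun g i => {x | x i ∈ Metric.ball (c g) (2 * r)}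
  have hA : ∀ g i, MeasurableSet (A g i) := fun g i =>
    (measurable_pi_apply i) Metric.isOpen_ball.measurableSet
  have hAi : ∀ g i τ, Integrable (Set.indicator (A g i) (f τ)) := fun g i τ =>
    (hfi τ).indicator (hA g i)
  have hF : ∀ g, ∑ τ, ∫ x, (∑ i, Set.indicator (Metric.ball (c g) (2 * r)) (fun _ => (1 : ℝ)) (x i)) *
        ‖Ψ τ x‖ ^ 2 = ∑ τ, ∑ i, ∫ x, Set.indicator (A g i) (f τ) x := by
    intro g
    refine Finset.sum_congr rfl fun τ _ => ?_
    rw [← integral_finset_sum _ (fun i _ => hAi g i τ)]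
    congr 1
    funext x
    rw [Finset.sum_mul]
    refine Finset.sum_congr rfl fun i _ => ?_
    by_cases hx : x i ∈ Metric.ball (c g) (2 * r)
    · have hx' : x ∈ A g i := hx
      rw [Set.indicator_of_mem hx, Set.indicator_of_mem hx', one_mul]
    · have hx' : x ∉ A g i := hx
      rw [Set.indicator_of_notMem hx, Set.indicator_of_notMem hx', zero_mul]
  have hone : ∀ τ i, ∑ g, ∫ x, Set.indicator (A g i) (f τ) x ≤ ∫ x, f τ x := by
    intro τ i
    rw [← integral_finset_sum _ (fun g _ => hAi g i τ)]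
    refine integral_mono (integrable_finset_sum _ fun g _ => hAi g i τ) (hfi τ) fun x => ?_
    by_cases hex : ∃ g0, x ∈ A g0 i
    · obtain ⟨g0, hg0⟩ := hex
      have : ∑ g, Set.indicator (A g i) (f τ) x = Set.indicator (A g0 i) (f τ) x := by
        refine Finset.sum_eq_single g0 (fun g _ hg => ?_) (fun h => absurd (Finset.mem_univ _) h)
        refine Set.indicator_of_notMem (fun hxg => hg ?_) _
        exact hdisj g g0 (x i) hxg hg0
      simp only
      rw [this, Set.indicator_of_mem hg0]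
    · push Not at hex
      have : ∑ g, Set.indicator (A g i) (f τ) x = 0 :=
        Finset.sum_eq_zero fun g _ => Set.indicator_of_notMem (hex g) _
      simp only
      rw [this]
      exact hf0 τ x
  have hnrm : nrm2 D Ψ = ∑ τ, ∫ x, f τ x := rfl
  have hnrm0 : 0 ≤ nrm2 D Ψ := by
    rw [hnrm]
    exact Finset.sum_nonneg fun τ _ => integral_nonneg fun x => hf0 τ x
  have htot : ∑ g, ∑ τ, ∑ i, ∫ x, Set.indicator (A g i) (f τ) x ≤
      (Fintype.card I : ℝ) * nrm2 D Ψ := by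
    rw [Finset.sum_comm, hnrm, Finset.mul_sum]
    refine Finset.sum_le_sum fun τ _ => ?_
    rw [Finset.sum_comm]
    calc ∑ i : I, ∑ g, ∫ x, Set.indicator (A g i) (f τ) x ≤ ∑ _i : I, ∫ x, f τ x :=
          Finset.sum_le_sum fun i _ => hone τ i
      _ = (Fintype.card I : ℝ) * ∫ x, f τ x := by
          rw [Finset.sum_const, Finset.card_univ, nsmul_eq_mul]
  have hcardG : ((Fintype.card (Fin 3 → Fin K) : ℕ) : ℝ) = (K : ℝ) ^ 3 := by
    simp
  have hKI : (Fintype.card I : ℝ) ≤ (K : ℝ) ^ 3 * (1 / 2) := by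
    have h1 : (ℓ / (8 * r)) ^ 3 ≤ (K : ℝ) ^ 3 := pow_le_pow_left₀ (by positivity) hK1 3
    have h2 : (Fintype.card I : ℝ) ≤ (ℓ / (8 * r)) ^ 3 * (1 / 2) := by
      rw [div_pow, div_mul_eq_mul_div, le_div_iff₀ (by positivity)]
      nlinarith
    linarith
  haveI : Nonempty (Fin 3 → Fin K) := ⟨fun _ => ⟨0, hKpos⟩⟩
  obtain ⟨g, -, hg⟩ := Finset.exists_le_of_sum_le (s := (Finset.univ : Finset (Fin 3 → Fin K)))
    (f := fun g => ∑ τ, ∑ i, ∫ x, Set.indicator (A g i) (f τ) x)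
    (g := fun _ => (1 / 2) * nrm2 D Ψ) Finset.univ_nonempty (by
      rw [Finset.sum_const, Finset.card_univ, nsmul_eq_mul, hcardG]
      refine htot.trans ?_
      nlinarith)
  refine ⟨c g, ?_, ?_⟩
  · intro y hy k
    have h1 := hcoord y (c g) k
    have h2 : dist y (c g) ≤ r := Metric.mem_closedBall.1 hy
    have h3 := abs_le.1 (h1.trans h2)
    rw [hc] at h3
    have h4 : (0 : ℝ) ≤ ((g k : ℕ) : ℝ) := Nat.cast_nonneg _
    have h5 : ((g k : ℕ) : ℝ) + 1 ≤ (K : ℝ) := by exact_mod_cast (g k).2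
    have h6 : 0 ≤ 4 * r * ((g k : ℕ) : ℝ) := by positivity
    have h7 : 4 * r * ((g k : ℕ) : ℝ) ≤ ℓ / 2 := by
      have h8 : ((g k : ℕ) : ℝ) ≤ ℓ / (8 * r) := by linarith
      calc 4 * r * ((g k : ℕ) : ℝ) ≤ 4 * r * (ℓ / (8 * r)) := by gcongr
        _ = ℓ / 2 := by field_simp; ring
    constructor
    · linarith [h3.1]
    · linarith [h3.2]
  · rw [hF g]
    exact hg

end Pool.Agent.Helper985.CP
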