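import Pool.Agent.Helper985.CP.M_int_state
import Pool.Agent.Helper985.CP.Defs

set_option autoImplicit false

open MeasureTheory
open scoped Topology

namespace Pool.Agent.Helper985.CP



theorem ims_alg (a b : ℂ) (t θ : ℝ) :
    ‖((Real.cos θ : ℝ) : ℂ) * a + b * ((-Real.sin θ * t : ℝ) : ℂ)‖ ^ 2 +
      ‖((Real.sin θ : ℝ) : ℂ) * a + b * ((Real.cos θ * t : ℝ) : ℂ)‖ ^ 2 =
      ‖a‖ ^ 2 + t ^ 2 * ‖b‖ ^ 2 := by
  have h := Real.sin_sq_add_cos_sq θ
  rw [Complex.sq_norm, Complex.sq_norm, Complex.sq_norm, Complex.sq_norm]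
  simp only [Complex.normSq_apply, Complex.add_re, Complex.add_im, Complex.mul_re, Complex.mul_im,
    Complex.ofReal_re, Complex.ofReal_im]
  linear_combination ((a.re ^ 2 + a.im ^ 2) + t ^ 2 * (b.re ^ 2 + b.im ^ 2)) * h

theorem ims_alg0 (b : ℂ) (θ : ℝ) :
    ‖((Real.cos θ : ℝ) : ℂ) * b‖ ^ 2 + ‖((Real.sin θ : ℝ) : ℂ) * b‖ ^ 2 = ‖b‖ ^ 2 := by
  have h := Real.sin_sq_add_cos_sq θ
  rw [norm_mul, norm_mul, Complex.norm_real, Complex.norm_real, mul_pow, mul_pow,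
    Real.norm_eq_abs, Real.norm_eq_abs, sq_abs, sq_abs]
  linear_combination ‖b‖ ^ 2 * h

theorem ims_deriv {V : Type*} [NormedAddCommGroup V] [NormedSpace ℝ V] (f : V → ℝ) (g : V → ℂ)
    (x v : V) (f' : V →L[ℝ] ℝ) (hf : HasFDerivAt f f' x) (hg : DifferentiableAt ℝ g x) :
    fderiv ℝ (fun x => ((f x : ℝ) : ℂ) * g x) x v =
      ((f x : ℝ) : ℂ) * fderiv ℝ g x v + g x * ((f' v : ℝ) : ℂ) := by
  have h1 : HasFDerivAt (fun x => ((f x : ℝ) : ℂ)) (Complex.ofRealCLM.comp f') x :=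
    Complex.ofRealCLM.hasFDerivAt.comp x hf
  have h2 := h1.fun_mul hg.hasFDerivAt
  rw [h2.fderiv]
  simp

theorem ims_state {S : Type} (D : Species S) {I : Type} [Fintype I] [DecidableEq I] (sp : I → S)
    (ℓ : ℝ) (Ψ : Wave D I) (hΨ : IsState D sp ℓ Ψ) (f : (I → E3) → ℝ) (hf : ContDiff ℝ SM f)
    (hs : ∀ i j x, f (fun k => x (Equiv.swap i j k)) = f x) :
    IsState D sp ℓ (fun τ x => ((f x : ℝ) : ℂ) * Ψ τ x) where
  smooth τ := (Complex.ofRealCLM.contDiff.comp hf).mul (hΨ.smooth τ)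
  compact τ := (hΨ.compact τ).mul_left
  support τ := by
    refine Set.Subset.trans ?_ (hΨ.support τ)
    exact closure_mono (Function.support_mul_subset_right _ _)
  spin τ h := by
    refine hΨ.spin τ fun h0 => h ?_
    funext x
    rw [h0]
    simp
  symm i j hij hsp τ x := by
    rw [hs i j x, hΨ.symm i j hij hsp τ x]
    ring

/-- the localisation formula -/
theorem ims {S : Type} (D : Species S) {I : Type} [Fintype I] [DecidableEq I] (sp : I → S)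
    (ℓ : ℝ) (Ψ : Wave D I) (hΨ : IsState D sp ℓ Ψ) (θ : (I → E3) → ℝ) (hθ : ContDiff ℝ SM θ)
    (hs : ∀ i j x, θ (fun k => x (Equiv.swap i j k)) = θ x) :
    IsState D sp ℓ (fun τ x => ((Real.cos (θ x) : ℝ) : ℂ) * Ψ τ x) ∧
    IsState D sp ℓ (fun τ x => ((Real.sin (θ x) : ℝ) : ℂ) * Ψ τ x) ∧
    nrm2 D (fun τ x => ((Real.cos (θ x) : ℝ) : ℂ) * Ψ τ x) +
      nrm2 D (fun τ x => ((Real.sin (θ x) : ℝ) : ℂ) * Ψ τ x) = nrm2 D Ψ ∧
    energy D sp (fun τ x => ((Real.cos (θ x) : ℝ) : ℂ) * Ψ τ x) +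
      energy D sp (fun τ x => ((Real.sin (θ x) : ℝ) : ℂ) * Ψ τ x) = energy D sp Ψ +
      ∑ τ, ∫ x, (∑ i, (1 / (2 * D.mass (sp i))) * ∑ k : Fin 3,
        (fderiv ℝ θ x (Pi.single i (EuclideanSpace.single k (1 : ℝ)))) ^ 2) * ‖Ψ τ x‖ ^ 2 := by
  have hcos : ContDiff ℝ SM (fun x => Real.cos (θ x)) := Real.contDiff_cos.comp hθ
  have hsin : ContDiff ℝ SM (fun x => Real.sin (θ x)) := Real.contDiff_sin.comp hθ
  have hC : IsState D sp ℓ (fun τ x => ((Real.cos (θ x) : ℝ) : ℂ) * Ψ τ x) :=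
    ims_state D sp ℓ Ψ hΨ _ hcos (fun i j x => by rw [hs])
  have hS : IsState D sp ℓ (fun τ x => ((Real.sin (θ x) : ℝ) : ℂ) * Ψ τ x) :=
    ims_state D sp ℓ Ψ hΨ _ hsin (fun i j x => by rw [hs])
  refine ⟨hC, hS, ?_, ?_⟩
  · unfold nrm2
    rw [← Finset.sum_add_distrib]
    refine Finset.sum_congr rfl fun τ _ => ?_
    rw [← integral_add (int_state D sp ℓ _ hC τ).1 (int_state D sp ℓ _ hS τ).1]
    refine integral_congr_ae (Filter.Eventually.of_forall fun x => ?_)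
    exact ims_alg0 (Ψ τ x) (θ x)
  · unfold energy
    rw [← Finset.sum_add_distrib, ← Finset.sum_add_distrib]
    refine Finset.sum_congr rfl fun τ _ => ?_
    obtain ⟨-, c2, c3, -, -⟩ := int_state D sp ℓ _ hC τ
    obtain ⟨-, s2, s3, -, -⟩ := int_state D sp ℓ _ hS τ
    obtain ⟨-, p2, p3, -, -⟩ := int_state D sp ℓ _ hΨ τ
    have iC := (integrable_finsetSum Finset.univ fun i _ => c2 i).add c3
    have iS := (integrable_finsetSum Finset.univ fun i _ => s2 i).add s3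
    have iP := (integrable_finsetSum Finset.univ fun i _ => p2 i).add p3
    have hdθ : ∀ x, HasFDerivAt θ (fderiv ℝ θ x) x := fun x =>
      ((hθ.differentiable (by simp)) x).hasFDerivAt
    have hdΨ : ∀ x, DifferentiableAt ℝ (Ψ τ) x := fun x =>
      ((hΨ.smooth τ).differentiable (by simp)) x
    have hkin : ∀ i x, kin D sp i (fun x => ((Real.cos (θ x) : ℝ) : ℂ) * Ψ τ x) x +
        kin D sp i (fun x => ((Real.sin (θ x) : ℝ) : ℂ) * Ψ τ x) x =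
        kin D sp i (Ψ τ) x + ((1 / (2 * D.mass (sp i))) * ∑ k : Fin 3,
          (fderiv ℝ θ x (Pi.single i (EuclideanSpace.single k (1 : ℝ)))) ^ 2) * ‖Ψ τ x‖ ^ 2 := by
      intro i x
      unfold kin
      rw [← mul_add, mul_assoc, ← mul_add, ← Finset.sum_add_distrib, Finset.sum_mul,
        ← Finset.sum_add_distrib]
      congr 1
      refine Finset.sum_congr rfl fun k _ => ?_
      rw [ims_deriv (fun x => Real.cos (θ x)) (Ψ τ) x _ _ (hdθ x).cos (hdΨ x),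
        ims_deriv (fun x => Real.sin (θ x)) (Ψ τ) x _ _ (hdθ x).sin (hdΨ x)]
      simp only [_root_.smul_apply, smul_eq_mul]
      exact ims_alg _ _ _ _
    have hpt : ∀ x, (∑ i, (1 / (2 * D.mass (sp i))) * ∑ k : Fin 3,
        (fderiv ℝ θ x (Pi.single i (EuclideanSpace.single k (1 : ℝ)))) ^ 2) * ‖Ψ τ x‖ ^ 2 =
        (((∑ i, kin D sp i (fun x => ((Real.cos (θ x) : ℝ) : ℂ) * Ψ τ x) x) +
          coul D sp x * ‖((Real.cos (θ x) : ℝ) : ℂ) * Ψ τ x‖ ^ 2) +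
        ((∑ i, kin D sp i (fun x => ((Real.sin (θ x) : ℝ) : ℂ) * Ψ τ x) x) +
          coul D sp x * ‖((Real.sin (θ x) : ℝ) : ℂ) * Ψ τ x‖ ^ 2)) -
        ((∑ i, kin D sp i (Ψ τ) x) + coul D sp x * ‖Ψ τ x‖ ^ 2) := by
      intro x
      have e1 := ims_alg0 (Ψ τ x) (θ x)
      have e2 : (∑ i, kin D sp i (fun x => ((Real.cos (θ x) : ℝ) : ℂ) * Ψ τ x) x) +
          (∑ i, kin D sp i (fun x => ((Real.sin (θ x) : ℝ) : ℂ) * Ψ τ x) x) =
          (∑ i, kin D sp i (Ψ τ) x) + (∑ i, (1 / (2 * D.mass (sp i))) * ∑ k : Fin 3,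
            (fderiv ℝ θ x (Pi.single i (EuclideanSpace.single k (1 : ℝ)))) ^ 2) *
              ‖Ψ τ x‖ ^ 2 := by
        rw [Finset.sum_mul, ← Finset.sum_add_distrib, ← Finset.sum_add_distrib]
        exact Finset.sum_congr rfl fun i _ => hkin i x
      linear_combination -e2 - coul D sp x * e1
    have e3 : ∫ x, (∑ i, (1 / (2 * D.mass (sp i))) * ∑ k : Fin 3,
        (fderiv ℝ θ x (Pi.single i (EuclideanSpace.single k (1 : ℝ)))) ^ 2) * ‖Ψ τ x‖ ^ 2 =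
        ((∫ x, ((∑ i, kin D sp i (fun x => ((Real.cos (θ x) : ℝ) : ℂ) * Ψ τ x) x) +
          coul D sp x * ‖((Real.cos (θ x) : ℝ) : ℂ) * Ψ τ x‖ ^ 2)) +
        (∫ x, ((∑ i, kin D sp i (fun x => ((Real.sin (θ x) : ℝ) : ℂ) * Ψ τ x) x) +
          coul D sp x * ‖((Real.sin (θ x) : ℝ) : ℂ) * Ψ τ x‖ ^ 2))) -
        ∫ x, ((∑ i, kin D sp i (Ψ τ) x) + coul D sp x * ‖Ψ τ x‖ ^ 2) := by
      rw [integral_congr_ae (Filter.Eventually.of_forall hpt)]
      have a1 := integral_sub (iC.add iS) iP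
      have a2 := integral_add iC iS
      exact a1.trans (congrArg₂ (fun y z : ℝ => y - z) a2 rfl)
    rw [e3]
    ring

end Pool.Agent.Helper985.CP
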