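import Pool.Agent.Helper985.CP.M_int_coul
import Pool.Agent.Helper985.CP.Defs

set_option autoImplicit false

open MeasureTheory
open scoped Topology

namespace Pool.Agent.Helper985.CP



theorem int_state {S : Type} (D : Species S) {I : Type} [Fintype I] [DecidableEq I]
    (sp : I → S) (ℓ : ℝ) (Ψ : Wave D I) (hΨ : IsState D sp ℓ Ψ) (τ : I → Fin D.g) :
    Integrable (fun x => ‖Ψ τ x‖ ^ 2) ∧ (∀ i, Integrable (kin D sp i (Ψ τ))) ∧
    Integrable (fun x => coul D sp x * ‖Ψ τ x‖ ^ 2) ∧
    (∀ i j, i ≠ j → Integrable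
      (fun x => D.charge (sp i) * D.charge (sp j) / ‖x i - x j‖ * ‖Ψ τ x‖ ^ 2)) ∧
    (∀ u : E3 → ℝ, Continuous u →
      Integrable (fun x => (∑ i, D.charge (sp i) * u (x i)) * ‖Ψ τ x‖ ^ 2)) := by
  have hcd := hΨ.smooth τ
  have hcs := hΨ.compact τ
  have hcont : Continuous (Ψ τ) := hcd.continuous
  have hsq : Continuous (fun x => ‖Ψ τ x‖ ^ 2) := (hcont.norm).pow 2
  have hsqc : HasCompactSupport (fun x => ‖Ψ τ x‖ ^ 2) :=
    hcs.comp_left (g := fun z : ℂ => ‖z‖ ^ 2) (by simp)
  have hc : ∀ i j, i ≠ j → Integrable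
      (fun x => D.charge (sp i) * D.charge (sp j) / ‖x i - x j‖ * ‖Ψ τ x‖ ^ 2) := by
    intro i j hij
    have h1 := (int_coul i j hij (fun x => ‖Ψ τ x‖ ^ 2) hsq hsqc).const_mul
      (D.charge (sp i) * D.charge (sp j))
    refine h1.congr (Filter.Eventually.of_forall fun x => ?_)
    show D.charge (sp i) * D.charge (sp j) * (1 / ‖x i - x j‖ * ‖Ψ τ x‖ ^ 2) = _
    ring
  refine ⟨hsq.integrable_of_hasCompactSupport hsqc, ?_, ?_, hc, ?_⟩
  · intro i
    have hf : Continuous (fderiv ℝ (Ψ τ)) := hcd.continuous_fderiv (by simp [SM])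
    have hfc : HasCompactSupport (fderiv ℝ (Ψ τ)) := hcs.fderiv (𝕜 := ℝ)
    have h1 : Continuous (kin D sp i (Ψ τ)) := by
      unfold kin
      refine continuous_const.mul (continuous_finsetSum _ fun k _ => ?_)
      exact ((hf.clm_apply continuous_const).norm).pow 2
    have h2 : HasCompactSupport (kin D sp i (Ψ τ)) := by
      have h3 := hfc.comp_left (g := fun L : (I → E3) →L[ℝ] ℂ => (1 / (2 * D.mass (sp i))) *
        ∑ k : Fin 3, ‖L (Pi.single i (EuclideanSpace.single k (1 : ℝ)))‖ ^ 2) (by simp)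
      exact h3
    exact h1.integrable_of_hasCompactSupport h2
  · have h1 : (fun x => coul D sp x * ‖Ψ τ x‖ ^ 2) = fun x => (1 / 2) * ∑ i, ∑ j,
        (if i = j then 0 else D.charge (sp i) * D.charge (sp j) / ‖x i - x j‖ * ‖Ψ τ x‖ ^ 2) := by
      funext x
      simp only [coul, mul_assoc, Finset.sum_mul, ite_mul, zero_mul]
    rw [h1]
    refine Integrable.const_mul (integrable_finsetSum _ fun i _ =>
      integrable_finsetSum _ fun j _ => ?_) _
    by_cases hij : i = j
    · simp [hij]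
    · simp only [if_neg hij]
      exact hc i j hij
  · intro u hu
    have h1 : Continuous (fun x : I → E3 => (∑ i, D.charge (sp i) * u (x i)) * ‖Ψ τ x‖ ^ 2) := by
      refine Continuous.mul (continuous_finsetSum _ fun i _ => ?_) hsq
      exact continuous_const.mul (hu.comp (continuous_apply i))
    exact h1.integrable_of_hasCompactSupport (hsqc.mul_left)

end Pool.Agent.Helper985.CP
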