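import Pool.Agent.Helper985.CP.M_exists_cut
import Pool.Agent.Helper985.CP.M_good_center
import Pool.Agent.Helper985.CP.M_ims
import Pool.Agent.Helper985.CP.M_int_state
import Pool.Agent.Helper985.CP.Defs

set_option autoImplicit false

open MeasureTheory
open scoped Topology

namespace Pool.Agent.Helper985.CP






theorem hole_aux_int {S : Type} (D : Species S) {I : Type} [Fintype I] (Ψ : Wave D I)
    (τ : I → Fin D.g) (hint : Integrable (fun x => ‖Ψ τ x‖ ^ 2)) (x0 : E3) (r : ℝ) :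
    Integrable (fun x => (∑ i, Set.indicator (Metric.ball x0 (2 * r)) (fun _ => (1 : ℝ)) (x i)) *
        ‖Ψ τ x‖ ^ 2) := by
  have hind0 : ∀ y : E3, 0 ≤ Set.indicator (Metric.ball x0 (2 * r)) (fun _ => (1 : ℝ)) y :=
    fun y => Set.indicator_nonneg (fun _ _ => zero_le_one) y
  have hind1 : ∀ y : E3, Set.indicator (Metric.ball x0 (2 * r)) (fun _ => (1 : ℝ)) y ≤ 1 := by
    intro y
    by_cases hy : y ∈ Metric.ball x0 (2 * r)
    · rw [Set.indicator_of_mem hy]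
    · rw [Set.indicator_of_notMem hy]; exact zero_le_one
  refine Integrable.mono' (g := fun x => (Fintype.card I : ℝ) * ‖Ψ τ x‖ ^ 2)
    (hint.const_mul _) ?_ ?_
  · have hm : Measurable (fun x : I → E3 =>
        ∑ i, Set.indicator (Metric.ball x0 (2 * r)) (fun _ => (1 : ℝ)) (x i)) := by
      apply Finset.measurable_sum
      intro i _
      exact (measurable_const.indicator Metric.isOpen_ball.measurableSet).comp (measurable_pi_apply i)
    exact hm.aestronglyMeasurable.mul hint.aestronglyMeasurable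
  · refine Filter.Eventually.of_forall fun x => ?_
    rw [Real.norm_eq_abs, abs_mul, abs_of_nonneg (Finset.sum_nonneg fun i _ => hind0 (x i)),
      abs_of_nonneg (sq_nonneg ‖Ψ τ x‖)]
    apply mul_le_mul_of_nonneg_right _ (sq_nonneg _)
    calc ∑ i, Set.indicator (Metric.ball x0 (2 * r)) (fun _ => (1 : ℝ)) (x i)
        ≤ ∑ _i : I, (1 : ℝ) := Finset.sum_le_sum fun i _ => hind1 (x i)
      _ = (Fintype.card I : ℝ) := by simp

theorem hole {S : Type} [Fintype S] (D : Species S) (hD : D.Valid) (r : ℝ) (hr : 0 < r) :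
    ∃ C : ℝ, 0 < C ∧ ∀ {I : Type} [Fintype I] [DecidableEq I] (sp : I → S) (ℓ : ℝ),
      8 * r ≤ ℓ → (Fintype.card I : ℝ) * (1024 * r ^ 3) ≤ ℓ ^ 3 →
      ∀ (Ψ : Wave D I), IsState D sp ℓ Ψ → ∀ E : ℝ,
        (∀ Φ, IsState D sp ℓ Φ → E * nrm2 D Φ ≤ energy D sp Φ) →
        ∃ x0 : E3, Metric.closedBall x0 r ⊆ cube ℓ ∧ ∃ Φ : Wave D I, IsState D sp ℓ Φ ∧
          (∀ τ x i, x i ∈ Metric.closedBall x0 r → Φ τ x = 0) ∧
          (1 / 2) * nrm2 D Ψ ≤ nrm2 D Φ ∧ nrm2 D Φ ≤ nrm2 D Ψ ∧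
          energy D sp Φ ≤ energy D sp Ψ - E * (nrm2 D Ψ - nrm2 D Φ) + C * nrm2 D Ψ := by
  obtain ⟨C0, hC0, hcut⟩ := exists_cut r hr
  have hMnn : ∀ s : S, 0 ≤ 1 / (2 * D.mass s) := fun s => by
    have := hD.mass_pos s
    positivity
  set M : ℝ := (∑ s : S, 1 / (2 * D.mass s)) + 1 with hM
  have hMpos : 0 < M := by
    have : 0 ≤ ∑ s : S, 1 / (2 * D.mass s) := Finset.sum_nonneg fun s _ => hMnn s
    linarith
  have hMle : ∀ s : S, 1 / (2 * D.mass s) ≤ M := by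
    intro s
    have : 1 / (2 * D.mass s) ≤ ∑ s : S, 1 / (2 * D.mass s) :=
      Finset.single_le_sum (f := fun s => 1 / (2 * D.mass s)) (fun s _ => hMnn s) (Finset.mem_univ s)
    linarith
  refine ⟨M * C0, mul_pos hMpos hC0, ?_⟩
  intro I _ _ sp ℓ hℓ hN Ψ hΨ E hE
  obtain ⟨x0, hx0, hgood⟩ := good_center D sp ℓ r hr hℓ hN Ψ hΨ
  obtain ⟨θ, hθs, hθsym, hθball, hθsin, hθder⟩ := hcut (I := I) x0
  obtain ⟨hst1, hst2, hnrm, hen⟩ := ims D sp ℓ Ψ hΨ θ hθs hθsym
  set Φ : Wave D I := fun τ x => ((Real.cos (θ x) : ℝ) : ℂ) * Ψ τ x with hΦ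
  set Χ : Wave D I := fun τ x => ((Real.sin (θ x) : ℝ) : ℂ) * Ψ τ x with hΧ
  have hint : ∀ τ, Integrable (fun x => ‖Ψ τ x‖ ^ 2) := fun τ => (int_state D sp ℓ Ψ hΨ τ).1
  have hG := fun τ => hole_aux_int D Ψ τ (hint τ) x0 r
  set Gs : ℝ := ∑ τ, ∫ x, (∑ i, Set.indicator (Metric.ball x0 (2 * r)) (fun _ => (1 : ℝ)) (x i)) *
        ‖Ψ τ x‖ ^ 2 with hGs
  have hind0 : ∀ y : E3, 0 ≤ Set.indicator (Metric.ball x0 (2 * r)) (fun _ => (1 : ℝ)) y :=
    fun y => Set.indicator_nonneg (fun _ _ => zero_le_one) y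
  have hΧnn : 0 ≤ nrm2 D Χ :=
    Finset.sum_nonneg fun τ _ => integral_nonneg fun x => sq_nonneg _
  have hΨnn : 0 ≤ nrm2 D Ψ :=
    Finset.sum_nonneg fun τ _ => integral_nonneg fun x => sq_nonneg _
  have hΧle : nrm2 D Χ ≤ Gs := by
    apply Finset.sum_le_sum
    intro τ _
    apply integral_mono_of_nonneg (Filter.Eventually.of_forall fun x => sq_nonneg _) (hG τ)
    refine Filter.Eventually.of_forall fun x => ?_
    show ‖((Real.sin (θ x) : ℝ) : ℂ) * Ψ τ x‖ ^ 2 ≤ _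
    rw [norm_mul, mul_pow, Complex.norm_real, Real.norm_eq_abs, sq_abs]
    exact mul_le_mul_of_nonneg_right (hθsin x) (sq_nonneg _)
  have hIMS : ∑ τ, ∫ x, (∑ i, (1 / (2 * D.mass (sp i))) * ∑ k : Fin 3,
        (fderiv ℝ θ x (Pi.single i (EuclideanSpace.single k (1 : ℝ)))) ^ 2) * ‖Ψ τ x‖ ^ 2 ≤
        M * C0 * Gs := by
    rw [hGs, Finset.mul_sum]
    apply Finset.sum_le_sum
    intro τ _
    rw [← integral_const_mul]
    apply integral_mono_of_nonneg _ ((hG τ).const_mul _)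
    · refine Filter.Eventually.of_forall fun x => ?_
      show _ ≤ M * C0 * ((∑ i, Set.indicator (Metric.ball x0 (2 * r)) (fun _ => (1 : ℝ)) (x i)) *
        ‖Ψ τ x‖ ^ 2)
      rw [← mul_assoc]
      apply mul_le_mul_of_nonneg_right _ (sq_nonneg _)
      rw [Finset.mul_sum]
      apply Finset.sum_le_sum
      intro i _
      have h1 : 0 ≤ ∑ k : Fin 3,
        (fderiv ℝ θ x (Pi.single i (EuclideanSpace.single k (1 : ℝ)))) ^ 2 :=
        Finset.sum_nonneg fun k _ => sq_nonneg _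
      calc (1 / (2 * D.mass (sp i))) * ∑ k : Fin 3,
            (fderiv ℝ θ x (Pi.single i (EuclideanSpace.single k (1 : ℝ)))) ^ 2
          ≤ M * (C0 * Set.indicator (Metric.ball x0 (2 * r)) (fun _ => (1 : ℝ)) (x i)) :=
            mul_le_mul (hMle _) (hθder x i) h1 hMpos.le
        _ = M * C0 * Set.indicator (Metric.ball x0 (2 * r)) (fun _ => (1 : ℝ)) (x i) := by ring
    · refine Filter.Eventually.of_forall fun x => ?_
      apply mul_nonneg _ (sq_nonneg _)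
      apply Finset.sum_nonneg
      intro i _
      exact mul_nonneg (hMnn _) (Finset.sum_nonneg fun k _ => sq_nonneg _)
  refine ⟨x0, hx0, Φ, hst1, ?_, ?_, ?_, ?_⟩
  · intro τ x i hi
    show ((Real.cos (θ x) : ℝ) : ℂ) * Ψ τ x = 0
    rw [hθball x i hi, Real.cos_pi_div_two]
    simp
  · linarith
  · linarith
  · have h1 := hE Χ hst2
    have h2 : nrm2 D Χ = nrm2 D Ψ - nrm2 D Φ := by linarith
    rw [h2] at h1
    have h3 : M * C0 * Gs ≤ M * C0 * nrm2 D Ψ := by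
      apply mul_le_mul_of_nonneg_left _ (mul_pos hMpos hC0).le
      linarith
    linarith

end Pool.Agent.Helper985.CP
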