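import Pool.Agent.Helper985.CP.M_int_state
import Pool.Agent.Helper985.CP.M_relabel_num
import Pool.Agent.Helper985.CP.Defs

set_option autoImplicit false

open MeasureTheory
open scoped Topology

namespace Pool.Agent.Helper985.CP




theorem idj_normsq {J : Type} (A : Finset J) (f : J → ℂ)
    (h : ∀ o ∈ A, ∀ o' ∈ A, o ≠ o' → f o = 0 ∨ f o' = 0) :
    ‖∑ o ∈ A, f o‖ ^ 2 = ∑ o ∈ A, ‖f o‖ ^ 2 := by
  classical
  by_cases hz : ∃ o ∈ A, f o ≠ 0
  · obtain ⟨o, ho, hne⟩ := hz
    have h1 : ∀ o' ∈ A, o' ≠ o → f o' = 0 := by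
      intro o' ho' hoo
      rcases h o' ho' o ho hoo with h2 | h2
      · exact h2
      · exact absurd h2 hne
    rw [Finset.sum_eq_single_of_mem o ho h1, Finset.sum_eq_single_of_mem o ho]
    intro o' ho' hoo
    rw [h1 o' ho' hoo]
    simp
  · push Not at hz
    rw [Finset.sum_eq_zero hz, Finset.sum_eq_zero (fun o ho => by rw [hz o ho]; simp)]
    simp

theorem idj_int {S : Type} (D : Species S) {J : Type} [Fintype J] [DecidableEq J]
    (sp : J → S) (u : (J → E3) → ℂ) (hu : ContDiff ℝ SM u) (hc : HasCompactSupport u) :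
    Integrable (fun x => ‖u x‖ ^ 2) ∧ (∀ i, Integrable (kin D sp i u)) ∧
    Integrable (fun x => coul D sp x * ‖u x‖ ^ 2) ∧
    (∀ v : E3 → ℝ, Continuous v →
      Integrable (fun x => (∑ i, D.charge (sp i) * v (x i)) * ‖u x‖ ^ 2)) := by
  obtain ⟨c, hc0, hcb⟩ := hc.isCompact.isBounded.subset_closedBall_lt 0 0
  let D' : Species J := { charge := fun j => D.charge (sp j), mass := fun j => D.mass (sp j),
                          fermion := fun _ => false, g := 1, spin := fun _ => Finset.univ }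
  let a0 : E3 := WithLp.toLp 2 (fun _ => c + 1)
  let a : J → E3 := fun _ => a0
  let Ψ' : Wave D' J := fun _ x => u (x - a)
  have hcomp : HasCompactSupport (fun x : J → E3 => u (x - a)) :=
    hc.comp_homeomorph (Homeomorph.subRight a)
  have hst : IsState D' id (2 * c + 2) Ψ' := by
    refine ⟨fun _ => ?_, fun _ => hcomp, fun _ => ?_, fun _ _ i => Finset.mem_univ _, ?_⟩
    · exact hu.comp (contDiff_id.sub contDiff_const)
    · intro x hx i k
      have h1 : x - a ∈ tsupport u := by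
        have h2 : tsupport (u ∘ (Homeomorph.subRight a)) =
            (Homeomorph.subRight a) ⁻¹' (tsupport u) := tsupport_comp_eq_preimage u _
        have h3 : x ∈ tsupport (u ∘ (Homeomorph.subRight a)) := hx
        rw [h2] at h3
        exact h3
      have h4 := hcb h1
      rw [mem_closedBall_zero_iff] at h4
      have h5 : ‖(x - a) i‖ ≤ c := le_trans (norm_le_pi_norm _ i) h4
      have h6 : ‖((x - a) i) k‖ ≤ c := le_trans (PiLp.norm_apply_le _ k) h5
      have h7 : ((x - a) i) k = x i k - (c + 1) := rfl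
      rw [h7, Real.norm_eq_abs, abs_le] at h6
      constructor <;> linarith [h6.1, h6.2]
    · intro i j hij h
      exact absurd h hij
  obtain ⟨h1, h2, h3, _, h5⟩ := int_state D' id (2 * c + 2) Ψ' hst (fun _ => (0 : Fin 1))
  refine ⟨?_, ?_, ?_, ?_⟩
  · have h := h1.comp_add_right a
    refine h.congr (Filter.Eventually.of_forall fun x => ?_)
    show ‖u (x + a - a)‖ ^ 2 = _
    rw [add_sub_cancel_right]
  · intro i
    have h := (h2 i).comp_add_right a
    refine h.congr (Filter.Eventually.of_forall fun x => ?_)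
    show kin D' id i (fun y => u (y - a)) (x + a) = kin D sp i u x
    unfold kin
    have e : fderiv ℝ (fun y => u (y - a)) (x + a) = fderiv ℝ u x := by
      rw [fderiv_comp_sub, add_sub_cancel_right]
    rw [e]
    rfl
  · have h := h3.comp_add_right a
    refine h.congr (Filter.Eventually.of_forall fun x => ?_)
    show coul D' id (x + a) * ‖u (x + a - a)‖ ^ 2 = _
    rw [add_sub_cancel_right]
    congr 1
    unfold coul
    congr 1
    apply Finset.sum_congr rfl
    intro i _
    apply Finset.sum_congr rfl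
    intro j _
    have e : (x + a) i - (x + a) j = x i - x j := by
      show (x i + a0) - (x j + a0) = _
      abel
    rw [e]
    rfl
  · intro v hv
    have h := (h5 (fun y => v (y - a0)) (hv.comp (continuous_id.sub continuous_const))).comp_add_right a
    refine h.congr (Filter.Eventually.of_forall fun x => ?_)
    show (∑ i, D'.charge (id i) * v ((x + a) i - a0)) * ‖u (x + a - a)‖ ^ 2 = _
    rw [add_sub_cancel_right]
    congr 1
    apply Finset.sum_congr rfl
    intro i _
    have e : (x + a) i - a0 = x i := by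
      show (x i + a0) - a0 = _
      abel
    rw [e]
    rfl

theorem idj_sum {S : Type} (D : Species S) {J : Type} [Fintype J] [DecidableEq J]
    (sp : J → S) (A : Finset J) (u : J → (J → E3) → ℂ)
    (hu : ∀ o ∈ A, ContDiff ℝ SM (u o)) (hc : ∀ o ∈ A, HasCompactSupport (u o))
    (hd : ∀ x, ∀ o ∈ A, ∀ o' ∈ A, o ≠ o' →
      (u o x = 0 ∧ fderiv ℝ (u o) x = 0) ∨ (u o' x = 0 ∧ fderiv ℝ (u o') x = 0)) :
    (∫ x, ‖∑ o ∈ A, u o x‖ ^ 2 = ∑ o ∈ A, ∫ x, ‖u o x‖ ^ 2) ∧
    (∫ x, ((∑ i, kin D sp i (fun y => ∑ o ∈ A, u o y) x) + coul D sp x * ‖∑ o ∈ A, u o x‖ ^ 2) =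
      ∑ o ∈ A, ∫ x, ((∑ i, kin D sp i (u o) x) + coul D sp x * ‖u o x‖ ^ 2)) ∧
    (∀ v : E3 → ℝ, Continuous v →
      ∫ x, (∑ i, D.charge (sp i) * v (x i)) * ‖∑ o ∈ A, u o x‖ ^ 2 =
        ∑ o ∈ A, ∫ x, (∑ i, D.charge (sp i) * v (x i)) * ‖u o x‖ ^ 2) := by
  have hn : ∀ x, ‖∑ o ∈ A, u o x‖ ^ 2 = ∑ o ∈ A, ‖u o x‖ ^ 2 := by
    intro x
    apply idj_normsq
    intro o ho o' ho' hoo
    rcases hd x o ho o' ho' hoo with h | h
    · exact Or.inl h.1
    · exact Or.inr h.1
  have hk : ∀ i x, kin D sp i (fun y => ∑ o ∈ A, u o y) x = ∑ o ∈ A, kin D sp i (u o) x := by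
    intro i x
    unfold kin
    rw [← Finset.mul_sum, Finset.sum_comm]
    congr 1
    apply Finset.sum_congr rfl
    intro k _
    have e : fderiv ℝ (fun y => ∑ o ∈ A, u o y) x = ∑ o ∈ A, fderiv ℝ (u o) x := by
      rw [fderiv_fun_sum]
      intro o ho
      exact ((hu o ho).differentiable (by simp)).differentiableAt
    rw [e, ContinuousLinearMap.sum_apply]
    apply idj_normsq
    intro o ho o' ho' hoo
    rcases hd x o ho o' ho' hoo with h | h
    · left; rw [h.2]; rfl
    · right; rw [h.2]; rfl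
  refine ⟨?_, ?_, ?_⟩
  · simp only [hn]
    rw [integral_finsetSum]
    intro o ho
    exact (idj_int D sp (u o) (hu o ho) (hc o ho)).1
  · have e : ∀ x, ((∑ i, kin D sp i (fun y => ∑ o ∈ A, u o y) x) + coul D sp x * ‖∑ o ∈ A, u o x‖ ^ 2) =
        ∑ o ∈ A, ((∑ i, kin D sp i (u o) x) + coul D sp x * ‖u o x‖ ^ 2) := by
      intro x
      rw [hn x, Finset.mul_sum, Finset.sum_add_distrib]
      congr 1
      rw [Finset.sum_comm]
      exact Finset.sum_congr rfl fun i _ => hk i x
    simp only [e]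
    rw [integral_finsetSum]
    intro o ho
    obtain ⟨_, h2, h3, _⟩ := idj_int D sp (u o) (hu o ho) (hc o ho)
    exact (integrable_finsetSum _ fun i _ => h2 i).add h3
  · intro v hv
    simp only [hn, Finset.mul_sum]
    rw [integral_finsetSum]
    intro o ho
    exact (idj_int D sp (u o) (hu o ho) (hc o ho)).2.2.2 v hv

theorem idj_W0_smooth {S : Type} (D : Species S) {I : Type} [Fintype I]
    [DecidableEq I] (sp : I → S) (ℓ : ℝ) (σ0 : Fin D.g) (φ : E3 → ℝ)
    (hφ : ContDiff ℝ SM φ) (Ψ : Wave D I)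
    (hΨ : IsState D sp ℓ Ψ) (τ : Option I → Fin D.g) : ContDiff ℝ SM (ins0 D σ0 φ Ψ τ) := by
  unfold ins0
  by_cases h : τ none = σ0
  · simp only [if_pos h]
    have h1 : ContDiff ℝ SM (fun x : Option I → E3 => ((φ (x none) : ℝ) : ℂ)) :=
      Complex.ofRealCLM.contDiff.comp (hφ.comp (contDiff_apply ℝ E3 none))
    have h2 : ContDiff ℝ SM (fun x : Option I → E3 =>
        Ψ (fun i => τ (some i)) (fun i => x (some i))) :=
      (hΨ.smooth _).comp (contDiff_pi.2 fun i => contDiff_apply ℝ E3 (some i))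
    exact h1.mul h2
  · simp only [if_neg h]
    exact contDiff_const

theorem idj_W0_bound {S : Type} (D : Species S) {I : Type} [Fintype I]
    [DecidableEq I] (sp : I → S) (ℓ : ℝ) (σ0 : Fin D.g) (φ : E3 → ℝ)
    (hφc : HasCompactSupport φ) (Ψ : Wave D I)
    (hΨ : IsState D sp ℓ Ψ) (τ : Option I → Fin D.g) :
    ∃ R : ℝ, 0 < R ∧ ∀ x, ins0 D σ0 φ Ψ τ x ≠ 0 → ∀ o, ‖x o‖ ≤ R := by
  obtain ⟨c1, hc1, hb1⟩ := hφc.isCompact.isBounded.subset_closedBall_lt 0 0
  obtain ⟨c2, hc2, hb2⟩ := (hΨ.compact (fun i => τ (some i))).isCompact.isBounded.subset_closedBall_lt 0 0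
  refine ⟨max c1 c2, lt_max_of_lt_left hc1, ?_⟩
  intro x hx o
  unfold ins0 at hx
  by_cases h : τ none = σ0
  · rw [if_pos h] at hx
    have h1 : φ (x none) ≠ 0 := by
      intro h0
      apply hx
      rw [h0]
      simp
    have h2 : Ψ (fun i => τ (some i)) (fun i => x (some i)) ≠ 0 := right_ne_zero_of_mul hx
    have h3 := hb1 (subset_tsupport φ h1)
    have h4 := hb2 (subset_tsupport _ h2)
    rw [mem_closedBall_zero_iff] at h3 h4
    cases o with
    | none => exact le_trans h3 (le_max_left _ _)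
    | some i => exact le_trans (norm_le_pi_norm (fun i => x (some i)) i) (le_trans h4 (le_max_right _ _))
  · rw [if_neg h] at hx
    exact absurd rfl hx

theorem idj_W0_act {S : Type} (D : Species S) {I : Type} [Fintype I]
    [DecidableEq I] (sp : I → S) (ℓ : ℝ) (s : S) (σ0 : Fin D.g) (φ : E3 → ℝ)
    (hφ : ContDiff ℝ SM φ) (Ψ : Wave D I)
    (hΨ : IsState D sp ℓ Ψ)
    (hv : ∀ τ x i, sp i = s → x i ∈ tsupport φ → Ψ τ x = 0) (τ : Option I → Fin D.g)
    (x : Option I → E3) (h : x none ∉ interior (tsupport φ) ∨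
      ∃ i, sp i = s ∧ x (some i) ∈ interior (tsupport φ)) :
    ins0 D σ0 φ Ψ τ x = 0 ∧ fderiv ℝ (ins0 D σ0 φ Ψ τ) x = 0 := by
  by_cases hτ : τ none = σ0
  swap
  · have e : ins0 D σ0 φ Ψ τ = fun _ => 0 := by
      funext y
      unfold ins0
      rw [if_neg hτ]
    rw [e]
    refine ⟨rfl, ?_⟩
    rw [fderiv_const_apply]
  rcases h with h | ⟨i, hi, h⟩
  · have h1 : φ (x none) = 0 := by
      by_contra h0
      apply h
      exact interior_maximal (subset_tsupport φ) hφ.continuous.isOpen_support h0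
    have h2 : fderiv ℝ φ (x none) = 0 := by
      by_contra h0
      apply h
      exact interior_maximal (support_fderiv_subset ℝ (f := φ))
        (hφ.continuous_fderiv (by simp)).isOpen_support h0
    have e : ins0 D σ0 φ Ψ τ = fun y => ((φ (y none) : ℝ) : ℂ) *
        Ψ (fun i => τ (some i)) (fun i => y (some i)) := by
      funext y
      unfold ins0
      rw [if_pos hτ]
    have hp : HasFDerivAt (fun y : Option I → E3 => ((φ (y none) : ℝ) : ℂ))
        (0 : (Option I → E3) →L[ℝ] ℂ) x := by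
      have h3 : HasFDerivAt φ (0 : E3 →L[ℝ] ℝ) (x none) := by
        rw [← h2]
        exact (hφ.differentiable (by simp)).differentiableAt.hasFDerivAt
      have h4 : HasFDerivAt (fun y : Option I → E3 => y none)
          (ContinuousLinearMap.proj (R := ℝ) (φ := fun _ : Option I => E3) none) x :=
        (ContinuousLinearMap.proj (R := ℝ) (φ := fun _ : Option I => E3) none).hasFDerivAt
      have h5 := Complex.ofRealCLM.hasFDerivAt.comp x (h3.comp x h4)
      rw [ContinuousLinearMap.zero_comp, ContinuousLinearMap.comp_zero] at h5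
      exact h5
    have hq : DifferentiableAt ℝ (fun y : Option I → E3 =>
        Ψ (fun i => τ (some i)) (fun i => y (some i))) x := by
      have h2 : ContDiff ℝ SM (fun x : Option I → E3 =>
          Ψ (fun i => τ (some i)) (fun i => x (some i))) :=
        (hΨ.smooth _).comp (contDiff_pi.2 fun i => contDiff_apply ℝ E3 (some i))
      exact (h2.differentiable (by simp)).differentiableAt
    have hm := hp.mul hq.hasFDerivAt
    constructor
    · rw [e]
      simp [h1]
    · rw [e]
      have h6 := hm.fderiv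
      have h7 : fderiv ℝ (fun y : Option I → E3 => ((φ (y none) : ℝ) : ℂ) *
        Ψ (fun i => τ (some i)) (fun i => y (some i))) x = _ := h6
      rw [h7, h1]
      ext y
      simp
  · have hev : ins0 D σ0 φ Ψ τ =ᶠ[𝓝 x] fun _ => 0 := by
      have h1 : ∀ᶠ y : Option I → E3 in 𝓝 x, y (some i) ∈ interior (tsupport φ) := by
        apply (continuous_apply (some i)).continuousAt.eventually_mem
        exact isOpen_interior.mem_nhds h
      filter_upwards [h1] with y hy
      unfold ins0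
      rw [if_pos hτ, hv (fun i => τ (some i)) (fun i => y (some i)) i hi (interior_subset hy), mul_zero]
    refine ⟨hev.eq_of_nhds, ?_⟩
    rw [hev.fderiv_eq, fderiv_const_apply]

/-- the terms of the symmetrised product -/
noncomputable def idjT {S : Type} (D : Species S) {I : Type}
    [DecidableEq I] (s : S) (σ0 : Fin D.g) (φ : E3 → ℝ) (Ψ : Wave D I) (o : Option I) :
    Wave D (Option I) := fun τ x =>
  (if o = none then 1 else exch D s) *
    ins0 D σ0 φ Ψ (fun k => τ (Equiv.swap none o k)) (fun k => x (Equiv.swap none o k))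

theorem idj_coef {S : Type} (D : Species S) {I : Type} (s : S) (o : Option I) [Decidable (o = none)] :
    ‖(if o = none then (1 : ℂ) else exch D s)‖ = 1 := by
  unfold exch
  split_ifs <;> simp

theorem idjT_smooth {S : Type} (D : Species S) {I : Type} [Fintype I]
    [DecidableEq I] (sp : I → S) (ℓ : ℝ) (s : S) (σ0 : Fin D.g) (φ : E3 → ℝ)
    (hφ : ContDiff ℝ SM φ) (Ψ : Wave D I)
    (hΨ : IsState D sp ℓ Ψ) (o : Option I) (τ : Option I → Fin D.g) :
    ContDiff ℝ SM (idjT D s σ0 φ Ψ o τ) := by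
  unfold idjT
  exact contDiff_const.mul ((idj_W0_smooth D sp ℓ σ0 φ hφ Ψ hΨ _).comp
    (contDiff_pi.2 fun k => contDiff_apply ℝ E3 (Equiv.swap none o k)))

theorem idjT_compact {S : Type} (D : Species S) {I : Type} [Fintype I]
    [DecidableEq I] (sp : I → S) (ℓ : ℝ) (s : S) (σ0 : Fin D.g) (φ : E3 → ℝ)
    (hφc : HasCompactSupport φ) (Ψ : Wave D I)
    (hΨ : IsState D sp ℓ Ψ) (o : Option I) (τ : Option I → Fin D.g) :
    HasCompactSupport (idjT D s σ0 φ Ψ o τ) := by
  obtain ⟨R, hR, hb⟩ := idj_W0_bound D sp ℓ σ0 φ hφc Ψ hΨ (fun k => τ (Equiv.swap none o k))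
  apply HasCompactSupport.of_support_subset_isCompact (isCompact_closedBall (0 : Option I → E3) R)
  intro x hx
  rw [mem_closedBall_zero_iff, pi_norm_le_iff_of_nonneg hR.le]
  intro k
  have h1 : ins0 D σ0 φ Ψ (fun k => τ (Equiv.swap none o k)) (fun k => x (Equiv.swap none o k)) ≠ 0 :=
    right_ne_zero_of_mul hx
  have h2 := hb _ h1 (Equiv.swap none o k)
  simp only [Equiv.swap_apply_self] at h2
  exact h2

theorem idjT_act {S : Type} (D : Species S) {I : Type} [Fintype I]
    [DecidableEq I] (sp : I → S) (ℓ : ℝ) (s : S) (σ0 : Fin D.g) (φ : E3 → ℝ)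
    (hφ : ContDiff ℝ SM φ) (Ψ : Wave D I)
    (hΨ : IsState D sp ℓ Ψ)
    (hv : ∀ τ x i, sp i = s → x i ∈ tsupport φ → Ψ τ x = 0) (o : Option I)
    (τ : Option I → Fin D.g)
    (x : Option I → E3) (h : x o ∉ interior (tsupport φ) ∨
      ∃ i, sp i = s ∧ x (Equiv.swap none o (some i)) ∈ interior (tsupport φ)) :
    idjT D s σ0 φ Ψ o τ x = 0 ∧ fderiv ℝ (idjT D s σ0 φ Ψ o τ) x = 0 := by
  have h1 : ins0 D σ0 φ Ψ (fun k => τ (Equiv.swap none o k)) (fun k => x (Equiv.swap none o k)) = 0 ∧
      fderiv ℝ (ins0 D σ0 φ Ψ (fun k => τ (Equiv.swap none o k))) (fun k => x (Equiv.swap none o k)) = 0 := by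
    apply idj_W0_act D sp ℓ s σ0 φ hφ Ψ hΨ hv
    rcases h with h | h
    · left
      rw [Equiv.swap_apply_left]
      exact h
    · right
      exact h
  refine ⟨?_, ?_⟩
  · unfold idjT
    rw [h1.1, mul_zero]
  · let L : (Option I → E3) →L[ℝ] (Option I → E3) :=
      ContinuousLinearMap.pi fun k => ContinuousLinearMap.proj (R := ℝ) (φ := fun _ : Option I => E3)
        (Equiv.swap none o k)
    have h2 : HasFDerivAt (ins0 D σ0 φ Ψ (fun k => τ (Equiv.swap none o k)))
        (0 : (Option I → E3) →L[ℝ] ℂ) (L x) := by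
      have h3 := h1.2
      have h4 : DifferentiableAt ℝ (ins0 D σ0 φ Ψ (fun k => τ (Equiv.swap none o k))) (L x) :=
        ((idj_W0_smooth D sp ℓ σ0 φ hφ Ψ hΨ _).differentiable (by simp)).differentiableAt
      have h5 := h4.hasFDerivAt
      have h6 : fderiv ℝ (ins0 D σ0 φ Ψ (fun k => τ (Equiv.swap none o k))) (L x) = 0 := h3
      rwa [h6] at h5
    have h7 := (h2.comp x L.hasFDerivAt).const_mul (if o = none then (1 : ℂ) else exch D s)
    have h8 := h7.fderiv
    have h9 : fderiv ℝ (idjT D s σ0 φ Ψ o τ) x = _ := h8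
    have h10 : ∀ c : ℂ, (c • ((0 : (Option I → E3) →L[ℝ] ℂ).comp L)) = 0 := by
      intro c
      ext y
      show c * ((0 : (Option I → E3) →L[ℝ] ℂ) (L y)) = 0
      rw [ContinuousLinearMap.zero_apply, mul_zero]
    rw [h9]
    exact h10 _

theorem ins_disj {S : Type} [DecidableEq S] (D : Species S) {I : Type} [Fintype I]
    [DecidableEq I] (sp : I → S) (ℓ : ℝ) (s : S) (σ0 : Fin D.g) (φ : E3 → ℝ)
    (hφ : ContDiff ℝ SM φ) (hφc : HasCompactSupport φ) (Ψ : Wave D I)
    (hΨ : IsState D sp ℓ Ψ)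
    (hv : ∀ τ x i, sp i = s → x i ∈ tsupport φ → Ψ τ x = 0) :
    nrm2 D (ins1 D sp s σ0 φ Ψ) =
      (((Finset.univ.filter (fun i => sp i = s)).card : ℝ) + 1) * nrm2 D (ins0 D σ0 φ Ψ) ∧
    energy D (fun o : Option I => o.elim s sp) (ins1 D sp s σ0 φ Ψ) =
      (((Finset.univ.filter (fun i => sp i = s)).card : ℝ) + 1) *
        energy D (fun o : Option I => o.elim s sp) (ins0 D σ0 φ Ψ) ∧
    (∀ u : E3 → ℝ, Continuous u →
      mean D (fun o : Option I => o.elim s sp) (ins1 D sp s σ0 φ Ψ) u =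
      (((Finset.univ.filter (fun i => sp i = s)).card : ℝ) + 1) *
        mean D (fun o : Option I => o.elim s sp) (ins0 D σ0 φ Ψ) u) := by
  classical
  let sp' : Option I → S := fun o => o.elim s sp
  let A : Finset (Option I) := Finset.univ.filter (fun o => sp' o = s)
  have hA : ∀ o, o ∈ A ↔ sp' o = s := fun o => by
    simp only [A, Finset.mem_filter, Finset.mem_univ, true_and]
  have hcard : (A.card : ℝ) = ((Finset.univ.filter (fun i => sp i = s)).card : ℝ) + 1 := by
    have h1 : A.card = ∑ o : Option I, if sp' o = s then 1 else 0 := by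
      simp only [A, Finset.card_filter]
    have h2 : (Finset.univ.filter (fun i => sp i = s)).card = ∑ i : I, if sp i = s then 1 else 0 := by
      simp only [Finset.card_filter]
    rw [h1, h2, Fintype.sum_option]
    have h3 : sp' none = s := rfl
    have h4 : ∀ i, sp' (some i) = sp i := fun _ => rfl
    simp only [h3, h4, if_true]
    push_cast
    ring
  have hins : ∀ τ x, ins1 D sp s σ0 φ Ψ τ x = ∑ o ∈ A, idjT D s σ0 φ Ψ o τ x := by
    intro τ x
    rw [Finset.sum_filter, Fintype.sum_option]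
    have h3 : sp' none = s := rfl
    have h4 : ∀ i, sp' (some i) = sp i := fun _ => rfl
    simp only [h3, h4, if_true]
    unfold ins1 idjT
    simp
  have hswap : ∀ o ∈ A, ∀ k, sp' (Equiv.swap none o k) = sp' k := by
    intro o ho k
    have ho' := (hA o).1 ho
    rcases Equiv.swap_apply_eq_iff.1 (rfl : Equiv.swap none o k = Equiv.swap none o k) with _
    by_cases h1 : k = none
    · subst h1
      rw [Equiv.swap_apply_left, ho']
      rfl
    · by_cases h2 : k = o
      · subst h2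
        rw [Equiv.swap_apply_right, ho']
        rfl
      · rw [Equiv.swap_apply_of_ne_of_ne h1 h2]
  have hTfun : ∀ o τ, idjT D s σ0 φ Ψ o τ = fun x => (if o = none then (1 : ℂ) else exch D s) *
      relab D (Equiv.swap none o) (ins0 D σ0 φ Ψ) τ x := fun o τ => rfl
  have hnT : ∀ o τ x, ‖idjT D s σ0 φ Ψ o τ x‖ = ‖relab D (Equiv.swap none o) (ins0 D σ0 φ Ψ) τ x‖ := by
    intro o τ x
    rw [hTfun, norm_mul, idj_coef, one_mul]
  have hkT : ∀ o τ i x, kin D sp' i (idjT D s σ0 φ Ψ o τ) x =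
      kin D sp' i (relab D (Equiv.swap none o) (ins0 D σ0 φ Ψ) τ) x := by
    intro o τ i x
    unfold kin
    congr 1
    apply Finset.sum_congr rfl
    intro k _
    have hdiff : DifferentiableAt ℝ (relab D (Equiv.swap none o) (ins0 D σ0 φ Ψ) τ) x := by
      have h1 : ContDiff ℝ SM (relab D (Equiv.swap none o) (ins0 D σ0 φ Ψ) τ) := by
        unfold relab
        exact (idj_W0_smooth D sp ℓ σ0 φ hφ Ψ hΨ _).comp
          (contDiff_pi.2 fun k => contDiff_apply ℝ E3 (Equiv.swap none o k))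
      exact (h1.differentiable (by simp)).differentiableAt
    rw [hTfun, fderiv_const_mul hdiff]
    rw [ContinuousLinearMap.smul_apply, norm_smul, idj_coef, one_mul]
  have hdis : ∀ τ x, ∀ o ∈ A, ∀ o' ∈ A, o ≠ o' →
      (idjT D s σ0 φ Ψ o τ x = 0 ∧ fderiv ℝ (idjT D s σ0 φ Ψ o τ) x = 0) ∨
      (idjT D s σ0 φ Ψ o' τ x = 0 ∧ fderiv ℝ (idjT D s σ0 φ Ψ o' τ) x = 0) := by
    intro τ x o ho o' ho' hoo
    by_cases hx : x o ∈ interior (tsupport φ)
    · right
      apply idjT_act D sp ℓ s σ0 φ hφ Ψ hΨ hv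
      right
      cases o with
      | none =>
        cases o' with
        | none => exact absurd rfl hoo
        | some j =>
          refine ⟨j, (hA (some j)).1 ho', ?_⟩
          rw [Equiv.swap_apply_right]
          exact hx
      | some i =>
        refine ⟨i, (hA (some i)).1 ho, ?_⟩
        rw [Equiv.swap_apply_of_ne_of_ne (by simp) hoo]
        exact hx
    · left
      apply idjT_act D sp ℓ s σ0 φ hφ Ψ hΨ hv
      left
      exact hx
  have hsum := fun τ => idj_sum D sp' A (fun o => idjT D s σ0 φ Ψ o τ)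
    (fun o _ => idjT_smooth D sp ℓ s σ0 φ hφ Ψ hΨ o τ)
    (fun o _ => idjT_compact D sp ℓ s σ0 φ hφc Ψ hΨ o τ) (hdis τ)
  have hrel := fun o (ho : o ∈ A) => relabel_num D (Equiv.swap none o) sp' sp' (hswap o ho) (ins0 D σ0 φ Ψ)
  have hfun : ∀ τ, ins1 D sp s σ0 φ Ψ τ = fun x => ∑ o ∈ A, idjT D s σ0 φ Ψ o τ x := by
    intro τ
    funext x
    exact hins τ x
  refine ⟨?_, ?_, ?_⟩
  · rw [← hcard]
    have h1 : nrm2 D (ins1 D sp s σ0 φ Ψ) = ∑ o ∈ A, nrm2 D (idjT D s σ0 φ Ψ o) := by
      unfold nrm2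
      rw [Finset.sum_comm]
      apply Finset.sum_congr rfl
      intro τ _
      rw [hfun τ]
      exact (hsum τ).1
    rw [h1, ← nsmul_eq_mul]
    apply Finset.sum_eq_card_nsmul
    intro o ho
    rw [← (hrel o ho).1]
    unfold nrm2
    simp only [hnT]
  · rw [← hcard]
    have h1 : energy D sp' (ins1 D sp s σ0 φ Ψ) = ∑ o ∈ A, energy D sp' (idjT D s σ0 φ Ψ o) := by
      unfold energy
      rw [Finset.sum_comm]
      apply Finset.sum_congr rfl
      intro τ _
      rw [hfun τ]
      exact (hsum τ).2.1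
    show energy D sp' (ins1 D sp s σ0 φ Ψ) = (A.card : ℝ) * energy D sp' (ins0 D σ0 φ Ψ)
    rw [h1, ← nsmul_eq_mul]
    apply Finset.sum_eq_card_nsmul
    intro o ho
    rw [← (hrel o ho).2.1]
    unfold energy
    simp only [hnT, hkT]
  · intro u hu
    rw [← hcard]
    have h1 : mean D sp' (ins1 D sp s σ0 φ Ψ) u = ∑ o ∈ A, mean D sp' (idjT D s σ0 φ Ψ o) u := by
      unfold mean
      rw [Finset.sum_comm]
      apply Finset.sum_congr rfl
      intro τ _
      rw [hfun τ]
      exact (hsum τ).2.2 u hu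
    show mean D sp' (ins1 D sp s σ0 φ Ψ) u = (A.card : ℝ) * mean D sp' (ins0 D σ0 φ Ψ) u
    rw [h1, ← nsmul_eq_mul]
    apply Finset.sum_eq_card_nsmul
    intro o ho
    rw [← (hrel o ho).2.2.2 u]
    unfold mean
    simp only [hnT]

end Pool.Agent.Helper985.CP
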