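import Pool.Agent.Helper985.CP.Defs

set_option autoImplicit false

open MeasureTheory
open scoped Topology

namespace Pool.Agent.Helper985.CP



noncomputable def cc31988 {S : Type} [DecidableEq S] (D : Species S) {I : Type} (sp : I → S) (s : S) :
    Option I → ℂ
  | none => 1
  | some i => if sp i = s then exch D s else 0

lemma exch_sq31988 {S : Type} (D : Species S) (s : S) : exch D s * exch D s = 1 := by
  unfold exch; split_ifs <;> norm_num

lemma ins1_eq31988 {S : Type} [DecidableEq S] (D : Species S) {I : Type} [Fintype I]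
    [DecidableEq I] (sp : I → S) (s : S) (σ0 : Fin D.g) (φ : E3 → ℝ) (Ψ : Wave D I)
    (τ : Option I → Fin D.g) (x : Option I → E3) :
    ins1 D sp s σ0 φ Ψ τ x = ∑ o : Option I, cc31988 D sp s o *
      ins0 D σ0 φ Ψ (fun k => τ (Equiv.swap none o k)) (fun k => x (Equiv.swap none o k)) := by
  rw [Fintype.sum_option]
  simp [ins1, cc31988, ite_mul]

lemma ins0_swap31988 {S : Type} [DecidableEq S] (D : Species S) {I : Type} [Fintype I]
    [DecidableEq I] (sp : I → S) (ℓ : ℝ) (σ0 : Fin D.g) (φ : E3 → ℝ) (Ψ : Wave D I)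
    (hΨ : IsState D sp ℓ Ψ) (a b : I) (hab : a ≠ b) (h : sp a = sp b)
    (τ : Option I → Fin D.g) (x : Option I → E3) :
    ins0 D σ0 φ Ψ (fun k => τ (Equiv.swap (some a) (some b) k))
      (fun k => x (Equiv.swap (some a) (some b) k)) = exch D (sp a) * ins0 D σ0 φ Ψ τ x := by
  unfold ins0
  have h0 : Equiv.swap (some a) (some b) none = none :=
    Equiv.swap_apply_of_ne_of_ne (by simp) (by simp)
  have h1 : ∀ i, Equiv.swap (some a) (some b) (some i) = some (Equiv.swap a b i) := by
    intro i
    simp only [Equiv.swap_apply_def, Option.some.injEq]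
    split_ifs <;> rfl
  simp only [h0, h1]
  split_ifs with hc
  · have := hΨ.symm a b hab h (fun i => τ (some i)) (fun i => x (some i))
    rw [this]; ring
  · simp

lemma term_A31988 {S : Type} [DecidableEq S] (D : Species S) {I : Type} [Fintype I]
    [DecidableEq I] (sp : I → S) (ℓ : ℝ) (s : S) (σ0 : Fin D.g) (φ : E3 → ℝ) (Ψ : Wave D I)
    (hΨ : IsState D sp ℓ Ψ) (a b : I) (hab : a ≠ b) (h : sp a = sp b) (o : Option I)
    (τ : Option I → Fin D.g) (x : Option I → E3) :
    cc31988 D sp s o * ins0 D σ0 φ Ψ (fun k => τ (Equiv.swap (some a) (some b) (Equiv.swap none o k)))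
      (fun k => x (Equiv.swap (some a) (some b) (Equiv.swap none o k))) =
    exch D (sp a) * (cc31988 D sp s (Equiv.swap (some a) (some b) o) *
      ins0 D σ0 φ Ψ (fun k => τ (Equiv.swap none (Equiv.swap (some a) (some b) o) k))
        (fun k => x (Equiv.swap none (Equiv.swap (some a) (some b) o) k))) := by
  have h0 : Equiv.swap (some a) (some b) none = none :=
    Equiv.swap_apply_of_ne_of_ne (by simp) (by simp)
  have hk : ∀ k, Equiv.swap (some a) (some b) (Equiv.swap none o k) =
      Equiv.swap none (Equiv.swap (some a) (some b) o) (Equiv.swap (some a) (some b) k) := by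
    intro k
    have h2 := Equiv.mul_swap_eq_swap_mul (Equiv.swap (some a) (some b)) none o
    rw [h0] at h2
    have h3 := congrArg (fun f : Equiv.Perm (Option I) => f k) h2
    simpa [Equiv.Perm.mul_apply] using h3
  have hc : cc31988 D sp s (Equiv.swap (some a) (some b) o) = cc31988 D sp s o := by
    rcases o with _ | c
    · rw [h0]
    · simp only [Equiv.swap_apply_def, Option.some.injEq]
      split_ifs with h1 h2
      · subst h1; simp only [cc31988, h]
      · subst h2; simp only [cc31988, h]
      · rfl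
  simp only [hk]
  rw [hc, ins0_swap31988 D sp ℓ σ0 φ Ψ hΨ a b hab h
    (fun k => τ (Equiv.swap none (Equiv.swap (some a) (some b) o) k))
    (fun k => x (Equiv.swap none (Equiv.swap (some a) (some b) o) k))]
  ring

lemma term_B31988 {S : Type} [DecidableEq S] (D : Species S) {I : Type} [Fintype I]
    [DecidableEq I] (sp : I → S) (ℓ : ℝ) (s : S) (σ0 : Fin D.g) (φ : E3 → ℝ) (Ψ : Wave D I)
    (hΨ : IsState D sp ℓ Ψ) (b : I) (h : sp b = s) (o : Option I)
    (τ : Option I → Fin D.g) (x : Option I → E3) :
    cc31988 D sp s o * ins0 D σ0 φ Ψ (fun k => τ (Equiv.swap none (some b) (Equiv.swap none o k)))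
      (fun k => x (Equiv.swap none (some b) (Equiv.swap none o k))) =
    exch D s * (cc31988 D sp s (Equiv.swap none (some b) o) *
      ins0 D σ0 φ Ψ (fun k => τ (Equiv.swap none (Equiv.swap none (some b) o) k))
        (fun k => x (Equiv.swap none (Equiv.swap none (some b) o) k))) := by
  rcases o with _ | c
  · simp only [Equiv.swap_self, Equiv.refl_apply, Equiv.swap_apply_left]
    have h1 : cc31988 D sp s (some b) = exch D s := by simp [cc31988, h]
    have h2 : cc31988 D sp s (none : Option I) = 1 := rfl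
    rw [h1, h2, ← mul_assoc, exch_sq31988]
  · by_cases hcb : c = b
    · subst hcb
      simp only [Equiv.swap_apply_right, Equiv.swap_apply_self, Equiv.swap_self, Equiv.refl_apply]
      have h1 : cc31988 D sp s (some c) = exch D s := by simp [cc31988, h]
      have h2 : cc31988 D sp s (none : Option I) = 1 := rfl
      rw [h1, h2, one_mul]
    · have h0 : Equiv.swap none (some b) (some c) = some c :=
        Equiv.swap_apply_of_ne_of_ne (by simp) (by simpa using hcb)
      rw [h0]
      by_cases hs : sp c = s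
      · have hk : ∀ k, Equiv.swap none (some b) (Equiv.swap none (some c) k) =
            Equiv.swap none (some c) (Equiv.swap (some c) (some b) k) := by
          intro k
          rcases k with _ | d
          · rw [Equiv.swap_apply_left, h0, Equiv.swap_apply_of_ne_of_ne (a := some c) (b := some b)
              (by simp) (by simp), Equiv.swap_apply_left]
          · by_cases h1 : d = c
            · subst h1
              rw [Equiv.swap_apply_right, Equiv.swap_apply_left, Equiv.swap_apply_left,
                Equiv.swap_apply_of_ne_of_ne (by simp) (by simpa using Ne.symm hcb)]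
            · by_cases h2 : d = b
              · subst h2
                rw [Equiv.swap_apply_right, Equiv.swap_apply_right,
                  Equiv.swap_apply_of_ne_of_ne (a := none) (b := some c) (by simp) (by simpa using h1),
                  Equiv.swap_apply_right]
              · rw [Equiv.swap_apply_of_ne_of_ne (a := none) (b := some c) (by simp) (by simpa using h1),
                  Equiv.swap_apply_of_ne_of_ne (a := none) (b := some b) (by simp) (by simpa using h2),
                  Equiv.swap_apply_of_ne_of_ne (a := some c) (b := some b) (by simpa using h1)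
                    (by simpa using h2),
                  Equiv.swap_apply_of_ne_of_ne (a := none) (b := some c) (by simp) (by simpa using h1)]
        simp only [hk]
        rw [ins0_swap31988 D sp ℓ σ0 φ Ψ hΨ c b hcb (by rw [hs, h])
          (fun k => τ (Equiv.swap none (some c) k)) (fun k => x (Equiv.swap none (some c) k)), hs]
        ring
      · have h1 : cc31988 D sp s (some c) = 0 := by simp [cc31988, hs]
        rw [h1]; simp

lemma term_swap31988 {S : Type} [DecidableEq S] (D : Species S) {I : Type} [Fintype I]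
    [DecidableEq I] (sp : I → S) (ℓ : ℝ) (s : S) (σ0 : Fin D.g) (φ : E3 → ℝ) (Ψ : Wave D I)
    (hΨ : IsState D sp ℓ Ψ) (i j : Option I) (hij : i ≠ j) (h : i.elim s sp = j.elim s sp)
    (o : Option I) (τ : Option I → Fin D.g) (x : Option I → E3) :
    cc31988 D sp s o * ins0 D σ0 φ Ψ (fun k => τ (Equiv.swap i j (Equiv.swap none o k)))
      (fun k => x (Equiv.swap i j (Equiv.swap none o k))) =
    exch D (i.elim s sp) * (cc31988 D sp s (Equiv.swap i j o) *
      ins0 D σ0 φ Ψ (fun k => τ (Equiv.swap none (Equiv.swap i j o) k))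
        (fun k => x (Equiv.swap none (Equiv.swap i j o) k))) := by
  rcases i with _ | a
  · rcases j with _ | b
    · exact absurd rfl hij
    · simp only [Option.elim_none, Option.elim_some] at h ⊢
      exact term_B31988 D sp ℓ s σ0 φ Ψ hΨ b h.symm o τ x
  · rcases j with _ | b
    · simp only [Option.elim_none, Option.elim_some] at h ⊢
      have := term_B31988 D sp ℓ s σ0 φ Ψ hΨ a h o τ x
      rw [h]
      rw [Equiv.swap_comm (some a) none]
      exact this
    · simp only [Option.elim_some] at h ⊢
      exact term_A31988 D sp ℓ s σ0 φ Ψ hΨ a b (by simpa using hij) h o τ x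

def QQ31988 {I : Type} (ℓ : ℝ) (f : (Option I → E3) → ℂ) : Prop :=
  ∃ K : Set (Option I → E3), IsCompact K ∧ K ⊆ {x | ∀ o, x o ∈ cube ℓ} ∧ ∀ x, x ∉ K → f x = 0

lemma QQ_ins0_31988 {S : Type} [DecidableEq S] (D : Species S) {I : Type} [Fintype I]
    [DecidableEq I] (sp : I → S) (ℓ : ℝ) (σ0 : Fin D.g) (φ : E3 → ℝ)
    (hφc : HasCompactSupport φ) (hφs : tsupport φ ⊆ cube ℓ)
    (Ψ : Wave D I) (hΨ : IsState D sp ℓ Ψ) (τ : Option I → Fin D.g) :
    QQ31988 ℓ (ins0 D σ0 φ Ψ τ) := by
  refine ⟨(fun p : E3 × (I → E3) => fun o : Option I => o.elim p.1 p.2) ''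
    (tsupport φ ×ˢ tsupport (Ψ (fun i => τ (some i)))), ?_, ?_, ?_⟩
  · apply IsCompact.image
    · exact IsCompact.prod hφc (hΨ.compact _)
    · apply continuous_pi
      intro o
      rcases o with _ | i
      · exact continuous_fst
      · exact (continuous_apply i).comp continuous_snd
  · rintro x ⟨⟨z, y⟩, ⟨hz, hy⟩, rfl⟩ o
    rcases o with _ | i
    · exact hφs hz
    · exact hΨ.support _ hy i
  · intro x hx
    unfold ins0
    split_ifs with hc
    · by_contra hne
      apply hx
      refine ⟨(x none, fun i => x (some i)), ⟨?_, ?_⟩, ?_⟩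
      · apply subset_tsupport
        intro h0
        apply hne
        rw [h0]; simp
      · apply subset_tsupport
        intro h0
        apply hne
        rw [h0]; simp
      · funext o
        rcases o with _ | i <;> rfl
    · rfl

lemma QQ_perm31988 {I : Type} (ℓ : ℝ) (f : (Option I → E3) → ℂ) (hf : QQ31988 ℓ f)
    (π : Equiv.Perm (Option I)) : QQ31988 ℓ (fun x => f (fun k => x (π k))) := by
  obtain ⟨K, hK, hKc, hK0⟩ := hf
  refine ⟨(fun x : Option I → E3 => fun k => x (π.symm k)) '' K, ?_, ?_, ?_⟩
  · apply hK.image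
    apply continuous_pi
    intro o
    exact continuous_apply _
  · rintro x ⟨y, hy, rfl⟩ o
    exact hKc hy _
  · intro x hx
    apply hK0
    intro h
    apply hx
    refine ⟨_, h, ?_⟩
    funext k
    simp

lemma QQ_mul31988 {I : Type} (ℓ : ℝ) (f : (Option I → E3) → ℂ) (hf : QQ31988 ℓ f) (c : ℂ) :
    QQ31988 ℓ (fun x => c * f x) := by
  obtain ⟨K, hK, hKc, hK0⟩ := hf
  exact ⟨K, hK, hKc, fun x hx => by simp [hK0 x hx]⟩

lemma QQ_sum31988 {I J : Type} (ℓ : ℝ) (t : Finset J) (f : J → (Option I → E3) → ℂ)
    (hf : ∀ j, QQ31988 ℓ (f j)) : QQ31988 ℓ (fun x => ∑ j ∈ t, f j x) := by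
  choose K hK hKc hK0 using hf
  refine ⟨⋃ j ∈ t, K j, ?_, ?_, ?_⟩
  · exact t.isCompact_biUnion (fun j _ => hK j)
  · intro x hx
    simp only [Set.mem_iUnion] at hx
    obtain ⟨j, _, hj⟩ := hx
    exact hKc j hj
  · intro x hx
    simp only [Set.mem_iUnion, not_exists] at hx
    exact Finset.sum_eq_zero (fun j hj => hK0 j x (hx j hj))

lemma sm_ins0_31988 {S : Type} [DecidableEq S] (D : Species S) {I : Type} [Fintype I]
    [DecidableEq I] (sp : I → S) (ℓ : ℝ) (σ0 : Fin D.g) (φ : E3 → ℝ) (hφ : ContDiff ℝ SM φ)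
    (Ψ : Wave D I) (hΨ : IsState D sp ℓ Ψ) (τ : Option I → Fin D.g) :
    ContDiff ℝ SM (ins0 D σ0 φ Ψ τ) := by
  unfold ins0
  by_cases hc : τ none = σ0
  · simp only [hc, if_true]
    have h1 : ContDiff ℝ SM (fun x : Option I → E3 => φ (x none)) :=
      hφ.comp (contDiff_apply ℝ E3 none)
    have h2 : ContDiff ℝ SM (fun x : Option I → E3 => ((φ (x none) : ℝ) : ℂ)) :=
      Complex.ofRealCLM.contDiff.comp h1
    have h3 : ContDiff ℝ SM (fun x : Option I → E3 => Ψ (fun i => τ (some i)) (fun i => x (some i))) := by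
      apply (hΨ.smooth _).comp
      apply contDiff_pi.2
      intro i
      exact contDiff_apply ℝ E3 (some i)
    exact h2.mul h3
  · simp only [hc, if_false]
    exact contDiff_const

lemma spin_ins0_31988 {S : Type} [DecidableEq S] (D : Species S) {I : Type} [Fintype I]
    [DecidableEq I] (sp : I → S) (ℓ : ℝ) (s : S) (σ0 : Fin D.g) (hσ : σ0 ∈ D.spin s) (φ : E3 → ℝ)
    (Ψ : Wave D I) (hΨ : IsState D sp ℓ Ψ) (τ : Option I → Fin D.g) (x : Option I → E3)
    (h : ins0 D σ0 φ Ψ τ x ≠ 0) (o : Option I) : τ o ∈ D.spin (o.elim s sp) := by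
  unfold ins0 at h
  split_ifs at h with hc
  · rcases o with _ | i
    · simpa [hc] using hσ
    · apply hΨ.spin (fun i => τ (some i)) _ i
      intro h0
      apply h
      rw [h0]; simp
  · exact absurd rfl h

theorem ins_state {S : Type} [DecidableEq S] (D : Species S) {I : Type} [Fintype I]
    [DecidableEq I] (sp : I → S) (ℓ : ℝ) (s : S) (σ0 : Fin D.g) (hσ : σ0 ∈ D.spin s)
    (φ : E3 → ℝ) (hφ : ContDiff ℝ SM φ)
    (hφc : HasCompactSupport φ) (hφs : tsupport φ ⊆ cube ℓ)
    (Ψ : Wave D I) (hΨ : IsState D sp ℓ Ψ) :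
    IsState D (fun o : Option I => o.elim s sp) ℓ (ins1 D sp s σ0 φ Ψ) ∧
      (∀ t, t ≠ s → ∀ K : Set E3, (∀ τ x i, sp i = t → x i ∈ K → Ψ τ x = 0) →
        ∀ (τ : Option I → Fin D.g) (x : Option I → E3) (i : I), sp i = t → x (some i) ∈ K →
          ins1 D sp s σ0 φ Ψ τ x = 0) := by
  have hfun : ∀ τ, ins1 D sp s σ0 φ Ψ τ = fun x => ∑ o : Option I, cc31988 D sp s o *
      ins0 D σ0 φ Ψ (fun k => τ (Equiv.swap none o k)) (fun k => x (Equiv.swap none o k)) :=
    fun τ => funext fun x => ins1_eq31988 D sp s σ0 φ Ψ τ x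
  have hQ : ∀ τ, QQ31988 ℓ (ins1 D sp s σ0 φ Ψ τ) := by
    intro τ
    rw [hfun]
    apply QQ_sum31988
    intro o
    apply QQ_mul31988
    exact QQ_perm31988 ℓ _ (QQ_ins0_31988 D sp ℓ σ0 φ hφc hφs Ψ hΨ _) _
  refine ⟨⟨?_, ?_, ?_, ?_, ?_⟩, ?_⟩
  · intro τ
    rw [hfun]
    apply ContDiff.sum
    intro o _
    apply contDiff_const.mul
    apply (sm_ins0_31988 D sp ℓ σ0 φ hφ Ψ hΨ _).comp
    apply contDiff_pi.2
    intro k
    exact contDiff_apply ℝ E3 _
  · intro τ
    obtain ⟨K, hK, -, hK0⟩ := hQ τ
    exact HasCompactSupport.intro hK hK0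
  · intro τ
    obtain ⟨K, hK, hKc, hK0⟩ := hQ τ
    refine Set.Subset.trans (closure_minimal ?_ hK.isClosed) hKc
    intro x hx
    by_contra h
    exact hx (hK0 x h)
  · intro τ hτ o'
    have : ∃ x, ins1 D sp s σ0 φ Ψ τ x ≠ 0 := by
      by_contra h
      push Not at h
      exact hτ (funext h)
    obtain ⟨x, hx⟩ := this
    rw [ins1_eq31988] at hx
    obtain ⟨o, -, ho⟩ := Finset.exists_ne_zero_of_sum_ne_zero hx
    have hc := left_ne_zero_of_mul ho
    have h0 := right_ne_zero_of_mul ho
    have hsp : o.elim s sp = s := by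
      rcases o with _ | i
      · rfl
      · by_contra hne
        apply hc
        simp only [Option.elim_some] at hne
        simp [cc31988, hne]
    have h1 := spin_ins0_31988 D sp ℓ s σ0 hσ φ Ψ hΨ _ _ h0 (Equiv.swap none o o')
    simp only [Equiv.swap_apply_self] at h1
    have h2 : (Equiv.swap none o o').elim s sp = o'.elim s sp := by
      by_cases h3 : o' = none
      · subst h3
        rw [Equiv.swap_apply_left, hsp]; rfl
      · by_cases h4 : o' = o
        · subst h4
          rw [Equiv.swap_apply_right, hsp]; rfl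
        · rw [Equiv.swap_apply_of_ne_of_ne h3 h4]
    rw [h2] at h1
    exact h1
  · intro i j hij h τ x
    rw [ins1_eq31988, ins1_eq31988]
    rw [Finset.sum_congr rfl (fun o _ => term_swap31988 D sp ℓ s σ0 φ Ψ hΨ i j hij h o τ x),
      ← Finset.mul_sum]
    congr 1
    exact Equiv.sum_comp (Equiv.swap i j) (fun o => cc31988 D sp s o *
      ins0 D σ0 φ Ψ (fun k => τ (Equiv.swap none o k)) (fun k => x (Equiv.swap none o k)))
  · intro t hts K hK τ x i hit hxi
    rw [ins1_eq31988]
    apply Finset.sum_eq_zero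
    intro o _
    by_cases hc : cc31988 D sp s o = 0
    · rw [hc, zero_mul]
    · have hoi : some i ≠ o := by
        rintro rfl
        apply hc
        have : sp i ≠ s := by rw [hit]; exact hts
        simp [cc31988, this]
      have h0 : Equiv.swap none o (some i) = some i :=
        Equiv.swap_apply_of_ne_of_ne (by simp) hoi
      have h1 : ins0 D σ0 φ Ψ (fun k => τ (Equiv.swap none o k))
          (fun k => x (Equiv.swap none o k)) = 0 := by
        unfold ins0
        split_ifs with hcc
        · rw [hK _ (fun i => x (Equiv.swap none o (some i))) i hit (by rw [h0]; exact hxi), mul_zero]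
        · rfl
      rw [h1, mul_zero]

end Pool.Agent.Helper985.CP
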