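import Pool.Agent.Helper985.CP.M_ins0_num
import Pool.Agent.Helper985.CP.M_ins_disj
import Pool.Agent.Helper985.CP.M_ins_state
import Pool.Agent.Helper985.CP.Defs

set_option autoImplicit false

open MeasureTheory
open scoped Topology

namespace Pool.Agent.Helper985.CP





theorem sc753_nrm2 {S : Type} (D : Species S) {I : Type} [Fintype I] [DecidableEq I] (r : ℝ)
    (Ψ : Wave D I) : nrm2 D (fun τ x => (r : ℂ) * Ψ τ x) = r ^ 2 * nrm2 D Ψ := by
  unfold nrm2
  rw [Finset.mul_sum]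
  refine Finset.sum_congr rfl fun τ _ => ?_
  rw [← integral_const_mul]
  congr 1
  funext x
  rw [norm_mul, mul_pow, Complex.norm_real, Real.norm_eq_abs, sq_abs]

theorem sc753_mean {S : Type} (D : Species S) {I : Type} [Fintype I] [DecidableEq I] (sp : I → S)
    (r : ℝ) (Ψ : Wave D I) (u : E3 → ℝ) :
    mean D sp (fun τ x => (r : ℂ) * Ψ τ x) u = r ^ 2 * mean D sp Ψ u := by
  unfold mean
  rw [Finset.mul_sum]
  refine Finset.sum_congr rfl fun τ _ => ?_
  rw [← integral_const_mul]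
  congr 1
  funext x
  rw [norm_mul, mul_pow, Complex.norm_real, Real.norm_eq_abs, sq_abs]
  ring

theorem sc753_energy {S : Type} (D : Species S) {I : Type} [Fintype I] [DecidableEq I] (sp : I → S)
    (r : ℝ) (Ψ : Wave D I) (h : ∀ τ, ContDiff ℝ SM (Ψ τ)) :
    energy D sp (fun τ x => (r : ℂ) * Ψ τ x) = r ^ 2 * energy D sp Ψ := by
  unfold energy
  rw [Finset.mul_sum]
  refine Finset.sum_congr rfl fun τ _ => ?_
  rw [← integral_const_mul]
  congr 1
  funext x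
  have h1 : ∀ i, kin D sp i (fun x => (r : ℂ) * Ψ τ x) x = r ^ 2 * kin D sp i (Ψ τ) x := by
    intro i
    unfold kin
    have hd : DifferentiableAt ℝ (Ψ τ) x := ((h τ).differentiable (by simp)).differentiableAt
    rw [fderiv_const_mul hd]
    rw [← mul_assoc, mul_comm (r ^ 2), mul_assoc, Finset.mul_sum (s := Finset.univ) (a := r ^ 2)]
    congr 1
    refine Finset.sum_congr rfl fun k _ => ?_
    rw [ContinuousLinearMap.smul_apply, smul_eq_mul, norm_mul, mul_pow, Complex.norm_real,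
      Real.norm_eq_abs, sq_abs]
  simp only [h1]
  rw [norm_mul, mul_pow, Complex.norm_real, Real.norm_eq_abs, sq_abs, ← Finset.mul_sum]
  ring

theorem sc753_state {S : Type} (D : Species S) {I : Type} [Fintype I] [DecidableEq I] (sp : I → S)
    (ℓ : ℝ) (r : ℝ) (Ψ : Wave D I) (h : IsState D sp ℓ Ψ) :
    IsState D sp ℓ (fun τ x => (r : ℂ) * Ψ τ x) where
  smooth τ := contDiff_const.mul (h.smooth τ)
  compact τ := (h.compact τ).mul_left
  support τ := (tsupport_mul_subset_right (f := fun _ => (r : ℂ)) (g := Ψ τ)).trans (h.support τ)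
  spin τ hτ := by
    apply h.spin τ
    intro h0
    apply hτ
    funext x
    rw [h0]
    simp
  symm i j hij hs τ x := by
    have := h.symm i j hij hs τ x
    rw [this]
    ring

theorem insert_one {S : Type} (D : Species S) (hD : D.Valid) {I : Type} [Fintype I]
    [DecidableEq I] (sp : I → S) (ℓ : ℝ) (s : S) (φ : E3 → ℝ) (hφ : ContDiff ℝ SM φ)
    (hφc : HasCompactSupport φ) (hφs : tsupport φ ⊆ cube ℓ) (hφ1 : ∫ z, φ z ^ 2 = 1)
    (Ψ : Wave D I) (hΨ : IsState D sp ℓ Ψ)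
    (hv : ∀ τ x i, sp i = s → x i ∈ tsupport φ → Ψ τ x = 0) :
    ∃ Φ : Wave D (Option I), IsState D (fun o => o.elim s sp) ℓ Φ ∧ nrm2 D Φ = nrm2 D Ψ ∧
      energy D (fun o => o.elim s sp) Φ = energy D sp Ψ +
        (1 / (2 * D.mass s)) * grad2 φ * nrm2 D Ψ + D.charge s * mean D sp Ψ (pot φ) ∧
      (∀ u : E3 → ℝ, Continuous u → mean D (fun o => o.elim s sp) Φ u =
        mean D sp Ψ u + D.charge s * (∫ z, u z * φ z ^ 2) * nrm2 D Ψ) ∧
      (∀ t, t ≠ s → ∀ K : Set E3, (∀ τ x i, sp i = t → x i ∈ K → Ψ τ x = 0) →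
        ∀ (τ : Option I → Fin D.g) (x : Option I → E3) (i : I), sp i = t → x (some i) ∈ K →
          Φ τ x = 0) := by
  classical
  obtain ⟨σ0, hσ0⟩ := hD.spin_nonempty s
  obtain ⟨n, hn⟩ : ∃ n : ℝ, n = ((Finset.univ.filter (fun i => sp i = s)).card : ℝ) + 1 := ⟨_, rfl⟩
  have hnpos : 0 < n := by rw [hn]; positivity
  obtain ⟨h1, h2⟩ := ins_state D sp ℓ s σ0 hσ0 φ hφ hφc hφs Ψ hΨ
  obtain ⟨a1, a2, a3⟩ := ins0_num D sp ℓ s σ0 φ hφ hφc hφ1 Ψ hΨ
  obtain ⟨b1, b2, b3⟩ := ins_disj D sp ℓ s σ0 φ hφ hφc Ψ hΨ hv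
  rw [← hn] at b1 b2
  have hr : (1 / Real.sqrt n) ^ 2 * n = 1 := by
    rw [div_pow, one_pow, Real.sq_sqrt hnpos.le]
    field_simp
  refine ⟨fun τ x => ((1 / Real.sqrt n : ℝ) : ℂ) * ins1 D sp s σ0 φ Ψ τ x, ?_, ?_, ?_, ?_, ?_⟩
  · exact sc753_state D _ ℓ _ _ h1
  · rw [sc753_nrm2, b1, ← mul_assoc, hr, one_mul, a1]
  · rw [sc753_energy D _ _ _ h1.smooth, b2, ← mul_assoc, hr, one_mul, a2]
  · intro u hu
    rw [sc753_mean, b3 u hu, ← hn, ← mul_assoc, hr, one_mul, a3 u hu]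
  · intro t ht K hK τ x i hi hx
    show _ * _ = _
    rw [h2 t ht K hK τ x i hi hx, mul_zero]

end Pool.Agent.Helper985.CP
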