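import Pool.Agent.Helper985.CP.M_exists_bump
import Pool.Agent.Helper985.CP.M_hole
import Pool.Agent.Helper985.CP.M_insert_one
import Pool.Agent.Helper985.CP.M_nrm2_pos
import Pool.Agent.Helper985.CP.M_relabel_num
import Pool.Agent.Helper985.CP.M_relabel_state
import Pool.Agent.Helper985.CP.M_stable_any
import Pool.Agent.Helper985.CP.Defs

set_option autoImplicit false

open MeasureTheory
open scoped Topology

namespace Pool.Agent.Helper985.CP









theorem states_nonempty_aux {S : Type} [Fintype S] [DecidableEq S] (D : Species S) (hD : D.Valid)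
    (hst : HStable D) (ℓ : ℝ) (hℓ : 0 < ℓ) :
    ∀ (n : ℕ) {I : Type} [Fintype I] [DecidableEq I] (sp : I → S), Fintype.card I = n →
      ∃ Ψ : Wave D I, IsState D sp ℓ Ψ ∧ Ψ ≠ 0 := by
  intro n
  induction n with
  | zero =>
    intro I _ _ sp hI
    have hE : IsEmpty I := Fintype.card_eq_zero_iff.mp hI
    refine ⟨fun _ _ => 1, ⟨fun τ => contDiff_const, fun τ => ?_, fun τ => ?_, ?_, ?_⟩, ?_⟩
    · exact HasCompactSupport.of_compactSpace _
    · intro x _ i
      exact isEmptyElim i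
    · intro τ _ i
      exact isEmptyElim i
    · intro i
      exact isEmptyElim i
    · intro h
      have h1 := congrFun (congrFun h (fun i => isEmptyElim i)) (fun i => isEmptyElim i)
      exact one_ne_zero h1
  | succ n ih =>
    intro I _ _ sp hI
    have hc : Fintype.card (Option (Fin n)) = Fintype.card I := by
      rw [hI, Fintype.card_option, Fintype.card_fin]
    let e : Option (Fin n) ≃ I := Fintype.equivOfCardEq hc
    let sp' : Fin n → S := fun i => sp (e (some i))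
    obtain ⟨Ψ0, hΨ0, hne⟩ := ih sp' (Fintype.card_fin n)
    have hpos := nrm2_pos D sp' ℓ Ψ0 hΨ0 hne
    obtain ⟨A, hA⟩ := hst
    have hn : (0 : ℝ) < (n : ℝ) + 1 := by positivity
    set r : ℝ := ℓ / (16 * ((n : ℝ) + 1)) with hr
    have hr0 : 0 < r := by positivity
    have h1 : r * (16 * ((n : ℝ) + 1)) = ℓ := by
      rw [hr]; field_simp
    have h8 : 8 * r ≤ ℓ := by
      have : 0 ≤ r * (n : ℝ) := by positivity
      nlinarith
    have h3 : (Fintype.card (Fin n) : ℝ) * (1024 * r ^ 3) ≤ ℓ ^ 3 := by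
      rw [Fintype.card_fin, ← h1]
      have hn0 : (0 : ℝ) ≤ (n : ℝ) := Nat.cast_nonneg n
      have h4 : (r * (16 * ((n : ℝ) + 1))) ^ 3 = 4096 * ((n : ℝ) + 1) ^ 3 * r ^ 3 := by ring
      rw [h4]
      have h5 : (n : ℝ) * (1024 * r ^ 3) = (1024 * (n : ℝ)) * r ^ 3 := by ring
      rw [h5]
      apply mul_le_mul_of_nonneg_right _ (by positivity)
      nlinarith [pow_nonneg hn0 3, pow_nonneg hn0 2]
    obtain ⟨C, hC, hh⟩ := hole D hD r hr0
    obtain ⟨x0, hball, Φ, hΦ, hvan, hhalf, -, -⟩ := hh sp' ℓ h8 h3 Ψ0 hΨ0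
      (-A * (Fintype.card (Fin n) : ℝ)) (fun Φ hΦ => stable_any D A hA sp' ℓ hℓ Φ hΦ)
    obtain ⟨T, hT, hb⟩ := exists_bump r hr0
    obtain ⟨φ, hφ, hφc, hφs, hφ1, -⟩ := hb x0
    obtain ⟨Φ1, hΦ1, hn1, -⟩ := insert_one D hD sp' ℓ (sp (e none)) φ hφ hφc (hφs.trans hball) hφ1
      Φ hΦ (fun τ x i _ hx => hvan τ x i (hφs hx))
    have hsp : ∀ o : Option (Fin n), sp (e o) = o.elim (sp (e none)) sp' := by
      intro o
      cases o with
      | none => rfl
      | some i => rfl
    have hst2 := relabel_state D e (fun o => o.elim (sp (e none)) sp') sp hsp ℓ Φ1 hΦ1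
    have hnum := (relabel_num D e (fun o => o.elim (sp (e none)) sp') sp hsp Φ1).1
    refine ⟨relab D e Φ1, hst2, ?_⟩
    intro h0
    rw [h0] at hnum
    have hz : nrm2 D (0 : Wave D I) = 0 := by
      simp [nrm2]
    rw [hz, hn1] at hnum
    linarith

theorem states_nonempty {S : Type} [Fintype S] [DecidableEq S] (D : Species S) (hD : D.Valid)
    (hst : HStable D) {I : Type} [Fintype I] [DecidableEq I] (sp : I → S) (ℓ : ℝ)
    (hℓ : 0 < ℓ) : (energies D sp ℓ).Nonempty := by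
  obtain ⟨Ψ, hΨ, h0⟩ := states_nonempty_aux D hD hst ℓ hℓ (Fintype.card I) sp rfl
  exact ⟨_, Ψ, hΨ, h0, rfl⟩

end Pool.Agent.Helper985.CP
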