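import Pool.Agent.Helper985.CP.M_nrm2_pos
import Pool.Agent.Helper985.CP.M_stable_any
import Pool.Agent.Helper985.CP.M_states_nonempty
import Pool.Agent.Helper985.CP.Defs

set_option autoImplicit false

open MeasureTheory
open scoped Topology

namespace Pool.Agent.Helper985.CP





theorem energies_basic_nrm0 {S : Type} (D : Species S) {I : Type} [Fintype I] [DecidableEq I] :
    nrm2 D (0 : Wave D I) = 0 := by
  unfold nrm2
  simp

theorem energies_basic_en0 {S : Type} (D : Species S) {I : Type} [Fintype I] [DecidableEq I]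
    (sp : I → S) : energy D sp (0 : Wave D I) = 0 := by
  unfold energy
  refine Finset.sum_eq_zero (fun τ _ => ?_)
  have h : ∀ x : I → E3, ((∑ i, kin D sp i ((0 : Wave D I) τ) x) +
      coul D sp x * ‖(0 : Wave D I) τ x‖ ^ 2) = 0 := by
    intro x
    have h1 : ∀ i, kin D sp i ((0 : Wave D I) τ) x = 0 := by
      intro i
      unfold kin
      have h2 : fderiv ℝ ((0 : Wave D I) τ) x = 0 := by
        have : ((0 : Wave D I) τ) = fun _ => (0 : ℂ) := rfl
        rw [this]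
        exact fderiv_const_apply 0
      rw [h2]
      simp
    rw [Finset.sum_eq_zero (fun i _ => h1 i)]
    simp
  simp only [h, integral_zero]

theorem energies_basic {S : Type} [Fintype S] [DecidableEq S] (D : Species S) (hD : D.Valid)
    (hst : HStable D) {I : Type} [Fintype I] [DecidableEq I] (sp : I → S) (ℓ : ℝ)
    (hℓ : 0 < ℓ) :
    (energies D sp ℓ).Nonempty ∧ BddBelow (energies D sp ℓ) ∧
    (∀ Φ, IsState D sp ℓ Φ → sInf (energies D sp ℓ) * nrm2 D Φ ≤ energy D sp Φ) ∧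
    (∀ δ : ℝ, 0 < δ → ∃ Φ, IsState D sp ℓ Φ ∧ 0 < nrm2 D Φ ∧
      energy D sp Φ ≤ (sInf (energies D sp ℓ) + δ) * nrm2 D Φ) := by
  have hb : BddBelow (energies D sp ℓ) := by
    obtain ⟨A, hA⟩ := hst
    refine ⟨-A * (Fintype.card I : ℝ), ?_⟩
    rintro e ⟨Ψ, hΨ, h0, rfl⟩
    rw [le_div_iff₀ (nrm2_pos D sp ℓ Ψ hΨ h0)]
    exact stable_any D A hA sp ℓ hℓ Ψ hΨ
  have hne := states_nonempty D hD hst sp ℓ hℓ
  refine ⟨hne, hb, ?_, ?_⟩
  · intro Φ hΦ
    by_cases h0 : Φ = 0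
    · rw [h0, energies_basic_nrm0, energies_basic_en0, mul_zero]
    · have h1 : sInf (energies D sp ℓ) ≤ energy D sp Φ / nrm2 D Φ := csInf_le hb ⟨Φ, hΦ, h0, rfl⟩
      rwa [le_div_iff₀ (nrm2_pos D sp ℓ Φ hΦ h0)] at h1
  · intro δ hδ
    obtain ⟨e, ⟨Φ, hΦ, h0, rfl⟩, h1⟩ := exists_lt_of_csInf_lt hne (lt_add_of_pos_right (sInf (energies D sp ℓ)) hδ)
    refine ⟨Φ, hΦ, nrm2_pos D sp ℓ Φ hΦ h0, ?_⟩
    rw [div_lt_iff₀ (nrm2_pos D sp ℓ Φ hΦ h0)] at h1
    exact h1.le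


end Pool.Agent.Helper985.CP
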