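import Pool.Agent.Helper985.CP.M_relabel_num
import Pool.Agent.Helper985.CP.M_relabel_state
import Pool.Agent.Helper985.CP.Defs

set_option autoImplicit false

open MeasureTheory
open scoped Topology

namespace Pool.Agent.Helper985.CP




theorem energies_relabel {S : Type} (D : Species S) {I J : Type} [Fintype I] [DecidableEq I]
    [Fintype J] [DecidableEq J] (e : I ≃ J) (sp : I → S) (sp' : J → S)
    (h : ∀ i, sp' (e i) = sp i) (ℓ : ℝ) : energies D sp ℓ = energies D sp' ℓ := by
  have key : ∀ {I J : Type} [Fintype I] [DecidableEq I] [Fintype J] [DecidableEq J] (e : I ≃ J)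
      (sp : I → S) (sp' : J → S) (h : ∀ i, sp' (e i) = sp i),
      energies D sp ℓ ⊆ energies D sp' ℓ := by
    intro I J _ _ _ _ e sp sp' h x hx
    obtain ⟨Ψ, hΨ, hne, hx⟩ := hx
    obtain ⟨h1, h2, -, -⟩ := relabel_num D e sp sp' h Ψ
    refine ⟨relab D e Ψ, relabel_state D e sp sp' h ℓ Ψ hΨ, ?_, ?_⟩
    · intro h0
      apply hne
      funext τ y
      have h3 := congrFun (congrFun h0 (fun j => τ (e.symm j))) (fun j => y (e.symm j))
      simpa [relab] using h3
    · rw [h1, h2]
      exact hx
  refine Set.Subset.antisymm (key e sp sp' h) (key e.symm sp' sp ?_)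
  intro j
  have := h (e.symm j)
  rw [Equiv.apply_symm_apply] at this
  exact this.symm

end Pool.Agent.Helper985.CP
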