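import Pool.Agent.Helper985.CP.Defs

set_option autoImplicit false

open MeasureTheory
open scoped Topology

namespace Pool.Agent.Helper985.CP


/-- a normalised bump in a ball -/
theorem exists_bump (r : ℝ) (hr : 0 < r) : ∃ T : ℝ, 0 < T ∧ ∀ x0 : E3, ∃ φ : E3 → ℝ,
    ContDiff ℝ SM φ ∧ HasCompactSupport φ ∧ tsupport φ ⊆ Metric.closedBall x0 r ∧
    ∫ z, φ z ^ 2 = 1 ∧ grad2 φ ≤ T := by
  classical
  let b : ContDiffBump (0 : E3) := ⟨r / 4, r / 2, by linarith, by linarith⟩
  have hbc : Continuous (fun z => b z) := b.continuous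
  have hbs : HasCompactSupport (fun z => b z) := b.hasCompactSupport
  have hb2c : Continuous (fun z => b z ^ 2) := hbc.pow 2
  have hb2s : HasCompactSupport (fun z => b z ^ 2) := by
    have h1 : (fun z => b z ^ 2) = (fun z => b z * b z) := by
      funext z; ring
    rw [h1]
    exact hbs.mul_left
  have hcpos : 0 < ∫ z, b z ^ 2 := by
    apply hb2c.integral_pos_of_hasCompactSupport_nonneg_nonzero hb2s (x := 0)
    · intro z
      positivity
    · have h1 : b (0 : E3) = 1 := by
        apply b.one_of_mem_closedBall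
        exact Metric.mem_closedBall_self (by change (0 : ℝ) ≤ r / 4; linarith)
      rw [h1]
      norm_num
  set c : ℝ := ∫ z, b z ^ 2 with hc
  set φ₀ : E3 → ℝ := fun z => (Real.sqrt c)⁻¹ * b z with hφ₀
  have hcd : ContDiff ℝ SM φ₀ := contDiff_const.mul b.contDiff
  have hint : ∫ z, φ₀ z ^ 2 = 1 := by
    have h1 : ∀ z, φ₀ z ^ 2 = c⁻¹ * b z ^ 2 := by
      intro z
      rw [hφ₀]
      simp only [mul_pow, inv_pow, Real.sq_sqrt hcpos.le]
    simp only [h1]
    rw [integral_const_mul, ← hc]
    exact inv_mul_cancel₀ hcpos.ne'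
  have hg0 : 0 ≤ grad2 φ₀ := by
    unfold grad2
    apply integral_nonneg
    intro z
    exact Finset.sum_nonneg (fun k _ => sq_nonneg _)
  have hsupp : ∀ z, φ₀ z ≠ 0 → z ∈ Metric.ball (0 : E3) (r / 2) := by
    intro z hz
    have h1 : b z ≠ 0 := by
      intro h2
      apply hz
      rw [hφ₀]
      simp [h2]
    have h2 : z ∈ Function.support (fun z => b z) := h1
    have h3 := b.support_eq
    rw [show (fun z => b z) = (b : E3 → ℝ) from rfl, h3] at h2
    exact h2
  refine ⟨grad2 φ₀ + 1, by linarith, ?_⟩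
  intro x0
  have hts : tsupport (fun z => φ₀ (z - x0)) ⊆ Metric.closedBall x0 r := by
    apply closure_minimal _ Metric.isClosed_closedBall
    intro z hz
    have h1 := hsupp (z - x0) hz
    rw [mem_ball_zero_iff] at h1
    rw [Metric.mem_closedBall, dist_eq_norm]
    linarith
  refine ⟨fun z => φ₀ (z - x0), ?_, ?_, hts, ?_, ?_⟩
  · exact hcd.comp (contDiff_id.sub contDiff_const)
  · exact IsCompact.of_isClosed_subset (isCompact_closedBall x0 r) (isClosed_tsupport _) hts
  · rw [integral_sub_right_eq_self (fun z => φ₀ z ^ 2) x0]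
    exact hint
  · have h1 : grad2 (fun z => φ₀ (z - x0)) = grad2 φ₀ := by
      unfold grad2
      simp only [fderiv_comp_sub]
      exact integral_sub_right_eq_self (fun z => ∑ k : Fin 3,
        (fderiv ℝ φ₀ z (EuclideanSpace.single k (1 : ℝ))) ^ 2) x0
    rw [h1]
    linarith

end Pool.Agent.Helper985.CP
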