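import Pool.Agent.Helper985.CP.M_move_none
import Pool.Agent.Helper985.CP.M_relabel_num
import Pool.Agent.Helper985.CP.M_relabel_state
import Pool.Agent.Helper985.CP.Defs

set_option autoImplicit false

open MeasureTheory
open scoped Topology

namespace Pool.Agent.Helper985.CP





theorem move_any {S : Type} (D : Species S) (hD : D.Valid) {I : Type} [Fintype I]
    [DecidableEq I] (sp : I → S) (ℓ : ℝ) (E : ℝ)
    (hE : ∀ Φ, IsState D sp ℓ Φ → E * nrm2 D Φ ≤ energy D sp Φ) (φ : E3 → ℝ)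
    (hφ : ContDiff ℝ SM φ) (hφc : HasCompactSupport φ) (hφs : tsupport φ ⊆ cube ℓ)
    (hφ1 : ∫ z, φ z ^ 2 = 1) (Ψ : Wave D I) (hΨ : IsState D sp ℓ Ψ)
    (hv : ∀ τ x i, x i ∈ tsupport φ → Ψ τ x = 0) (i : I) :
    pe D sp i Ψ ≤ D.charge (sp i) * mean D sp Ψ (pot φ) +
      (energy D sp Ψ - E * nrm2 D Ψ) +
      (1 / (2 * D.mass (sp i))) * grad2 φ * nrm2 D Ψ := by
  classical
  let e : I ≃ Option {j // j ≠ i} := (Equiv.optionSubtypeNe i).symm
  have hei : e i = none := by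
    simp [e]
  let sp' : Option {j // j ≠ i} → S := fun o => sp (e.symm o)
  have h : ∀ j, sp' (e j) = sp j := fun j => by simp [sp']
  have h' : ∀ o, sp (e.symm o) = sp' o := fun o => rfl
  obtain ⟨r1, r2, r3, r4⟩ := relabel_num D e sp sp' h Ψ
  have hst := relabel_state D e sp sp' h ℓ Ψ hΨ
  have hE' : ∀ Φ, IsState D sp' ℓ Φ → E * nrm2 D Φ ≤ energy D sp' Φ := by
    intro Φ hΦ
    obtain ⟨q1, q2, -, -⟩ := relabel_num D e.symm sp' sp h' Φ
    have h1 := hE _ (relabel_state D e.symm sp' sp h' ℓ Φ hΦ)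
    rw [q1, q2] at h1
    exact h1
  have hv' : ∀ τ x j, x j ∈ tsupport φ → relab D e Ψ τ x = 0 := by
    intro τ x j hx
    refine hv _ _ (e.symm j) ?_
    simpa using hx
  have key := move_none D hD sp' ℓ E hE' φ hφ hφc hφs hφ1 (relab D e Ψ) hst hv'
  have hs : sp' none = sp i := by rw [← hei]; exact h i
  rw [← hei, r3 i, hei, r4 (pot φ), r2, r1, hs] at key
  exact key

end Pool.Agent.Helper985.CP
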