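import Pool.Agent.Helper985.CP.Defs

set_option autoImplicit false

open MeasureTheory
open scoped Topology

namespace Pool.Agent.Helper985.CP


theorem slice_state_swap {I : Type} [DecidableEq I] {α : Type} (i j : I) (a : α) (f : I → α) :
    (fun o : Option I => o.elim a (fun k => f (Equiv.swap i j k))) =
      fun o : Option I => (Equiv.swap (some i) (some j) o).elim a f := by
  funext o
  cases o with
  | none =>
    rw [Equiv.swap_apply_of_ne_of_ne (by simp) (by simp)]
    rfl
  | some k =>
    by_cases h1 : k = i
    · subst h1; simp
    by_cases h2 : k = j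
    · subst h2; simp
    rw [Equiv.swap_apply_of_ne_of_ne (by simpa using h1) (by simpa using h2)]
    simp [Equiv.swap_apply_of_ne_of_ne h1 h2]


theorem slice_state {S : Type} (D : Species S) {I : Type} [Fintype I] [DecidableEq I]
    (sp : Option I → S) (ℓ : ℝ) (Φ : Wave D (Option I)) (hΦ : IsState D sp ℓ Φ) (σ : Fin D.g)
    (z : E3) : IsState D (fun i => sp (some i)) ℓ (slice D σ z Φ) := by
  set e : (I → E3) → (Option I → E3) := fun x o => o.elim z x with he
  have hec : Continuous e := by
    refine continuous_pi fun o => ?_
    cases o with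
    | none => exact continuous_const
    | some i => exact continuous_apply i
  have hes : ContDiff ℝ SM e := by
    rw [contDiff_pi]
    intro o
    cases o with
    | none => exact contDiff_const
    | some i => exact contDiff_apply ℝ E3 i
  have hemb : Topology.IsClosedEmbedding e := by
    refine Function.LeftInverse.isClosedEmbedding (f := fun y i => y (some i)) ?_ ?_ hec
    · intro x; rfl
    · exact continuous_pi fun i => continuous_apply (some i)
  have hcomp : ∀ τ, slice D σ z Φ τ = Φ (fun o => o.elim σ τ) ∘ e := fun τ => rfl
  refine ⟨?_, ?_, ?_, ?_, ?_⟩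
  · intro τ
    rw [hcomp]
    exact (hΦ.smooth _).comp hes
  · intro τ
    rw [hcomp]
    exact (hΦ.compact _).comp_isClosedEmbedding hemb
  · intro τ x hx i
    rw [hcomp] at hx
    have h1 := tsupport_comp_subset_preimage (Φ (fun o => o.elim σ τ)) hec hx
    exact hΦ.support _ h1 (some i)
  · intro τ hτ i
    have h1 : Φ (fun o => o.elim σ τ) ≠ 0 := by
      intro h0
      apply hτ
      rw [hcomp, h0]
      rfl
    exact hΦ.spin _ h1 (some i)
  · intro i j hij hsp τ x
    have h1 := hΦ.symm (some i) (some j) (by simpa using hij) hsp (fun o => o.elim σ τ)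
      (fun o => o.elim z x)
    rw [← slice_state_swap, ← slice_state_swap] at h1
    exact h1
end Pool.Agent.Helper985.CP
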