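import Pool.Agent.Helper985.CP.M_int_state
import Pool.Agent.Helper985.CP.M_slice_state
import Pool.Agent.Helper985.CP.Defs

set_option autoImplicit false

open MeasureTheory
open scoped Topology

namespace Pool.Agent.Helper985.CP




theorem sb_fub {I : Type} [Fintype I] (G : (Option I → E3) → ℝ) (hG : Integrable G) :
    Integrable (fun z : E3 => ∫ x : I → E3, G (fun o => o.elim z x)) ∧
      ∫ z : E3, ∫ x : I → E3, G (fun o => o.elim z x) = ∫ x', G x' := by
  have hmp : MeasurePreserving (MeasurableEquiv.piOptionEquivProd (fun _ : Option I => E3)).symm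
      ((volume : Measure (I → E3)).prod (volume : Measure E3)) (volume : Measure (Option I → E3)) :=
    ⟨MeasurableEquiv.measurable _,
      Measure.pi_map_piOptionEquivProd (fun _ : Option I => (volume : Measure E3))⟩
  have he : ∀ p : (I → E3) × E3,
      (MeasurableEquiv.piOptionEquivProd (fun _ : Option I => E3)).symm p =
        fun o => o.elim p.2 p.1 := by
    intro p
    funext o
    cases o <;> rfl
  have h1 : Integrable (fun p : (I → E3) × E3 => G (fun o => o.elim p.2 p.1))
      ((volume : Measure (I → E3)).prod (volume : Measure E3)) := by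
    have h := (hmp.integrable_comp_emb (MeasurableEquiv.measurableEmbedding _)).2 hG
    refine h.congr (Filter.Eventually.of_forall fun p => ?_)
    simp only [Function.comp]
    rw [he p]
  refine ⟨h1.integral_prod_right, ?_⟩
  rw [← hmp.integral_comp (MeasurableEquiv.measurableEmbedding _) G]
  have h2 : (fun p : (I → E3) × E3 =>
      G ((MeasurableEquiv.piOptionEquivProd (fun _ : Option I => E3)).symm p)) =
      fun p => G (fun o => o.elim p.2 p.1) := by
    funext p
    rw [he p]
  rw [h2]
  exact (integral_prod_symm _ h1).symm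

theorem sb_sum {I : Type} [Fintype I] [DecidableEq I] {g : ℕ}
    (F : (Option I → Fin g) → (Option I → E3) → ℝ)
    (hF : ∀ τ', Integrable (F τ')) :
    (∀ σ : Fin g, Integrable (fun z : E3 => ∑ τ : I → Fin g, ∫ x : I → E3,
      F (fun o => o.elim σ τ) (fun o => o.elim z x))) ∧
    ∑ σ : Fin g, ∫ z : E3, ∑ τ : I → Fin g, ∫ x : I → E3,
      F (fun o => o.elim σ τ) (fun o => o.elim z x) = ∑ τ', ∫ x', F τ' x' := by
  constructor
  · intro σ
    exact integrable_finsetSum _ (fun τ _ => (sb_fub (F (fun o => o.elim σ τ)) (hF _)).1)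
  · have h1 : ∀ σ : Fin g, ∫ z : E3, ∑ τ : I → Fin g, ∫ x : I → E3,
        F (fun o => o.elim σ τ) (fun o => o.elim z x) =
        ∑ τ : I → Fin g, ∫ x', F (fun o => o.elim σ τ) x' := by
      intro σ
      rw [integral_finsetSum _ (fun τ _ => (sb_fub (F (fun o => o.elim σ τ)) (hF _)).1)]
      exact Finset.sum_congr rfl (fun τ _ => (sb_fub (F (fun o => o.elim σ τ)) (hF _)).2)
    simp only [h1]
    rw [← Fintype.sum_prod_type' (fun (σ : Fin g) (τ : I → Fin g) =>
      ∫ x', F (fun o => o.elim σ τ) x')]
    refine Fintype.sum_equiv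
      (Equiv.piOptionEquivProd (β := fun _ : Option I => Fin g)).symm _ _ (fun p => ?_)
    have e : (Equiv.piOptionEquivProd (β := fun _ : Option I => Fin g)).symm p =
        fun o => o.elim p.1 p.2 := by
      funext o
      cases o <;> rfl
    rw [e]

theorem slice_basic {S : Type} (D : Species S) {I : Type} [Fintype I] [DecidableEq I]
    (sp : Option I → S) (ℓ : ℝ) (Φ : Wave D (Option I)) (hΦ : IsState D sp ℓ Φ) :
    ((∀ σ, Integrable (fun z => nrm2 D (slice D σ z Φ))) ∧
      ∑ σ, ∫ z, nrm2 D (slice D σ z Φ) = nrm2 D Φ) ∧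
    (∀ u : E3 → ℝ, Continuous u →
      (∀ σ, Integrable (fun z => mean D (fun i => sp (some i)) (slice D σ z Φ) u)) ∧
      ∑ σ, ∫ z, mean D (fun i => sp (some i)) (slice D σ z Φ) u = mean D sp Φ u -
        ∑ τ, ∫ x, D.charge (sp none) * u (x none) * ‖Φ τ x‖ ^ 2) := by
  constructor
  · exact sb_sum (fun τ' x' => ‖Φ τ' x'‖ ^ 2) (fun τ' => (int_state D sp ℓ Φ hΦ τ').1)
  · intro u hu
    have hA : ∀ τ', Integrable (fun x : Option I → E3 =>
        (∑ i, D.charge (sp i) * u (x i)) * ‖Φ τ' x‖ ^ 2) :=
      fun τ' => (int_state D sp ℓ Φ hΦ τ').2.2.2.2 u hu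
    have hB : ∀ τ', Integrable (fun x : Option I → E3 =>
        D.charge (sp none) * u (x none) * ‖Φ τ' x‖ ^ 2) := by
      intro τ'
      have hc : Continuous (Φ τ') := (hΦ.smooth τ').continuous
      apply Continuous.integrable_of_hasCompactSupport
      · have h1 : Continuous (fun x : Option I → E3 => u (x none)) :=
          hu.comp (continuous_apply none)
        exact (continuous_const.mul h1).mul (hc.norm.pow 2)
      · refine (hΦ.compact τ').mono ?_
        intro x hx
        rw [Function.mem_support] at hx ⊢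
        intro h0
        apply hx
        rw [h0, norm_zero]
        ring
    have hC : ∀ τ', (fun x : Option I → E3 =>
        (∑ i : I, D.charge (sp (some i)) * u (x (some i))) * ‖Φ τ' x‖ ^ 2) =
        fun x => (∑ i, D.charge (sp i) * u (x i)) * ‖Φ τ' x‖ ^ 2 -
          D.charge (sp none) * u (x none) * ‖Φ τ' x‖ ^ 2 := by
      intro τ'
      funext x
      rw [Fintype.sum_option]
      ring
    have hF : ∀ τ', Integrable (fun x : Option I → E3 =>
        (∑ i : I, D.charge (sp (some i)) * u (x (some i))) * ‖Φ τ' x‖ ^ 2) := by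
      intro τ'
      rw [hC τ']
      exact (hA τ').sub (hB τ')
    obtain ⟨h1, h2⟩ := sb_sum (fun (τ' : Option I → Fin D.g) (x' : Option I → E3) =>
      (∑ i : I, D.charge (sp (some i)) * u (x' (some i))) * ‖Φ τ' x'‖ ^ 2) hF
    refine ⟨h1, ?_⟩
    have h3 : ∑ σ, ∫ z, mean D (fun i => sp (some i)) (slice D σ z Φ) u =
        ∑ τ', ∫ x' : Option I → E3,
          (∑ i : I, D.charge (sp (some i)) * u (x' (some i))) * ‖Φ τ' x'‖ ^ 2 := h2
    rw [h3]
    unfold mean
    rw [← Finset.sum_sub_distrib]
    refine Finset.sum_congr rfl (fun τ' _ => ?_)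
    rw [← integral_sub (hA τ') (hB τ'), ← hC τ']

end Pool.Agent.Helper985.CP
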