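import Pool.Agent.Helper985.CP.M_int_coul
import Pool.Agent.Helper985.CP.M_int_state
import Pool.Agent.Helper985.CP.M_slice_state
import Pool.Agent.Helper985.CP.Defs

set_option autoImplicit false

open MeasureTheory
open scoped Topology

namespace Pool.Agent.Helper985.CP





/-- insertion of the value at `none` -/
def slice_energy_ins {I A : Type} (z : A) (x : I → A) : Option I → A := fun o => o.elim z x

theorem slice_energy_mp {I : Type} [Fintype I] :
    ∃ e : E3 × (I → E3) ≃ᵐ (Option I → E3), (∀ p, e p = slice_energy_ins p.1 p.2) ∧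
      MeasurePreserving e (volume.prod volume) volume := by
  let e' : (I → E3) × E3 ≃ᵐ (Option I → E3) :=
    (MeasurableEquiv.piOptionEquivProd (fun _ : Option I => E3)).symm
  refine ⟨MeasurableEquiv.prodComm.trans e', ?_, ?_⟩
  · rintro ⟨z, x⟩
    funext o
    cases o <;> rfl
  · have h1 : MeasurePreserving e' (volume.prod volume) volume := by
      refine ⟨e'.measurable, ?_⟩
      have := Measure.pi_map_piOptionEquivProd (fun _ : Option I => (volume : Measure E3))
      rw [volume_pi, volume_pi]
      exact this
    have h2 : MeasurePreserving (Prod.swap : E3 × (I → E3) → (I → E3) × E3)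
        (volume.prod volume) (volume.prod volume) := Measure.measurePreserving_swap
    exact h1.comp h2

theorem slice_energy_fub {I : Type} [Fintype I] (F : (Option I → E3) → ℝ) (hF : Integrable F) :
    Integrable (fun z => ∫ x, F (slice_energy_ins z x)) ∧
      ∫ z, ∫ x, F (slice_energy_ins z x) = ∫ X, F X := by
  obtain ⟨e, he, hmp⟩ := slice_energy_mp (I := I)
  have h1 : Integrable (fun p : E3 × (I → E3) => F (e p)) (volume.prod volume) :=
    (hmp.integrable_comp_emb e.measurableEmbedding).2 hF
  have e1 : (fun p : E3 × (I → E3) => F (e p)) = fun p => F (slice_energy_ins p.1 p.2) := by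
    funext p; rw [he]
  have h2 := h1
  rw [e1] at h2
  refine ⟨h2.integral_prod_left, ?_⟩
  rw [← hmp.integral_comp e.measurableEmbedding F, ← integral_prod _ h2]
  exact integral_congr_ae (Filter.Eventually.of_forall fun p => by
    show F (slice_energy_ins p.1 p.2) = F (e p)
    rw [he])

theorem slice_energy_fderiv {I : Type} [Fintype I] [DecidableEq I] (u : (Option I → E3) → ℂ)
    (hu : Differentiable ℝ u) (z : E3) (x : I → E3) (i : I) (v : E3) :
    fderiv ℝ (fun x : I → E3 => u (slice_energy_ins z x)) x (Pi.single i v) =
      fderiv ℝ u (slice_energy_ins z x) (Pi.single (some i) v) := by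
  let φ' : Option I → ((I → E3) →L[ℝ] E3) := fun o =>
    o.elim 0 (fun i => ContinuousLinearMap.proj (R := ℝ) (φ := fun _ : I => E3) i)
  have h1 : HasFDerivAt (fun x : I → E3 => (slice_energy_ins z x : Option I → E3))
      (ContinuousLinearMap.pi φ') x := by
    have := (hasFDerivAt_pi (𝕜 := ℝ) (φ := fun (o : Option I) (x : I → E3) => slice_energy_ins z x o)
      (φ' := φ') (x := x)).2 (fun o => ?_)
    · exact this
    · cases o with
      | none => exact hasFDerivAt_const z x
      | some i => exact (ContinuousLinearMap.proj (R := ℝ) (φ := fun _ : I => E3) i).hasFDerivAt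
  have h2 : HasFDerivAt (fun x : I → E3 => u (slice_energy_ins z x))
      ((fderiv ℝ u (slice_energy_ins z x)).comp (ContinuousLinearMap.pi φ')) x :=
    (hu (slice_energy_ins z x)).hasFDerivAt.comp x h1
  rw [h2.fderiv, ContinuousLinearMap.comp_apply]
  congr 1
  funext o
  rw [ContinuousLinearMap.pi_apply]
  cases o with
  | none =>
    show (0 : (I → E3) →L[ℝ] E3) (Pi.single i v) = _
    rw [Pi.single_eq_of_ne (by simp)]
    rfl
  | some j =>
    show (Pi.single i v : I → E3) j = _
    by_cases h : j = i
    · subst h
      rw [Pi.single_eq_same, Pi.single_eq_same]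
    · rw [Pi.single_eq_of_ne h, Pi.single_eq_of_ne (by simpa using h)]

theorem slice_energy {S : Type} (D : Species S) {I : Type} [Fintype I] [DecidableEq I]
    (sp : Option I → S) (ℓ : ℝ) (Φ : Wave D (Option I)) (hΦ : IsState D sp ℓ Φ) :
    (∀ σ, Integrable (fun z => energy D (fun i => sp (some i)) (slice D σ z Φ))) ∧
      ∑ σ, ∫ z, energy D (fun i => sp (some i)) (slice D σ z Φ) =
        energy D sp Φ - pe D sp none Φ := by
  -- the density
  set G : (Option I → Fin D.g) → (Option I → E3) → ℝ := fun T X =>
    (∑ i : I, kin D sp (some i) (Φ T) X) +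
      coul D (fun i => sp (some i)) (fun i => X (some i)) * ‖Φ T X‖ ^ 2 with hG
  set A : (Option I → Fin D.g) → (Option I → E3) → ℝ := fun T X =>
    (∑ i, kin D sp i (Φ T) X) + coul D sp X * ‖Φ T X‖ ^ 2 with hA
  set B : (Option I → Fin D.g) → (Option I → E3) → ℝ := fun T X =>
    kin D sp none (Φ T) X +
    (∑ j, if none = j then 0 else D.charge (sp none) * D.charge (sp j) / ‖X none - X j‖) *
      ‖Φ T X‖ ^ 2 with hB
  have hpt : ∀ T X, G T X = A T X - B T X := by
    intro T X
    have e1 : coul D sp X = coul D (fun i => sp (some i)) (fun i => X (some i)) +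
        (∑ j, if none = j then 0 else D.charge (sp none) * D.charge (sp j) / ‖X none - X j‖) := by
      unfold coul
      simp only [Fintype.sum_option, Option.some_inj, if_true, reduceCtorEq, if_false, zero_add]
      rw [Finset.sum_add_distrib]
      have e2 : ∑ x : I, D.charge (sp (some x)) * D.charge (sp none) / ‖X (some x) - X none‖ =
          ∑ x : I, D.charge (sp none) * D.charge (sp (some x)) / ‖X none - X (some x)‖ := by
        refine Finset.sum_congr rfl fun i _ => ?_
        rw [norm_sub_rev, mul_comm (D.charge (sp (some i)))]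
      rw [e2]
      ring
    rw [hG, hA, hB]
    simp only
    rw [e1, Fintype.sum_option]
    ring
  have hAint : ∀ T, Integrable (A T) := by
    intro T
    obtain ⟨-, hk, hc, -, -⟩ := int_state D sp ℓ Φ hΦ T
    rw [hA]
    exact (integrable_finsetSum _ fun i _ => hk i).add hc
  have hBint : ∀ T, Integrable (B T) := by
    intro T
    obtain ⟨-, hk, -, hp, -⟩ := int_state D sp ℓ Φ hΦ T
    rw [hB]
    refine (hk none).add ?_
    have e3 : (fun X : Option I → E3 =>
        (∑ j, if none = j then 0 else D.charge (sp none) * D.charge (sp j) / ‖X none - X j‖) *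
          ‖Φ T X‖ ^ 2) = fun X => ∑ j : I, D.charge (sp none) * D.charge (sp (some j)) /
            ‖X none - X (some j)‖ * ‖Φ T X‖ ^ 2 := by
      funext X
      rw [Fintype.sum_option, if_pos rfl, zero_add, Finset.sum_mul]
      refine Finset.sum_congr rfl fun j _ => ?_
      rw [if_neg (by simp)]
    rw [e3]
    exact integrable_finsetSum _ fun j _ => hp none (some j) (by simp)
  have hGint : ∀ T, Integrable (G T) := by
    intro T
    have : G T = fun X => A T X - B T X := funext (hpt T)
    rw [this]
    exact (hAint T).sub (hBint T)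
  -- the energy of a slice
  have hen : ∀ (σ : Fin D.g) (z : E3), energy D (fun i => sp (some i)) (slice D σ z Φ) =
      ∑ τ : I → Fin D.g, ∫ x, G (slice_energy_ins σ τ) (slice_energy_ins z x) := by
    intro σ z
    unfold energy
    refine Finset.sum_congr rfl fun τ _ => ?_
    congr 1
    funext x
    rw [hG]
    simp only
    congr 1
    refine Finset.sum_congr rfl fun i _ => ?_
    unfold kin
    congr 1
    refine Finset.sum_congr rfl fun k _ => ?_
    have hdiff : Differentiable ℝ (Φ (slice_energy_ins σ τ)) :=
      (hΦ.smooth _).differentiable (by simp)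
    have := slice_energy_fderiv (Φ (slice_energy_ins σ τ)) hdiff z x i
      (EuclideanSpace.single k (1 : ℝ))
    rw [← this]
    rfl
  constructor
  · intro σ
    simp only [hen]
    exact integrable_finsetSum _ fun τ _ => (slice_energy_fub _ (hGint _)).1
  · have h1 : ∀ σ : Fin D.g, ∫ z, energy D (fun i => sp (some i)) (slice D σ z Φ) =
        ∑ τ : I → Fin D.g, ∫ X, G (slice_energy_ins σ τ) X := by
      intro σ
      simp only [hen]
      rw [integral_finsetSum _ fun τ _ => (slice_energy_fub _ (hGint _)).1]
      exact Finset.sum_congr rfl fun τ _ => (slice_energy_fub _ (hGint _)).2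
    simp only [h1]
    have h2 : ∑ σ : Fin D.g, ∑ τ : I → Fin D.g, ∫ X, G (slice_energy_ins σ τ) X =
        ∑ T : Option I → Fin D.g, ∫ X, G T X := by
      rw [← Fintype.sum_prod_type' (f := fun (σ : Fin D.g) (τ : I → Fin D.g) =>
        ∫ X, G (slice_energy_ins σ τ) X)]
      refine Fintype.sum_equiv (Equiv.piOptionEquivProd (β := fun _ : Option I => Fin D.g)).symm _ _ ?_
      rintro ⟨σ, τ⟩
      have : slice_energy_ins σ τ =
          (Equiv.piOptionEquivProd (β := fun _ : Option I => Fin D.g)).symm (σ, τ) := by
        funext o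
        cases o <;> rfl
      rw [← this]
    rw [h2]
    unfold energy pe
    rw [← Finset.sum_sub_distrib]
    refine Finset.sum_congr rfl fun T _ => ?_
    rw [← integral_sub (hAint T) (hBint T)]
    exact integral_congr_ae (Filter.Eventually.of_forall fun X => hpt T X)

end Pool.Agent.Helper985.CP
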