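import Pool.Agent.Helper985.CP.M_int_coul
import Pool.Agent.Helper985.CP.M_int_state
import Pool.Agent.Helper985.CP.M_slice_state
import Pool.Agent.Helper985.CP.Defs

set_option autoImplicit false

open MeasureTheory
open scoped Topology

namespace Pool.Agent.Helper985.CP





theorem slice_pe_fub {I : Type} [Fintype I] (G : (Option I → E3) → ℝ) (hG : Integrable G) :
    Integrable (fun z : E3 => ∫ x : I → E3, G (fun o => o.elim z x)) ∧
      ∫ z : E3, ∫ x : I → E3, G (fun o => o.elim z x) = ∫ y, G y := by
  set E := MeasurableEquiv.piOptionEquivProd (fun _ : Option I => E3) with hE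
  have hEs : ∀ p : (I → E3) × E3, E.symm p = fun o => o.elim p.2 p.1 := by
    intro p
    rw [MeasurableEquiv.symm_apply_eq]
    rfl
  have hmp : MeasurePreserving E.symm
      ((volume : Measure (I → E3)).prod (volume : Measure E3))
      (volume : Measure (Option I → E3)) :=
    ⟨E.symm.measurable, Measure.pi_map_piOptionEquivProd (fun _ : Option I => (volume : Measure E3))⟩
  have hint : Integrable (fun p : (I → E3) × E3 => G (fun o => o.elim p.2 p.1))
      ((volume : Measure (I → E3)).prod (volume : Measure E3)) := by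
    have h1 := (hmp.integrable_comp_emb E.symm.measurableEmbedding).2 hG
    refine h1.congr (Filter.Eventually.of_forall ?_)
    intro p
    change G (E.symm p) = _
    rw [hEs]
  refine ⟨hint.integral_prod_right, ?_⟩
  have h2 := integral_prod_symm _ hint
  rw [← h2, ← hmp.integral_comp E.symm.measurableEmbedding]
  refine integral_congr_ae (Filter.Eventually.of_forall ?_)
  intro p
  change _ = G (E.symm p)
  rw [hEs]

theorem slice_pe_fd {I : Type} [Fintype I] [DecidableEq I] (u : (Option I → E3) → ℂ)
    (hu : Differentiable ℝ u) (z : E3) (x : I → E3) (j : I) (e : E3) :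
    fderiv ℝ (fun x : I → E3 => u (fun o => o.elim z x)) x (Pi.single j e) =
      fderiv ℝ u (fun o => o.elim z x) (Pi.single (some j) e) := by
  set L : (I → E3) →L[ℝ] (Option I → E3) :=
    ContinuousLinearMap.pi (fun o => o.elim 0 (fun k => ContinuousLinearMap.proj k)) with hL
  have h1 : HasFDerivAt (fun x : I → E3 => (fun o : Option I => o.elim z x)) L x := by
    rw [hL]
    refine hasFDerivAt_pi.2 ?_
    intro o
    cases o with
    | none => exact hasFDerivAt_const z x
    | some k => exact hasFDerivAt_apply k x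
  have h2 : HasFDerivAt (fun x : I → E3 => u (fun o => o.elim z x))
      ((fderiv ℝ u (fun o => o.elim z x)).comp L) x :=
    HasFDerivAt.comp x (hu _).hasFDerivAt h1
  rw [h2.fderiv]
  change fderiv ℝ u (fun o => o.elim z x) (L (Pi.single j e)) = _
  congr 1
  funext o
  cases o with
  | none =>
    rw [Pi.single_eq_of_ne (by simp)]
    rfl
  | some k =>
    change (Pi.single j e : I → E3) k = (Pi.single (some j) e : Option I → E3) (some k)
    by_cases hk : k = j
    · subst hk
      rw [Pi.single_eq_same, Pi.single_eq_same]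
    · rw [Pi.single_eq_of_ne hk, Pi.single_eq_of_ne (by simpa using hk)]

/-- the integrand of the energy of particle `j` without the extra particle -/
noncomputable def slice_pe_G {S : Type} (D : Species S) {I : Type} [Fintype I] [DecidableEq I]
    (sp : Option I → S) (Φ : Wave D (Option I)) (j : I) (τ : Option I → Fin D.g)
    (y : Option I → E3) : ℝ :=
  kin D sp (some j) (Φ τ) y + (∑ k : I, if j = k then 0 else
    D.charge (sp (some j)) * D.charge (sp (some k)) / ‖y (some j) - y (some k)‖) * ‖Φ τ y‖ ^ 2

theorem slice_pe_Gint {S : Type} (D : Species S) {I : Type} [Fintype I] [DecidableEq I]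
    (sp : Option I → S) (ℓ : ℝ) (Φ : Wave D (Option I)) (hΦ : IsState D sp ℓ Φ) (j : I)
    (τ : Option I → Fin D.g) : Integrable (slice_pe_G D sp Φ j τ) := by
  obtain ⟨-, h2, -, h4, -⟩ := int_state D sp ℓ Φ hΦ τ
  refine (h2 (some j)).add ?_
  have h5 : (fun y : Option I → E3 => (∑ k : I, if j = k then 0 else
      D.charge (sp (some j)) * D.charge (sp (some k)) / ‖y (some j) - y (some k)‖) *
        ‖Φ τ y‖ ^ 2) = fun y => ∑ k : I, (if j = k then 0 else
      D.charge (sp (some j)) * D.charge (sp (some k)) / ‖y (some j) - y (some k)‖ *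
        ‖Φ τ y‖ ^ 2) := by
    funext y
    rw [Finset.sum_mul]
    refine Finset.sum_congr rfl (fun k _ => ?_)
    split_ifs
    · exact zero_mul _
    · rfl
  rw [h5]
  refine integrable_finset_sum _ (fun k _ => ?_)
  by_cases hk : j = k
  · simp only [if_pos hk]
    exact integrable_zero _ _ _
  · simp only [if_neg hk]
    exact h4 (some j) (some k) (by simpa using hk)

theorem slice_pe_eq {S : Type} (D : Species S) {I : Type} [Fintype I] [DecidableEq I]
    (sp : Option I → S) (ℓ : ℝ) (Φ : Wave D (Option I)) (hΦ : IsState D sp ℓ Φ) (j : I)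
    (σ : Fin D.g) (z : E3) :
    pe D (fun i => sp (some i)) j (slice D σ z Φ) =
      ∑ τ : I → Fin D.g, ∫ x : I → E3,
        slice_pe_G D sp Φ j (fun o => o.elim σ τ) (fun o => o.elim z x) := by
  unfold pe
  refine Finset.sum_congr rfl (fun τ _ => ?_)
  refine integral_congr_ae (Filter.Eventually.of_forall ?_)
  intro x
  unfold slice_pe_G
  have hd : Differentiable ℝ (Φ (fun o => o.elim σ τ)) :=
    (hΦ.smooth _).differentiable (by simp)
  have hk : kin D (fun i => sp (some i)) j (slice D σ z Φ τ) x =
      kin D sp (some j) (Φ (fun o => o.elim σ τ)) (fun o => o.elim z x) := by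
    unfold kin
    congr 1
    refine Finset.sum_congr rfl (fun k _ => ?_)
    have h1 := slice_pe_fd (Φ (fun o => o.elim σ τ)) hd z x j (EuclideanSpace.single k (1 : ℝ))
    have h2 : slice D σ z Φ τ = fun x : I → E3 => Φ (fun o => o.elim σ τ) (fun o => o.elim z x) :=
      rfl
    rw [h2, h1]
  change kin D (fun i => sp (some i)) j (slice D σ z Φ τ) x + _ = _
  rw [hk]
  rfl

theorem slice_pe {S : Type} (D : Species S) {I : Type} [Fintype I] [DecidableEq I]
    (sp : Option I → S) (ℓ : ℝ) (Φ : Wave D (Option I)) (hΦ : IsState D sp ℓ Φ) (j : I) :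
    (∀ σ, Integrable (fun z => pe D (fun i => sp (some i)) j (slice D σ z Φ))) ∧
      ∑ σ, ∫ z, pe D (fun i => sp (some i)) j (slice D σ z Φ) =
        pe D sp (some j) Φ - ∑ τ, ∫ x, D.charge (sp none) * D.charge (sp (some j)) /
          ‖x none - x (some j)‖ * ‖Φ τ x‖ ^ 2 := by
  have hG := slice_pe_Gint D sp ℓ Φ hΦ j
  have hfub : ∀ (σ : Fin D.g) (τ : I → Fin D.g),
      Integrable (fun z : E3 => ∫ x : I → E3,
        slice_pe_G D sp Φ j (fun o => o.elim σ τ) (fun o => o.elim z x)) ∧
      ∫ z : E3, ∫ x : I → E3,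
        slice_pe_G D sp Φ j (fun o => o.elim σ τ) (fun o => o.elim z x) =
        ∫ y, slice_pe_G D sp Φ j (fun o => o.elim σ τ) y :=
    fun σ τ => slice_pe_fub _ (hG _)
  have heq : ∀ σ, (fun z => pe D (fun i => sp (some i)) j (slice D σ z Φ)) =
      fun z => ∑ τ : I → Fin D.g, ∫ x : I → E3,
        slice_pe_G D sp Φ j (fun o => o.elim σ τ) (fun o => o.elim z x) := by
    intro σ
    funext z
    exact slice_pe_eq D sp ℓ Φ hΦ j σ z
  constructor
  · intro σ
    rw [heq]
    exact integrable_finset_sum _ (fun τ _ => (hfub σ τ).1)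
  · have h1 : ∀ σ, ∫ z, pe D (fun i => sp (some i)) j (slice D σ z Φ) =
        ∑ τ : I → Fin D.g, ∫ y, slice_pe_G D sp Φ j (fun o => o.elim σ τ) y := by
      intro σ
      rw [heq, integral_finset_sum _ (fun τ _ => (hfub σ τ).1)]
      exact Finset.sum_congr rfl (fun τ _ => (hfub σ τ).2)
    simp_rw [h1]
    have h2 : ∑ σ : Fin D.g, ∑ τ : I → Fin D.g,
        ∫ y, slice_pe_G D sp Φ j (fun o => o.elim σ τ) y =
        ∑ τ' : Option I → Fin D.g, ∫ y, slice_pe_G D sp Φ j τ' y := by
      rw [← Fintype.sum_prod_type' (f := fun (σ : Fin D.g) (τ : I → Fin D.g) =>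
        ∫ y, slice_pe_G D sp Φ j (fun o => o.elim σ τ) y)]
      refine Fintype.sum_equiv (Equiv.piOptionEquivProd (β := fun _ : Option I => Fin D.g)).symm
        _ _ ?_
      rintro ⟨σ, τ⟩
      have h3 : (Equiv.piOptionEquivProd (β := fun _ : Option I => Fin D.g)).symm (σ, τ) =
          fun o => o.elim σ τ := by
        funext o
        cases o <;> rfl
      rw [h3]
    rw [h2]
    unfold pe
    rw [← Finset.sum_sub_distrib]
    refine Finset.sum_congr rfl (fun τ _ => ?_)
    have h4 := (int_state D sp ℓ Φ hΦ τ).2.2.2.1 none (some j) (by simp)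
    rw [eq_sub_iff_add_eq, ← integral_add (hG τ) h4]
    refine integral_congr_ae (Filter.Eventually.of_forall ?_)
    intro x
    simp only [slice_pe_G, Fintype.sum_option, Option.some.injEq, reduceCtorEq, if_false]
    rw [norm_sub_rev (x (some j)) (x none)]
    ring

end Pool.Agent.Helper985.CP
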