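import Pool.Agent.Helper985.CP.M_int_state
import Pool.Agent.Helper985.CP.M_slice_basic
import Pool.Agent.Helper985.CP.M_slice_energy
import Pool.Agent.Helper985.CP.M_slice_pe
import Pool.Agent.Helper985.CP.M_slice_state
import Pool.Agent.Helper985.CP.Defs

set_option autoImplicit false

open MeasureTheory
open scoped Topology

namespace Pool.Agent.Helper985.CP







-- auxiliary
theorem remove_none_aux {S : Type} (D : Species S) {I : Type} [Fintype I] [DecidableEq I]
    (sp : Option I → S) (ℓ : ℝ) (E : ℝ)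
    (hE : ∀ Φ : Wave D I, IsState D (fun i => sp (some i)) ℓ Φ →
      E * nrm2 D Φ ≤ energy D (fun i => sp (some i)) Φ)
    (Ψ : Wave D (Option I)) (hΨ : IsState D sp ℓ Ψ) :
    E * nrm2 D Ψ ≤ energy D sp Ψ - pe D sp none Ψ := by
  obtain ⟨⟨i1, e1⟩, -⟩ := slice_basic D sp ℓ Ψ hΨ
  obtain ⟨i2, e2⟩ := slice_energy D sp ℓ Ψ hΨ
  rw [← e1, ← e2, Finset.mul_sum]
  apply Finset.sum_le_sum
  intro σ _
  rw [← integral_const_mul]
  apply integral_mono ((i1 σ).const_mul E) (i2 σ)
  intro z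
  exact hE _ (slice_state D sp ℓ Ψ hΨ σ z)

theorem remove_none {S : Type} (D : Species S) {I : Type} [Fintype I] [DecidableEq I]
    (sp : Option (Option I) → S) (ℓ : ℝ)
    (hc : D.charge (sp none) * D.charge (sp (some none)) ≤ 0) (E : ℝ)
    (hE : ∀ Φ : Wave D I, IsState D (fun i => sp (some (some i))) ℓ Φ →
      E * nrm2 D Φ ≤ energy D (fun i => sp (some (some i))) Φ)
    (Ψ : Wave D (Option (Option I))) (hΨ : IsState D sp ℓ Ψ) :
    E * nrm2 D Ψ ≤ energy D sp Ψ - pe D sp none Ψ - pe D sp (some none) Ψ := by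
  obtain ⟨⟨i1, e1⟩, -⟩ := slice_basic D sp ℓ Ψ hΨ
  obtain ⟨i2, e2⟩ := slice_energy D sp ℓ Ψ hΨ
  obtain ⟨i3, e3⟩ := slice_pe D sp ℓ Ψ hΨ none
  have h1 : E * nrm2 D Ψ ≤ ∑ σ, ∫ z, (energy D (fun i => sp (some i)) (slice D σ z Ψ) -
      pe D (fun i => sp (some i)) none (slice D σ z Ψ)) := by
    rw [← e1, Finset.mul_sum]
    apply Finset.sum_le_sum
    intro σ _
    rw [← integral_const_mul]
    apply integral_mono ((i1 σ).const_mul E) ((i2 σ).sub (i3 σ))
    intro z
    exact remove_none_aux D (fun i => sp (some i)) ℓ E hE _ (slice_state D sp ℓ Ψ hΨ σ z)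
  have h2 : ∑ σ, ∫ z, (energy D (fun i => sp (some i)) (slice D σ z Ψ) -
      pe D (fun i => sp (some i)) none (slice D σ z Ψ)) =
      (∑ σ, ∫ z, energy D (fun i => sp (some i)) (slice D σ z Ψ)) -
      ∑ σ, ∫ z, pe D (fun i => sp (some i)) none (slice D σ z Ψ) := by
    rw [← Finset.sum_sub_distrib]
    apply Finset.sum_congr rfl
    intro σ _
    exact integral_sub (i2 σ) (i3 σ)
  rw [h2, e2, e3] at h1
  have h3 : ∑ τ, ∫ x, D.charge (sp none) * D.charge (sp (some none)) /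
      ‖x none - x (some none)‖ * ‖Ψ τ x‖ ^ 2 ≤ 0 := by
    apply Finset.sum_nonpos
    intro τ _
    apply integral_nonpos
    intro x
    apply mul_nonpos_of_nonpos_of_nonneg
    · exact div_nonpos_of_nonpos_of_nonneg hc (norm_nonneg _)
    · positivity
  linarith

end Pool.Agent.Helper985.CP
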