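import Pool.Agent.Helper985.CP.M_exists_equiv
import Pool.Agent.Helper985.CP.M_relabel_num
import Pool.Agent.Helper985.CP.M_relabel_state
import Pool.Agent.Helper985.CP.M_remove_none
import Pool.Agent.Helper985.CP.Defs

set_option autoImplicit false

open MeasureTheory
open scoped Topology

namespace Pool.Agent.Helper985.CP







/-- counts over an option type -/
theorem cnt_option_aux {S : Type} [DecidableEq S] {J : Type} [Fintype J] [DecidableEq J]
    (sp : Option J → S) (s : S) :
    cnt sp s = cnt (fun j => sp (some j)) s + (if s = sp none then 1 else 0) := by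
  unfold cnt
  rw [Finset.card_filter, Finset.card_filter, Fintype.sum_option, add_comm]
  congr 1
  by_cases h : s = sp none
  · simp [h]
  · have h' : ¬ sp none = s := fun hh => h hh.symm
    simp [h, h']

/-- swapping two points with equal labels does not change the labels -/
theorem swap_label_aux {S : Type} {L : Type} [DecidableEq L] (f : L → S) (p q : L)
    (h : f p = f q) (x : L) : f (Equiv.swap p q x) = f x := by
  rcases eq_or_ne x p with rfl | h1
  · rw [Equiv.swap_apply_left, h]
  · rcases eq_or_ne x q with rfl | h2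
    · rw [Equiv.swap_apply_right, h]
    · rw [Equiv.swap_apply_of_ne_of_ne h1 h2]

theorem remove_any {S : Type} [DecidableEq S] (D : Species S) {I J : Type} [Fintype I]
    [DecidableEq I] [Fintype J] [DecidableEq J] (sp : I → S) (sp' : J → S) (a b : S)
    (hab : a ≠ b) (hc : D.charge a * D.charge b ≤ 0)
    (hcnt : ∀ s, cnt sp s = cnt sp' s + (if s = a then 1 else 0) + (if s = b then 1 else 0))
    (ℓ : ℝ) (E : ℝ) (hE : ∀ Φ : Wave D J, IsState D sp' ℓ Φ → E * nrm2 D Φ ≤ energy D sp' Φ)
    (Ψ : Wave D I) (hΨ : IsState D sp ℓ Ψ) (i j : I) (hi : sp i = a) (hj : sp j = b) :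
    E * nrm2 D Ψ ≤ energy D sp Ψ - pe D sp i Ψ - pe D sp j Ψ := by
  let sp2 : Option (Option J) → S := fun o => o.elim a (fun o' => o'.elim b sp')
  have hc2 : ∀ s, cnt sp s = cnt sp2 s := by
    intro s
    rw [hcnt s, cnt_option_aux sp2 s, cnt_option_aux (fun j => sp2 (some j)) s]
    change cnt sp' s + (if s = a then 1 else 0) + (if s = b then 1 else 0) =
      cnt sp' s + (if s = b then 1 else 0) + (if s = a then 1 else 0)
    omega
  obtain ⟨e0, he0⟩ := exists_equiv sp sp2 hc2
  have hij : i ≠ j := by
    intro h
    apply hab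
    rw [← hi, ← hj, h]
  let e1 : I ≃ Option (Option J) := e0.trans (Equiv.swap (e0 i) none)
  have he1 : ∀ k, sp2 (e1 k) = sp k := by
    intro k
    change sp2 (Equiv.swap (e0 i) none (e0 k)) = sp k
    rw [swap_label_aux sp2 (e0 i) none (by rw [he0 i, hi]; rfl), he0]
  have he1i : e1 i = none := by
    change Equiv.swap (e0 i) none (e0 i) = none
    rw [Equiv.swap_apply_left]
  have hj1 : e1 j ≠ none := by
    intro h
    exact hij (e1.injective (he1i.trans h.symm))
  let e : I ≃ Option (Option J) := e1.trans (Equiv.swap (e1 j) (some none))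
  have he : ∀ k, sp2 (e k) = sp k := by
    intro k
    change sp2 (Equiv.swap (e1 j) (some none) (e1 k)) = sp k
    rw [swap_label_aux sp2 (e1 j) (some none) (by rw [he1 j, hj]; rfl), he1]
  have hei : e i = none := by
    change Equiv.swap (e1 j) (some none) (e1 i) = none
    rw [he1i]
    exact Equiv.swap_apply_of_ne_of_ne hj1.symm (by simp)
  have hej : e j = some none := by
    change Equiv.swap (e1 j) (some none) (e1 j) = some none
    rw [Equiv.swap_apply_left]
  obtain ⟨hn, hen, hpe, -⟩ := relabel_num D e sp sp2 he Ψ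
  have key := remove_none D sp2 ℓ hc E hE (relab D e Ψ) (relabel_state D e sp sp2 he ℓ Ψ hΨ)
  rw [hn, hen, ← hei, hpe i, ← hej, hpe j] at key
  exact key

end Pool.Agent.Helper985.CP
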