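import Pool.Agent.Helper985.CP.M_int_state
import Pool.Agent.Helper985.CP.Defs

set_option autoImplicit false

open MeasureTheory
open scoped Topology

namespace Pool.Agent.Helper985.CP



theorem se_fderiv {I : Type} [Fintype I] (u : (I → E3) → ℂ) (x v : I → E3) :
    ‖fderiv ℝ (fun y => u ((1 / 2 : ℝ) • y)) x v‖ ^ 2 =
      1 / 4 * ‖fderiv ℝ u ((1 / 2 : ℝ) • x) v‖ ^ 2 := by
  have h := fderiv_comp_smul (𝕜 := ℝ) (f := u) (x := x) (1 / 2 : ℝ)
  rw [show (fun y => u ((1 / 2 : ℝ) • y)) = (u <| (1 / 2 : ℝ) • ·) from rfl, h]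
  rw [ContinuousLinearMap.smul_apply, norm_smul, mul_pow]
  norm_num

theorem se_kin {S : Type} (D : Species S) {I : Type} [Fintype I] [DecidableEq I]
    (sp : I → S) (i : I) (u : (I → E3) → ℂ) (x : I → E3) :
    kin D sp i (fun y => u ((1 / 2 : ℝ) • y)) x = 1 / 4 * kin D sp i u ((1 / 2 : ℝ) • x) := by
  unfold kin
  simp only [se_fderiv]
  rw [← Finset.mul_sum]
  ring

theorem se_coul {S : Type} (D : Species S) {I : Type} [Fintype I] [DecidableEq I]
    (sp : I → S) (x : I → E3) :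
    coul D sp x = 1 / 2 * coul D sp ((1 / 2 : ℝ) • x) := by
  unfold coul
  have h1 : ∀ i j, (if i = j then (0 : ℝ) else D.charge (sp i) * D.charge (sp j) /
      ‖((1 / 2 : ℝ) • x) i - ((1 / 2 : ℝ) • x) j‖) =
      2 * (if i = j then 0 else D.charge (sp i) * D.charge (sp j) / ‖x i - x j‖) := by
    intro i j
    split_ifs with h
    · simp
    · rw [Pi.smul_apply, Pi.smul_apply, ← smul_sub, norm_smul, Real.norm_of_nonneg (by norm_num)]
      rcases eq_or_ne (‖x i - x j‖) 0 with h0 | h0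
      · rw [h0]; simp
      · field_simp
  simp only [h1, ← Finset.mul_sum]
  ring

theorem se_state {S : Type} (D : Species S) {I : Type} [Fintype I] [DecidableEq I]
    (sp : I → S) (ℓ : ℝ) (Ψ : Wave D I) (hΨ : IsState D sp ℓ Ψ) :
    IsState D sp (2 * ℓ) (fun τ x => Ψ τ ((1 / 2 : ℝ) • x)) where
  smooth τ := (hΨ.smooth τ).comp (contDiff_id.const_smul (1 / 2 : ℝ))
  compact τ := (hΨ.compact τ).comp_homeomorph
    (Homeomorph.smulOfNeZero (1 / 2 : ℝ) (by norm_num : (1 / 2 : ℝ) ≠ 0))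
  support τ := by
    have h1 : tsupport (fun x => Ψ τ ((1 / 2 : ℝ) • x)) ⊆
        (fun x => (1 / 2 : ℝ) • x) ⁻¹' tsupport (Ψ τ) := by
      apply closure_minimal
      · intro x hx
        exact subset_tsupport _ hx
      · exact (isClosed_tsupport _).preimage (continuous_const_smul _)
    intro x hx i k
    have h2 := hΨ.support τ (h1 hx) i k
    simp only [Pi.smul_apply, PiLp.smul_apply, smul_eq_mul] at h2
    constructor <;> linarith [h2.1, h2.2]
  spin τ h := hΨ.spin τ (fun h0 => h (by funext x; rw [h0]; rfl))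
  symm i j hij hs τ x := hΨ.symm i j hij hs τ ((1 / 2 : ℝ) • x)

theorem sum_pe {S : Type} (D : Species S) (A : ℝ) {I : Type} [Fintype I] [DecidableEq I]
    (sp : I → S)
    (hA : ∀ ℓ : ℝ, 0 < ℓ → ∀ Ψ : Wave D I, IsState D sp ℓ Ψ →
      -A * (Fintype.card I : ℝ) * nrm2 D Ψ ≤ energy D sp Ψ)
    (ℓ : ℝ) (hℓ : 0 < ℓ) (Ψ : Wave D I) (hΨ : IsState D sp ℓ Ψ) :
    -(4 * A) * (Fintype.card I : ℝ) * nrm2 D Ψ ≤ ∑ i, pe D sp i Ψ := by

  classical
  -- kinetic and Coulomb parts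
  set T : (I → Fin D.g) → ℝ := fun τ => ∑ i, ∫ x, kin D sp i (Ψ τ) x with hT
  set V : (I → Fin D.g) → ℝ := fun τ => ∫ x, coul D sp x * ‖Ψ τ x‖ ^ 2 with hV
  set c : ℝ := |((1 / 2 : ℝ) ^ Module.finrank ℝ (I → E3))⁻¹| with hc
  have hc0 : 0 < c := by positivity
  have hint := fun τ => int_state D sp ℓ Ψ hΨ τ
  have hn : nrm2 D (fun τ x => Ψ τ ((1 / 2 : ℝ) • x) : Wave D I) = c * nrm2 D Ψ := by
    unfold nrm2
    rw [Finset.mul_sum]
    refine Finset.sum_congr rfl fun τ _ => ?_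
    rw [Measure.integral_comp_smul volume (fun x => ‖Ψ τ x‖ ^ 2) (1 / 2 : ℝ)]
    rfl
  have he : energy D sp (fun τ x => Ψ τ ((1 / 2 : ℝ) • x) : Wave D I) =
      c * ∑ τ, (1 / 4 * T τ + 1 / 2 * V τ) := by
    unfold energy
    rw [Finset.mul_sum]
    refine Finset.sum_congr rfl fun τ _ => ?_
    have h1 : (fun x : I → E3 => (∑ i, kin D sp i (fun y => Ψ τ ((1 / 2 : ℝ) • y)) x) +
        coul D sp x * ‖Ψ τ ((1 / 2 : ℝ) • x)‖ ^ 2) =
        fun x => (fun y => 1 / 4 * (∑ i, kin D sp i (Ψ τ) y) +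
          1 / 2 * (coul D sp y * ‖Ψ τ y‖ ^ 2)) ((1 / 2 : ℝ) • x) := by
      funext x
      simp only [se_kin]
      rw [se_coul D sp x, ← Finset.mul_sum]
      ring
    rw [h1, Measure.integral_comp_smul volume (fun y => 1 / 4 * (∑ i, kin D sp i (Ψ τ) y) +
          1 / 2 * (coul D sp y * ‖Ψ τ y‖ ^ 2)) (1 / 2 : ℝ)]
    rw [integral_add ((integrable_finset_sum _ fun i _ => (hint τ).2.1 i).const_mul _)
      ((hint τ).2.2.1.const_mul _), integral_const_mul, integral_const_mul,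
      integral_finset_sum _ fun i _ => (hint τ).2.1 i]
    rfl
  have hpe : ∑ i, pe D sp i Ψ = ∑ τ, (T τ + 2 * V τ) := by
    unfold pe
    rw [Finset.sum_comm]
    refine Finset.sum_congr rfl fun τ _ => ?_
    have hI : ∀ i, Integrable (fun x : I → E3 =>
        (∑ j, if i = j then 0 else D.charge (sp i) * D.charge (sp j) / ‖x i - x j‖) *
          ‖Ψ τ x‖ ^ 2) := by
      intro i
      simp only [Finset.sum_mul]
      apply integrable_finset_sum
      intro j _
      by_cases hij : i = j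
      · simp [hij]
      · simp only [if_neg hij]
        exact (hint τ).2.2.2.1 i j hij
    have h2 : ∀ i, (∫ x, (kin D sp i (Ψ τ) x +
        (∑ j, if i = j then 0 else D.charge (sp i) * D.charge (sp j) / ‖x i - x j‖) *
          ‖Ψ τ x‖ ^ 2)) = (∫ x, kin D sp i (Ψ τ) x) + ∫ x : I → E3,
        (∑ j, if i = j then 0 else D.charge (sp i) * D.charge (sp j) / ‖x i - x j‖) *
          ‖Ψ τ x‖ ^ 2 := fun i => integral_add ((hint τ).2.1 i) (hI i)
    simp only [h2]
    rw [Finset.sum_add_distrib]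
    congr 1
    rw [← integral_finset_sum _ fun i _ => hI i, hV, ← integral_const_mul]
    congr 1
    funext x
    rw [← Finset.sum_mul]
    unfold coul
    ring
  have h3 := hA (2 * ℓ) (by positivity) _ (se_state D sp ℓ Ψ hΨ)
  rw [hn, he] at h3
  have h4 : ∑ τ, (T τ + 2 * V τ) = 4 * ∑ τ, (1 / 4 * T τ + 1 / 2 * V τ) := by
    rw [Finset.mul_sum]
    exact Finset.sum_congr rfl fun τ _ => by ring
  rw [hpe, h4]
  have h5 : c * (-A * (Fintype.card I : ℝ) * nrm2 D Ψ) ≤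
      c * ∑ τ, (1 / 4 * T τ + 1 / 2 * V τ) := by
    calc c * (-A * (Fintype.card I : ℝ) * nrm2 D Ψ) =
        -A * (Fintype.card I : ℝ) * (c * nrm2 D Ψ) := by ring
      _ ≤ _ := h3
  have h6 := le_of_mul_le_mul_left h5 hc0
  linarith

end Pool.Agent.Helper985.CP
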