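import Pool.Agent.Helper985.CP.M_energies_basic
import Pool.Agent.Helper985.CP.M_exists_bump
import Pool.Agent.Helper985.CP.M_hole
import Pool.Agent.Helper985.CP.M_move_any
import Pool.Agent.Helper985.CP.M_nrm2_pos
import Pool.Agent.Helper985.CP.M_remove_any
import Pool.Agent.Helper985.CP.M_stable_any
import Pool.Agent.Helper985.CP.M_sum_pe
import Pool.Agent.Helper985.CP.Defs

set_option autoImplicit false

open MeasureTheory
open scoped Topology

namespace Pool.Agent.Helper985.CP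










theorem lower_general {S : Type} [Fintype S] [DecidableEq S] (D : Species S) (hD : D.Valid)
    (hst : HStable D) (r : ℝ) (hr : 0 < r) (c : ℝ) (hc : 0 < c) :
    ∃ C : ℝ, 0 < C ∧ ∀ (a b : S), D.charge b = -D.charge a → a ≠ b →
      ∀ {I J : Type} [Fintype I] [DecidableEq I] [Fintype J] [DecidableEq J] (sp : I → S)
        (sp' : J → S) (ℓ : ℝ), 8 * r ≤ ℓ → (Fintype.card I : ℝ) * (1024 * r ^ 3) ≤ ℓ ^ 3 →
      (∑ i, D.charge (sp i) = 0) →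
      (∀ s, cnt sp s = cnt sp' s + (if s = a then 1 else 0) + (if s = b then 1 else 0)) →
      c * (Fintype.card I : ℝ) ≤ cnt sp a → c * (Fintype.card I : ℝ) ≤ cnt sp b →
      sInf (energies D sp' ℓ) ≤ sInf (energies D sp ℓ) + C := by
  obtain ⟨A0, hA0⟩ := hst
  obtain ⟨Ch, hCh, hole'⟩ := hole D hD r hr
  obtain ⟨T, hT, hbump⟩ := exists_bump r hr
  obtain ⟨M, hM⟩ : ∃ M : ℝ, M = ∑ s, 1 / (2 * D.mass s) := ⟨_, rfl⟩
  have hMs : ∀ s, 1 / (2 * D.mass s) ≤ M := by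
    intro s
    rw [hM]
    refine Finset.single_le_sum (f := fun s => 1 / (2 * D.mass s)) (fun t _ => ?_)
      (Finset.mem_univ s)
    have := hD.mass_pos t
    positivity
  have hMnn : 0 ≤ M := by
    rw [hM]
    refine Finset.sum_nonneg fun t _ => ?_
    have := hD.mass_pos t
    positivity
  obtain ⟨A, hA⟩ : ∃ A : ℝ, A = |A0| := ⟨_, rfl⟩
  have hAnn : 0 ≤ A := by rw [hA]; exact abs_nonneg _
  refine ⟨2 * (1 + Ch) + (4 * A + (2 * (1 + Ch) + M * T)) * (2 / c), by positivity, ?_⟩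
  intro a b hcab hab I J _ _ _ _ sp sp' ℓ hℓ hcard hneu hcnt hna hnb
  have hℓ0 : 0 < ℓ := by linarith
  obtain ⟨-, -, hE', hnear⟩ := energies_basic D hD ⟨A0, hA0⟩ sp ℓ hℓ0
  obtain ⟨-, -, hE, -⟩ := energies_basic D hD ⟨A0, hA0⟩ sp' ℓ hℓ0
  generalize sInf (energies D sp ℓ) = E' at *
  generalize sInf (energies D sp' ℓ) = E at *
  obtain ⟨Ψ, hΨ, hΨ0, hΨE⟩ := hnear 1 one_pos
  obtain ⟨x0, hx0, Φ, hΦ, hvan, hn1, hn2, hen⟩ := hole' sp ℓ hℓ hcard Ψ hΨ E' hE'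
  obtain ⟨φ, f1, f2, f3, f4, f5⟩ := hbump x0
  obtain ⟨ν, hνd⟩ : ∃ ν, ν = nrm2 D Φ := ⟨_, rfl⟩
  rw [← hνd] at hn1 hn2 hen
  have hν : 0 < ν := by linarith
  obtain ⟨Y, hY⟩ : ∃ Y, Y = mean D sp Φ (pot φ) := ⟨_, rfl⟩
  obtain ⟨eΦ, heΦ⟩ : ∃ eΦ, eΦ = energy D sp Φ := ⟨_, rfl⟩
  obtain ⟨N, hN⟩ : ∃ N : ℝ, N = (Fintype.card I : ℝ) := ⟨_, rfl⟩
  rw [← heΦ] at hen
  have hlow := hE' Φ hΦ
  rw [← heΦ, ← hνd] at hlow
  obtain ⟨B, hB⟩ : ∃ B, B = eΦ - E' * ν + M * T * ν := ⟨_, rfl⟩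
  have hMT : 0 ≤ M * T * ν := by positivity
  have hB0 : 0 ≤ B := by rw [hB]; linarith
  have henΦ : eΦ ≤ E' * ν + 2 * (1 + Ch) * ν := by nlinarith
  have hB1 : B ≤ (2 * (1 + Ch) + M * T) * ν := by rw [hB]; nlinarith
  have hpe : ∀ i, pe D sp i Φ ≤ D.charge (sp i) * Y + B := by
    intro i
    have h1 := move_any D hD sp ℓ E' hE' φ f1 f2 (f3.trans hx0) f4 Φ hΦ
      (fun τ x i hi => hvan τ x i (f3 hi)) i
    rw [← hY, ← heΦ, ← hνd] at h1
    have h2 : 1 / (2 * D.mass (sp i)) * grad2 φ * ν ≤ M * T * ν := by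
      apply mul_le_mul_of_nonneg_right _ hν.le
      have hm := hD.mass_pos (sp i)
      have h3 : 0 ≤ 1 / (2 * D.mass (sp i)) := by positivity
      exact (mul_le_mul_of_nonneg_left f5 h3).trans (mul_le_mul_of_nonneg_right (hMs _) hT.le)
    rw [hB]
    linarith
  have hsum : -(4 * A) * N * ν ≤ ∑ i, pe D sp i Φ := by
    have h1 := sum_pe D A sp (fun ℓ hℓ Ψ hΨ => by
      have h2 := stable_any D A0 hA0 sp ℓ hℓ Ψ hΨ
      have h3 : 0 ≤ nrm2 D Ψ := by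
        unfold nrm2
        exact Finset.sum_nonneg fun τ _ => integral_nonneg fun x => sq_nonneg _
      have h4 : A0 ≤ A := by rw [hA]; exact le_abs_self _
      have h5 : 0 ≤ (Fintype.card I : ℝ) * nrm2 D Ψ := by positivity
      nlinarith) ℓ hℓ0 Φ hΦ
    rw [← hN, ← hνd] at h1
    exact h1
  have hNnn : 0 ≤ N := by rw [hN]; positivity
  have key : ∀ s, c * N ≤ cnt sp s → 0 < cnt sp s →
      ∃ i, sp i = s ∧ D.charge s * Y - (4 * A * ν + B) / c ≤ pe D sp i Φ := by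
    intro s hs hs0
    obtain ⟨F, hF⟩ : ∃ F : Finset I, F = Finset.univ.filter (fun i => sp i = s) := ⟨_, rfl⟩
    have hFcard : F.card = cnt sp s := by rw [hF]; rfl
    have hFne : F.Nonempty := Finset.card_pos.1 (by rw [hFcard]; exact hs0)
    have h1 : ∑ i ∈ F, pe D sp i Φ + ∑ i ∈ Fᶜ, pe D sp i Φ = ∑ i, pe D sp i Φ :=
      Finset.sum_add_sum_compl F _
    have h2 : ∑ i ∈ F, D.charge (sp i) + ∑ i ∈ Fᶜ, D.charge (sp i) = ∑ i, D.charge (sp i) :=
      Finset.sum_add_sum_compl F _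
    have h3 : ∑ i ∈ F, D.charge (sp i) = (cnt sp s : ℝ) * D.charge s := by
      rw [← hFcard, ← nsmul_eq_mul]
      apply Finset.sum_eq_card_nsmul
      intro i hi
      rw [hF, Finset.mem_filter] at hi
      rw [hi.2]
    have h4 : ∑ i ∈ Fᶜ, pe D sp i Φ ≤ (∑ i ∈ Fᶜ, D.charge (sp i)) * Y + (Fᶜ.card : ℝ) * B := by
      calc ∑ i ∈ Fᶜ, pe D sp i Φ ≤ ∑ i ∈ Fᶜ, (D.charge (sp i) * Y + B) :=
            Finset.sum_le_sum fun i _ => hpe i
        _ = _ := by rw [Finset.sum_add_distrib, Finset.sum_mul, Finset.sum_const, nsmul_eq_mul]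
    have h5 : (Fᶜ.card : ℝ) ≤ N := by
      rw [hN]
      exact_mod_cast Finset.card_le_univ _
    have h6 : (Fᶜ.card : ℝ) * B ≤ N * B := mul_le_mul_of_nonneg_right h5 hB0
    have h7 : ∑ i ∈ Fᶜ, D.charge (sp i) = -((cnt sp s : ℝ) * D.charge s) := by linarith
    rw [h7] at h4
    have h8 : N ≤ (cnt sp s : ℝ) / c := by
      rw [le_div_iff₀ hc]
      linarith
    have h9 : 0 ≤ 4 * A * ν + B := by positivity
    have h10 : ∑ i ∈ F, (D.charge s * Y - (4 * A * ν + B) / c) ≤ ∑ i ∈ F, pe D sp i Φ := by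
      rw [Finset.sum_const, nsmul_eq_mul, hFcard]
      have h11 : N * (4 * A * ν + B) ≤ (cnt sp s : ℝ) / c * (4 * A * ν + B) :=
        mul_le_mul_of_nonneg_right h8 h9
      have h12 : (cnt sp s : ℝ) * (D.charge s * Y - (4 * A * ν + B) / c) =
          (cnt sp s : ℝ) * D.charge s * Y - (cnt sp s : ℝ) / c * (4 * A * ν + B) := by ring
      rw [h12]
      nlinarith
    obtain ⟨i, hi, hi2⟩ := Finset.exists_le_of_sum_le hFne h10
    rw [hF, Finset.mem_filter] at hi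
    exact ⟨i, hi.2, hi2⟩
  have hca : 0 < cnt sp a := by
    have := hcnt a
    rw [if_pos rfl] at this
    omega
  have hcb : 0 < cnt sp b := by
    have := hcnt b
    rw [if_pos rfl] at this
    omega
  obtain ⟨i, hi, hi2⟩ := key a (by rw [hN]; exact hna) hca
  obtain ⟨j, hj, hj2⟩ := key b (by rw [hN]; exact hnb) hcb
  have hrem := remove_any D sp sp' a b hab (by rw [hcab]; nlinarith [sq_nonneg (D.charge a)])
    hcnt ℓ E hE Φ hΦ i j hi hj
  rw [← hνd, ← heΦ] at hrem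
  rw [hcab] at hj2
  have hfin : E * ν ≤ (E' + (2 * (1 + Ch) + (4 * A + (2 * (1 + Ch) + M * T)) * (2 / c))) * ν := by
    have e1 : (4 * A * ν + B) / c ≤ (4 * A + (2 * (1 + Ch) + M * T)) * ν / c := by
      apply div_le_div_of_nonneg_right _ hc.le
      linarith
    have e2 : (4 * A + (2 * (1 + Ch) + M * T)) * (2 / c) * ν =
        2 * ((4 * A + (2 * (1 + Ch) + M * T)) * ν / c) := by ring
    have e3 : (E' + (2 * (1 + Ch) + (4 * A + (2 * (1 + Ch) + M * T)) * (2 / c))) * ν =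
        E' * ν + 2 * (1 + Ch) * ν + (4 * A + (2 * (1 + Ch) + M * T)) * (2 / c) * ν := by ring
    rw [e3, e2]
    linarith
  exact le_of_mul_le_mul_right hfin hν

end Pool.Agent.Helper985.CP
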