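import Pool.Agent.Helper985.CP.M_upper_general
import Pool.Agent.Helper985.CP.M_lower_general
import Pool.Agent.Helper985.CP.M_energies_basic
import Pool.Agent.Helper985.CP.M_energies_relabel
import Pool.Agent.Helper985.CP.M_comb

set_option autoImplicit false

open MeasureTheory
open scoped Topology

namespace Pool.Agent.Helper985.CP

theorem card_sigma {S : Type} [Fintype S] [DecidableEq S] (n : S → ℕ) :
    (Fintype.card (Σ s, Fin (n s)) : ℝ) = ∑ s, (n s : ℝ) := by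
  rw [Fintype.card_sigma]
  push_cast
  simp

theorem addPair_apply {S : Type} [Fintype S] [DecidableEq S] (n : S → ℕ) (a b s : S) :
    addPair n a b s = n s + (if s = a then 1 else 0) + (if s = b then 1 else 0) := by
  simp [addPair, Pi.single_apply]

theorem sum_addPair {S : Type} [Fintype S] [DecidableEq S] (n : S → ℕ) (a b : S) :
    ∑ s, (addPair n a b s : ℝ) = ∑ s, (n s : ℝ) + 2 := by
  simp only [addPair_apply]
  push_cast
  rw [Finset.sum_add_distrib, Finset.sum_add_distrib]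
  simp
  ring

/-- the side of the cube of volume `N/ρ` -/
theorem side_cube (N ρ : ℝ) (hN : 0 ≤ N) (hρ : 0 < ρ) : ((N / ρ) ^ (1 / 3 : ℝ)) ^ 3 = N / ρ := by
  have h : 0 ≤ N / ρ := by positivity
  rw [← Real.rpow_natCast, ← Real.rpow_mul h]
  norm_num

theorem final_radius (N ρ : ℝ) (hN : 1 ≤ N) (hρ : 0 < ρ) :
    0 < (1 / (4096 * ρ)) ^ (1 / 3 : ℝ) ∧
    8 * (1 / (4096 * ρ)) ^ (1 / 3 : ℝ) ≤ (N / ρ) ^ (1 / 3 : ℝ) ∧
    ∀ M : ℝ, M ≤ 3 * N → M * (1024 * ((1 / (4096 * ρ)) ^ (1 / 3 : ℝ)) ^ 3) ≤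
      ((N / ρ) ^ (1 / 3 : ℝ)) ^ 3 := by
  have h1 : ((1 / (4096 * ρ)) ^ (1 / 3 : ℝ)) ^ 3 = 1 / (4096 * ρ) :=
    side_cube 1 (4096 * ρ) (by norm_num) (by positivity)
  have h2 := side_cube N ρ (by linarith) hρ
  have h0 : 0 < (1 / (4096 * ρ)) ^ (1 / 3 : ℝ) := by positivity
  refine ⟨h0, ?_, ?_⟩
  · have h3 : 0 ≤ (N / ρ) ^ (1 / 3 : ℝ) := by positivity
    refine le_of_pow_le_pow_left₀ (n := 3) (by norm_num) h3 ?_
    rw [mul_pow, h1, h2, mul_one_div, div_le_div_iff₀ (by positivity) hρ]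
    nlinarith
  · intro M hM
    rw [h1, h2, ← mul_assoc, mul_one_div, div_le_div_iff₀ (by positivity) hρ]
    nlinarith

theorem upper_final {S : Type} [Fintype S] [DecidableEq S] (D : Species S) (hD : D.Valid)
    (hst : HStable D) (a b : S) (hb : D.charge b = -D.charge a) (ρ : ℝ) (hρ : 0 < ρ) :
    ∃ C : ℝ, ∀ n : S → ℕ, 1 ≤ ∑ s, (n s : ℝ) →
      groundEnergy D (((∑ s, (n s : ℝ)) / ρ) ^ (1 / 3 : ℝ)) (addPair n a b) ≤
        groundEnergy D (((∑ s, (n s : ℝ)) / ρ) ^ (1 / 3 : ℝ)) n + C := by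
  obtain ⟨C, hC, h⟩ := upper_general D hD hst ((1 / (4096 * ρ)) ^ (1 / 3 : ℝ)) (by positivity)
  refine ⟨C, fun n hn => ?_⟩
  obtain ⟨h0, h1, h2⟩ := final_radius (∑ s, (n s : ℝ)) ρ hn hρ
  have h3 := h a b hb (fun i : (Σ s, Fin (n s)) => i.1) _ h1
    (by rw [card_sigma]; exact h2 _ (by linarith))
  obtain ⟨e, he⟩ := addPair_equiv n a b
  rw [energies_relabel D e _ (fun i => i.1) he] at h3
  exact h3

theorem lower_final {S : Type} [Fintype S] [DecidableEq S] (D : Species S) (hD : D.Valid)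
    (hst : HStable D) (a b : S) (hb : D.charge b = -D.charge a) (ρ : ℝ) (hρ : 0 < ρ) (c : ℝ)
    (hc : 0 < c) :
    ∃ C : ℝ, ∀ n : S → ℕ, 1 ≤ ∑ s, (n s : ℝ) → ∑ s, (n s : ℝ) * D.charge s = 0 →
      c * ∑ s, (n s : ℝ) ≤ n a + 1 → c * ∑ s, (n s : ℝ) ≤ n b + 1 →
      groundEnergy D (((∑ s, (n s : ℝ)) / ρ) ^ (1 / 3 : ℝ)) n ≤
        groundEnergy D (((∑ s, (n s : ℝ)) / ρ) ^ (1 / 3 : ℝ)) (addPair n a b) + C := by
  have hab : a ≠ b := by
    rintro rfl
    have := hD.charge_ne a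
    apply this
    linarith
  obtain ⟨C, hC, h⟩ := lower_general D hD hst ((1 / (4096 * ρ)) ^ (1 / 3 : ℝ)) (by positivity)
    (c / 3) (by positivity)
  refine ⟨C, fun n hn hneu ha' hb' => ?_⟩
  obtain ⟨h0, h1, h2⟩ := final_radius (∑ s, (n s : ℝ)) ρ hn hρ
  have hcard : (Fintype.card (Σ s, Fin (addPair n a b s)) : ℝ) = ∑ s, (n s : ℝ) + 2 := by
    rw [card_sigma, sum_addPair]
  refine h a b hb hab (fun i : (Σ s, Fin (addPair n a b s)) => i.1)
    (fun i : (Σ s, Fin (n s)) => i.1) _ h1 (by rw [hcard]; exact h2 _ (by linarith)) ?_ ?_ ?_ ?_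
  · rw [Fintype.sum_sigma]
    simp only [Finset.sum_const, Finset.card_univ, Fintype.card_fin, nsmul_eq_mul,
      addPair_apply]
    push_cast
    simp only [add_mul, ite_mul, one_mul, zero_mul, Finset.sum_add_distrib,
      Finset.sum_ite_eq', Finset.mem_univ, if_true, hneu, hb]
    ring
  · intro s
    rw [cnt_sigma, cnt_sigma, addPair_apply]
  · rw [cnt_sigma, hcard, addPair_apply]
    simp only [if_true, if_neg hab]
    push_cast
    nlinarith
  · rw [cnt_sigma, hcard, addPair_apply]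
    simp only [if_true, if_neg hab.symm]
    push_cast
    nlinarith

end Pool.Agent.Helper985.CP
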