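import Pool.Agent.Helper985.CP.Defs

set_option autoImplicit false

open MeasureTheory
open scoped Topology

namespace Pool.Agent.Helper985.CP


theorem exists_cut_bump (r : ℝ) (hr : 0 < r) : ∃ (χ : E3 → ℝ) (B : ℝ), ContDiff ℝ SM χ ∧
    (∀ y, 0 ≤ χ y ∧ χ y ≤ 1) ∧ (∀ y, ‖y‖ ≤ r → χ y = 1) ∧ (∀ y, 2 * r ≤ ‖y‖ → χ y = 0) ∧
    (∀ y, ‖fderiv ℝ χ y‖ ≤ B) ∧ (∀ y, 2 * r ≤ ‖y‖ → fderiv ℝ χ y = 0) := by
  let χ : ContDiffBump (0 : E3) := ⟨r, 2 * r, hr, by linarith⟩
  have hz : ∀ y : E3, 2 * r ≤ ‖y‖ → χ y = 0 := by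
    intro y hy
    apply χ.zero_of_le_dist
    rw [dist_zero_right]
    exact hy
  have hs : ContDiff ℝ SM χ := χ.contDiff
  have hc : Continuous (fun y => fderiv ℝ χ y) := hs.continuous_fderiv (by simp)
  have hcs : HasCompactSupport (fun y => fderiv ℝ χ y) := χ.hasCompactSupport.fderiv ℝ
  obtain ⟨B, hB⟩ := hcs.exists_bound_of_continuous hc
  refine ⟨χ, B, hs, fun y => ⟨χ.nonneg, χ.le_one⟩, fun y hy => ?_, hz, hB, fun y hy => ?_⟩
  · apply χ.one_of_mem_closedBall
    rw [Metric.mem_closedBall, dist_zero_right]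
    exact hy
  · apply IsLocalMin.fderiv_eq_zero
    refine Filter.Eventually.of_forall fun w => ?_
    rw [hz y hy]
    exact χ.nonneg

theorem exists_cut_deriv {I : Type} [Fintype I] [DecidableEq I] (χ : E3 → ℝ)
    (hχ : ContDiff ℝ SM χ) (x0 : E3) (x : I → E3) (i : I) (v : E3) :
    fderiv ℝ (fun x : I → E3 => Real.pi / 2 * (1 - ∏ j, (1 - χ (x j - x0)))) x (Pi.single i v) =
      Real.pi / 2 * (fderiv ℝ χ (x i - x0) v * ∏ j ∈ Finset.univ.erase i, (1 - χ (x j - x0))) := by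
  have hχd : Differentiable ℝ χ := hχ.differentiable (by simp)
  have hθc : ContDiff ℝ SM (fun x : I → E3 => Real.pi / 2 * (1 - ∏ j, (1 - χ (x j - x0)))) := by
    refine contDiff_const.mul (contDiff_const.sub (contDiff_prod fun j _ => ?_))
    exact contDiff_const.sub (hχ.comp ((contDiff_apply ℝ E3 j).sub contDiff_const))
  have hθ : Differentiable ℝ (fun x : I → E3 => Real.pi / 2 * (1 - ∏ j, (1 - χ (x j - x0)))) :=
    hθc.differentiable (by simp)
  set P : ℝ := ∏ j ∈ Finset.univ.erase i, (1 - χ (x j - x0)) with hP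
  have h1 : HasDerivAt (fun t : ℝ => x + t • (Pi.single i v : I → E3)) (Pi.single i v) 0 := by
    simpa using ((hasDerivAt_id (0 : ℝ)).smul_const (Pi.single i v : I → E3)).const_add x
  have h2 : HasDerivAt (fun t : ℝ => Real.pi / 2 *
      (1 - ∏ j, (1 - χ ((x + t • (Pi.single i v : I → E3)) j - x0))))
      (fderiv ℝ (fun x : I → E3 => Real.pi / 2 * (1 - ∏ j, (1 - χ (x j - x0)))) x
        (Pi.single i v)) 0 := by
    have h3 := (hθ x).hasFDerivAt
    exact HasFDerivAt.comp_hasDerivAt_of_eq 0 h3 h1 (by simp)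
  have h3 : (fun t : ℝ => Real.pi / 2 *
      (1 - ∏ j, (1 - χ ((x + t • (Pi.single i v : I → E3)) j - x0)))) =
      fun t : ℝ => Real.pi / 2 * (1 - (1 - χ (x i - x0 + t • v)) * P) := by
    funext t
    rw [← Finset.mul_prod_erase Finset.univ _ (Finset.mem_univ i)]
    have e1 : (x + t • (Pi.single i v : I → E3)) i - x0 = x i - x0 + t • v := by
      rw [Pi.add_apply, Pi.smul_apply, Pi.single_eq_same]
      abel
    have e2 : ∏ j ∈ Finset.univ.erase i, (1 - χ ((x + t • (Pi.single i v : I → E3)) j - x0)) =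
        P := by
      refine Finset.prod_congr rfl fun j hj => ?_
      rw [Pi.add_apply, Pi.smul_apply, Pi.single_eq_of_ne (Finset.ne_of_mem_erase hj), smul_zero,
        add_zero]
    rw [e1, e2]
  rw [h3] at h2
  have h4 : HasDerivAt (fun t : ℝ => x i - x0 + t • v) v 0 := by
    simpa using ((hasDerivAt_id (0 : ℝ)).smul_const v).const_add (x i - x0)
  have h5 : HasDerivAt (fun t : ℝ => χ (x i - x0 + t • v)) (fderiv ℝ χ (x i - x0) v) 0 :=
    HasFDerivAt.comp_hasDerivAt_of_eq 0 (hχd (x i - x0)).hasFDerivAt h4 (by simp)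
  have h6 := (((h5.const_sub 1).mul_const P).const_sub 1).const_mul (Real.pi / 2)
  have h7 := h2.unique h6
  rw [h7]
  ring

/-- cutting out a ball -/
theorem exists_cut (r : ℝ) (hr : 0 < r) : ∃ C : ℝ, 0 < C ∧ ∀ {I : Type} [Fintype I]
    [DecidableEq I] (x0 : E3), ∃ θ : (I → E3) → ℝ, ContDiff ℝ SM θ ∧
      (∀ i j x, θ (fun k => x (Equiv.swap i j k)) = θ x) ∧
      (∀ x i, x i ∈ Metric.closedBall x0 r → θ x = Real.pi / 2) ∧
      (∀ x, Real.sin (θ x) ^ 2 ≤
        ∑ i, Set.indicator (Metric.ball x0 (2 * r)) (fun _ => (1 : ℝ)) (x i)) ∧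
      (∀ x i, ∑ k : Fin 3, (fderiv ℝ θ x (Pi.single i (EuclideanSpace.single k (1 : ℝ)))) ^ 2 ≤
        C * Set.indicator (Metric.ball x0 (2 * r)) (fun _ => (1 : ℝ)) (x i)) := by
  obtain ⟨χ, B, hχ, h01, hone, hzero, hB, hfz⟩ := exists_cut_bump r hr
  refine ⟨3 * (Real.pi / 2) ^ 2 * B ^ 2 + 1, by positivity, ?_⟩
  intro I _ _ x0
  refine ⟨fun x : I → E3 => Real.pi / 2 * (1 - ∏ j, (1 - χ (x j - x0))), ?_, ?_, ?_, ?_, ?_⟩
  · refine contDiff_const.mul (contDiff_const.sub (contDiff_prod fun j _ => ?_))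
    exact contDiff_const.sub (hχ.comp ((contDiff_apply ℝ E3 j).sub contDiff_const))
  · intro i j x
    show Real.pi / 2 * (1 - ∏ k, (1 - χ (x (Equiv.swap i j k) - x0))) =
      Real.pi / 2 * (1 - ∏ k, (1 - χ (x k - x0)))
    rw [Equiv.prod_comp (Equiv.swap i j) (fun k => 1 - χ (x k - x0))]
  · intro x i hi
    have h1 : χ (x i - x0) = 1 := by
      apply hone
      rw [← dist_eq_norm]
      exact hi
    have h2 : ∏ j, (1 - χ (x j - x0)) = 0 :=
      Finset.prod_eq_zero (Finset.mem_univ i) (by rw [h1, sub_self])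
    show Real.pi / 2 * (1 - ∏ j, (1 - χ (x j - x0))) = Real.pi / 2
    rw [h2, sub_zero, mul_one]
  · intro x
    have hnn : ∀ i, (0 : ℝ) ≤ Set.indicator (Metric.ball x0 (2 * r)) (fun _ => (1 : ℝ)) (x i) :=
      fun i => Set.indicator_nonneg (fun _ _ => zero_le_one) _
    by_cases h : ∃ i, x i ∈ Metric.ball x0 (2 * r)
    · obtain ⟨i, hi⟩ := h
      have h1 : (1 : ℝ) ≤ ∑ i, Set.indicator (Metric.ball x0 (2 * r)) (fun _ => (1 : ℝ)) (x i) := by
        have h2 := Finset.single_le_sum (fun j _ => hnn j) (Finset.mem_univ i)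
        rw [Set.indicator_of_mem hi] at h2
        exact h2
      exact (Real.sin_sq_le_one _).trans h1
    · push Not at h
      have h1 : ∏ j, (1 - χ (x j - x0)) = 1 := by
        refine Finset.prod_eq_one fun j _ => ?_
        rw [hzero, sub_zero]
        have h2 := h j
        rw [Metric.mem_ball, not_lt, dist_eq_norm] at h2
        exact h2
      show Real.sin (Real.pi / 2 * (1 - ∏ j, (1 - χ (x j - x0)))) ^ 2 ≤ _
      rw [h1, sub_self, mul_zero, Real.sin_zero, zero_pow two_ne_zero]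
      exact Finset.sum_nonneg fun i _ => hnn i
  · intro x i
    have hd : ∀ v : E3, fderiv ℝ (fun x : I → E3 => Real.pi / 2 * (1 - ∏ j, (1 - χ (x j - x0)))) x
        (Pi.single i v) = Real.pi / 2 * (fderiv ℝ χ (x i - x0) v *
          ∏ j ∈ Finset.univ.erase i, (1 - χ (x j - x0))) :=
      fun v => exists_cut_deriv χ hχ x0 x i v
    set P : ℝ := ∏ j ∈ Finset.univ.erase i, (1 - χ (x j - x0)) with hP
    have hP0 : 0 ≤ P := Finset.prod_nonneg fun j _ => by linarith [(h01 (x j - x0)).2]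
    have hP1 : P ≤ 1 := Finset.prod_le_one (fun j _ => by linarith [(h01 (x j - x0)).2])
      (fun j _ => by linarith [(h01 (x j - x0)).1])
    by_cases hx : x i ∈ Metric.ball x0 (2 * r)
    · rw [Set.indicator_of_mem hx, mul_one]
      have hk : ∀ k : Fin 3, (fderiv ℝ (fun x : I → E3 =>
          Real.pi / 2 * (1 - ∏ j, (1 - χ (x j - x0)))) x
          (Pi.single i (EuclideanSpace.single k (1 : ℝ)))) ^ 2 ≤ (Real.pi / 2) ^ 2 * B ^ 2 := by
        intro k
        rw [hd]
        have h1 : |fderiv ℝ χ (x i - x0) (EuclideanSpace.single k (1 : ℝ))| ≤ B := by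
          have h2 := (fderiv ℝ χ (x i - x0)).le_opNorm (EuclideanSpace.single k (1 : ℝ))
          rw [EuclideanSpace.norm_single, norm_one, mul_one, Real.norm_eq_abs] at h2
          exact h2.trans (hB _)
        have h3 : |fderiv ℝ χ (x i - x0) (EuclideanSpace.single k (1 : ℝ)) * P| ≤ B := by
          rw [abs_mul, abs_of_nonneg hP0]
          calc _ ≤ B * 1 := mul_le_mul h1 hP1 hP0 ((abs_nonneg _).trans h1)
            _ = B := mul_one B
        have h4 : (fderiv ℝ χ (x i - x0) (EuclideanSpace.single k (1 : ℝ)) * P) ^ 2 ≤ B ^ 2 :=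
          sq_le_sq' (by linarith [neg_abs_le (fderiv ℝ χ (x i - x0)
            (EuclideanSpace.single k (1 : ℝ)) * P)]) ((le_abs_self _).trans h3)
        rw [mul_pow]
        exact mul_le_mul_of_nonneg_left h4 (by positivity)
      calc _ ≤ ∑ _k : Fin 3, (Real.pi / 2) ^ 2 * B ^ 2 := Finset.sum_le_sum fun k _ => hk k
        _ = 3 * (Real.pi / 2) ^ 2 * B ^ 2 := by
          rw [Finset.sum_const, Finset.card_univ, Fintype.card_fin, nsmul_eq_mul]
          push_cast
          ring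
        _ ≤ 3 * (Real.pi / 2) ^ 2 * B ^ 2 + 1 := by linarith
    · rw [Set.indicator_of_notMem hx, mul_zero]
      have h0 : fderiv ℝ χ (x i - x0) = 0 := by
        apply hfz
        rw [Metric.mem_ball, not_lt, dist_eq_norm] at hx
        exact hx
      refine le_of_eq (Finset.sum_eq_zero fun k _ => ?_)
      rw [hd, h0]
      simp


end Pool.Agent.Helper985.CP
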