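import Pool.Agent.Helper985.CP.Defs

set_option autoImplicit false

open MeasureTheory
open scoped Topology

namespace Pool.Agent.Helper985.CP


theorem pot_props_locInt : LocallyIntegrable (fun w : E3 => ‖w‖⁻¹) volume := by
  intro x
  refine ⟨Metric.ball 0 (‖x‖ + 1), Metric.isOpen_ball.mem_nhds (by simp), ?_⟩
  set R : ℝ := ‖x‖ + 1 with hR
  have hRpos : 0 < R := by positivity
  have key : Integrable (fun w : E3 => (Set.Iio R).indicator (fun r : ℝ => r⁻¹) ‖w‖) volume := by
    rw [integrable_fun_norm_addHaar (μ := (volume : Measure E3))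
      (f := (Set.Iio R).indicator (fun r : ℝ => r⁻¹))]
    have hd : Module.finrank ℝ E3 - 1 = 2 := by simp
    rw [hd]
    have h1 : IntegrableOn (fun y : ℝ => (Set.Iio R).indicator (fun r : ℝ => r) y)
        (Set.Ioi 0) := by
      rw [IntegrableOn, integrable_indicator_iff measurableSet_Iio, IntegrableOn,
        Measure.restrict_restrict measurableSet_Iio]
      have : Set.Iio R ∩ Set.Ioi 0 = Set.Ioo 0 R := by
        ext t; simp [and_comm]
      rw [this]
      exact (continuous_id.integrableOn_Icc (a := 0) (b := R)).mono_set Set.Ioo_subset_Icc_self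
    refine h1.congr_fun ?_ measurableSet_Ioi
    intro y hy
    have hy0 : (0 : ℝ) < y := hy
    by_cases hyR : y < R
    · simp only [Set.indicator, Set.mem_Iio, hyR, if_true, smul_eq_mul]
      field_simp
    · simp [Set.indicator, hyR]
  have h2 : Integrable ((Metric.ball (0 : E3) R).indicator (fun w : E3 => ‖w‖⁻¹)) volume := by
    refine key.congr (Filter.Eventually.of_forall fun w => ?_)
    by_cases hw : ‖w‖ < R
    · simp [Set.indicator, hw]
    · simp [Set.indicator, hw]
  exact (integrable_indicator_iff Metric.isOpen_ball.measurableSet).1 h2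

theorem pot_props (φ : E3 → ℝ) (hφ : ContDiff ℝ SM φ) (hc : HasCompactSupport φ) :
    Continuous (pot φ) ∧ (∀ y, 0 ≤ pot φ y) := by
  refine ⟨?_, fun y => integral_nonneg fun z => by positivity⟩
  have hg := pot_props_locInt
  have hf : Continuous (fun z : E3 => φ z ^ 2) := (hφ.continuous).pow 2
  have hcf : HasCompactSupport (fun z : E3 => φ z ^ 2) := by
    have : (fun z : E3 => φ z ^ 2) = (fun t : ℝ => t ^ 2) ∘ φ := rfl
    rw [this]
    exact hc.comp_left (by norm_num)
  have h := hcf.continuous_convolution_left (ContinuousLinearMap.mul ℝ ℝ) hf hg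
  have he : pot φ = (MeasureTheory.convolution (fun z : E3 => φ z ^ 2) (fun w : E3 => ‖w‖⁻¹)
      (ContinuousLinearMap.mul ℝ ℝ) volume) := by
    funext y
    simp only [pot, MeasureTheory.convolution, ContinuousLinearMap.mul_apply', div_eq_mul_inv]
  rw [he]
  exact h

end Pool.Agent.Helper985.CP
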