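import Pool.Agent.Helper985.CP.M_int_coul
import Pool.Agent.Helper985.CP.M_int_state
import Pool.Agent.Helper985.CP.M_pot_props
import Pool.Agent.Helper985.CP.Defs

set_option autoImplicit false

open MeasureTheory
open scoped Topology

namespace Pool.Agent.Helper985.CP






theorem q985_sumtau {I : Type} [Fintype I] [DecidableEq I] {g : ℕ} (σ0 : Fin g)
    (F : (Option I → Fin g) → ℝ) (hF : ∀ τ, τ none ≠ σ0 → F τ = 0) :
    ∑ τ, F τ = ∑ τ' : I → Fin g, F (fun o => o.elim σ0 τ') := by
  classical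
  have h1 : ∑ τ, F τ = ∑ p : Fin g × (I → Fin g), F (fun o => o.elim p.1 p.2) := by
    refine Fintype.sum_equiv (Equiv.piOptionEquivProd (β := fun _ : Option I => Fin g)) _ _ ?_
    intro τ
    congr 1
    funext o
    cases o <;> rfl
  rw [h1, Fintype.sum_prod_type, Finset.sum_eq_single σ0]
  · intro b _ hb
    exact Finset.sum_eq_zero fun τ' _ => hF _ (by simpa using hb)
  · intro h
    exact absurd (Finset.mem_univ _) h

theorem q985_mp (I : Type) [Fintype I] :
    MeasurePreserving (MeasurableEquiv.piOptionEquivProd (fun _ : Option I => E3)).symm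
      (volume : Measure ((I → E3) × E3)) (volume : Measure (Option I → E3)) :=
  ⟨MeasurableEquiv.measurable _,
    MeasureTheory.Measure.pi_map_piOptionEquivProd (fun _ : Option I => (volume : Measure E3))⟩

theorem q985_ap {I : Type} (p : (I → E3) × E3) :
    (MeasurableEquiv.piOptionEquivProd (fun _ : Option I => E3)).symm p
      = fun o => o.elim p.2 p.1 := by
  funext o
  cases o <;> rfl

theorem q985_int {I : Type} [Fintype I] (f : (Option I → E3) → ℝ) :
    ∫ x, f x = ∫ p : (I → E3) × E3, f (fun o => o.elim p.2 p.1) := by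
  rw [← (q985_mp I).integral_comp' f]
  simp only [q985_ap]

theorem q985_intble {I : Type} [Fintype I] (f : (Option I → E3) → ℝ) :
    Integrable f ↔ Integrable (fun p : (I → E3) × E3 => f (fun o => o.elim p.2 p.1)) := by
  rw [← (q985_mp I).integrable_comp_emb (MeasurableEquiv.measurableEmbedding _)]
  have : f ∘ (MeasurableEquiv.piOptionEquivProd (fun _ : Option I => E3)).symm
      = (fun p : (I → E3) × E3 => f (fun o => o.elim p.2 p.1)) := by
    funext p
    simp only [Function.comp, q985_ap]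
  rw [this]

theorem q985_prod {I : Type} [Fintype I] (a : E3 → ℝ) (b : (I → E3) → ℝ) :
    ∫ x : Option I → E3, a (x none) * b (fun i => x (some i)) = (∫ z, a z) * ∫ y, b y := by
  rw [q985_int]
  have : (fun p : (I → E3) × E3 => a ((fun o : Option I => o.elim p.2 p.1) none) *
      b (fun i => (fun o : Option I => o.elim p.2 p.1) (some i)))
      = fun p : (I → E3) × E3 => b p.1 * a p.2 := by
    funext p
    simp only [Option.elim]
    ring
  rw [this]
  have := MeasureTheory.integral_prod_mul (μ := (volume : Measure (I → E3)))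
    (ν := (volume : Measure E3)) b a
  rw [MeasureTheory.Measure.volume_eq_prod, this]
  ring

theorem q985_prodi {I : Type} [Fintype I] (a : E3 → ℝ) (b : (I → E3) → ℝ)
    (ha : Integrable a) (hb : Integrable b) :
    Integrable (fun x : Option I → E3 => a (x none) * b (fun i => x (some i))) := by
  rw [q985_intble]
  have : (fun p : (I → E3) × E3 => a ((fun o : Option I => o.elim p.2 p.1) none) *
      b (fun i => (fun o : Option I => o.elim p.2 p.1) (some i)))
      = fun p : (I → E3) × E3 => b p.1 * a p.2 := by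
    funext p
    simp only [Option.elim]
    ring
  rw [this, MeasureTheory.Measure.volume_eq_prod]
  exact hb.mul_prod ha

theorem q985_cinti {I : Type} [Fintype I] [DecidableEq I] (i : I) (a : E3 → ℝ) (b : (I → E3) → ℝ)
    (ha : Continuous a) (hac : HasCompactSupport a) (hb : Continuous b)
    (hbc : HasCompactSupport b) :
    Integrable (fun x : Option I → E3 => (1 / ‖x none - x (some i)‖) *
      (a (x none) * b (fun i => x (some i)))) := by
  refine int_coul (none : Option I) (some i) (by simp)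
    (fun x => a (x none) * b (fun i => x (some i))) ?_ ?_
  · have c1 : Continuous (fun x : Option I → E3 => x none) := continuous_apply none
    have c2 : Continuous (fun x : Option I → E3 => fun i : I => x (some i)) :=
      continuous_pi fun i => continuous_apply (some i)
    exact (ha.comp c1).mul (hb.comp c2)
  · have hK : IsCompact ((fun p : (I → E3) × E3 => (fun o : Option I => o.elim p.2 p.1)) ''
        (tsupport b ×ˢ tsupport a)) := by
      refine (IsCompact.prod hbc hac).image ?_
      refine continuous_pi fun o => ?_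
      cases o with
      | none => exact continuous_snd
      | some i => exact (continuous_apply i).comp continuous_fst
    refine HasCompactSupport.of_support_subset_isCompact hK ?_
    intro x hx
    rw [Function.mem_support] at hx
    refine ⟨(fun i => x (some i), x none), ⟨?_, ?_⟩, ?_⟩
    · exact subset_tsupport _ (right_ne_zero_of_mul hx)
    · exact subset_tsupport _ (left_ne_zero_of_mul hx)
    · funext o
      cases o <;> rfl

theorem q985_cint {I : Type} [Fintype I] [DecidableEq I] (i : I) (a : E3 → ℝ) (b : (I → E3) → ℝ)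
    (ha : Continuous a) (hac : HasCompactSupport a) (hb : Continuous b)
    (hbc : HasCompactSupport b) :
    ∫ x : Option I → E3, (1 / ‖x none - x (some i)‖) *
      (a (x none) * b (fun i => x (some i))) = ∫ y, (∫ z, a z / ‖y i - z‖) * b y := by
  have h1 := q985_cinti i a b ha hac hb hbc
  rw [q985_intble] at h1
  rw [q985_int, MeasureTheory.Measure.volume_eq_prod,
    MeasureTheory.integral_prod _ (by rw [← MeasureTheory.Measure.volume_eq_prod]; exact h1)]
  congr 1
  funext y
  simp only [Option.elim]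
  rw [← integral_mul_const]
  congr 1
  funext z
  rw [norm_sub_rev]
  ring

theorem q985_fd {I : Type} [Fintype I] [DecidableEq I] (φ : E3 → ℝ) (ψ : (I → E3) → ℂ)
    (hφ : ContDiff ℝ SM φ) (hψ : ContDiff ℝ SM ψ) (x : Option I → E3) (w : Option I → E3) :
    fderiv ℝ (fun x : Option I → E3 => ((φ (x none) : ℝ) : ℂ) * ψ (fun i => x (some i))) x w
      = ((φ (x none) : ℝ) : ℂ) * fderiv ℝ ψ (fun i => x (some i)) (fun i => w (some i))
        + ((fderiv ℝ φ (x none) (w none) : ℝ) : ℂ) * ψ (fun i => x (some i)) := by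
  have hφd : HasFDerivAt φ (fderiv ℝ φ (x none)) (x none) :=
    ((hφ.differentiable (by simp)) (x none)).hasFDerivAt
  have hψd : HasFDerivAt ψ (fderiv ℝ ψ (fun i => x (some i))) (fun i => x (some i)) :=
    ((hψ.differentiable (by simp)) _).hasFDerivAt
  have hn : HasFDerivAt (fun x : Option I → E3 => x none)
      (ContinuousLinearMap.proj (R := ℝ) (φ := fun _ : Option I => E3) none) x :=
    (ContinuousLinearMap.proj (R := ℝ) (φ := fun _ : Option I => E3) none).hasFDerivAt
  have hs : HasFDerivAt (fun x : Option I → E3 => (fun i : I => x (some i)))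
      (ContinuousLinearMap.pi (R := ℝ) (fun i : I =>
        ContinuousLinearMap.proj (R := ℝ) (φ := fun _ : Option I => E3) (some i))) x :=
    (ContinuousLinearMap.pi (R := ℝ) (fun i : I =>
        ContinuousLinearMap.proj (R := ℝ) (φ := fun _ : Option I => E3) (some i))).hasFDerivAt
  have h1 := HasFDerivAt.comp x hφd hn
  have h2 := HasFDerivAt.comp x hψd hs
  have h3 := (Complex.ofRealCLM.hasFDerivAt (x := φ (x none))).comp x h1
  have h4 := HasFDerivAt.mul h3 h2
  have h5 : HasFDerivAt (fun x : Option I → E3 =>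
    ((φ (x none) : ℝ) : ℂ) * ψ (fun i => x (some i))) _ x := h4
  rw [h5.fderiv]
  simp [mul_comm]

theorem q985_coul {S : Type} (D : Species S) {I : Type} [Fintype I]
    [DecidableEq I] (sp : I → S) (s : S) (x : Option I → E3) :
    coul D (fun o : Option I => o.elim s sp) x = coul D sp (fun i => x (some i)) +
      ∑ i, D.charge s * D.charge (sp i) * (1 / ‖x none - x (some i)‖) := by
  unfold coul
  simp only [Fintype.sum_option, Option.elim, if_true, reduceCtorEq, if_false, Option.some.injEq,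
    zero_add, Finset.sum_add_distrib]
  have h : ∑ i, D.charge (sp i) * D.charge s / ‖x (some i) - x none‖
      = ∑ i, D.charge s * D.charge (sp i) * (1 / ‖x none - x (some i)‖) := by
    refine Finset.sum_congr rfl fun i _ => ?_
    rw [norm_sub_rev]
    ring
  have h' : ∑ i, D.charge s * D.charge (sp i) / ‖x none - x (some i)‖
      = ∑ i, D.charge s * D.charge (sp i) * (1 / ‖x none - x (some i)‖) := by
    refine Finset.sum_congr rfl fun i _ => ?_
    ring
  rw [h, h']
  ring

theorem q985_point {S : Type} (D : Species S) {I : Type} [Fintype I]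
    [DecidableEq I] (sp : I → S) (s : S) (φ : E3 → ℝ) (ψ : (I → E3) → ℂ)
    (hφ : ContDiff ℝ SM φ) (hψ : ContDiff ℝ SM ψ) (x : Option I → E3) :
    ((∑ o, kin D (fun o : Option I => o.elim s sp) o
        (fun x : Option I → E3 => ((φ (x none) : ℝ) : ℂ) * ψ (fun i => x (some i))) x) +
      coul D (fun o : Option I => o.elim s sp) x *
        ‖((φ (x none) : ℝ) : ℂ) * ψ (fun i => x (some i))‖ ^ 2)
    = (1 / (2 * D.mass s)) *
        ((∑ k : Fin 3, (fderiv ℝ φ (x none) (EuclideanSpace.single k (1 : ℝ))) ^ 2) *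
          ‖ψ (fun i => x (some i))‖ ^ 2)
      + (φ (x none)) ^ 2 * ((∑ i, kin D sp i ψ (fun i => x (some i))) +
          coul D sp (fun i => x (some i)) * ‖ψ (fun i => x (some i))‖ ^ 2)
      + ∑ i, D.charge s * D.charge (sp i) * ((1 / ‖x none - x (some i)‖) *
          ((φ (x none)) ^ 2 * ‖ψ (fun i => x (some i))‖ ^ 2)) := by
  have hN : ‖((φ (x none) : ℝ) : ℂ) * ψ (fun i => x (some i))‖ ^ 2
      = φ (x none) ^ 2 * ‖ψ (fun i => x (some i))‖ ^ 2 := by
    rw [norm_mul, mul_pow, Complex.norm_real, Real.norm_eq_abs, sq_abs]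
  have hk0 : kin D (fun o : Option I => o.elim s sp) none
        (fun x : Option I → E3 => ((φ (x none) : ℝ) : ℂ) * ψ (fun i => x (some i))) x
      = (1 / (2 * D.mass s)) *
        ((∑ k : Fin 3, (fderiv ℝ φ (x none) (EuclideanSpace.single k (1 : ℝ))) ^ 2) *
          ‖ψ (fun i => x (some i))‖ ^ 2) := by
    unfold kin
    simp only [Option.elim]
    rw [Finset.sum_mul]
    congr 1
    refine Finset.sum_congr rfl fun k _ => ?_
    rw [q985_fd φ ψ hφ hψ]
    have hz : (fun i : I => (Pi.single (none : Option I) (EuclideanSpace.single k (1 : ℝ)) :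
        Option I → E3) (some i)) = 0 := by
      funext i
      simp
    rw [hz, map_zero, mul_zero, zero_add, Pi.single_eq_same, norm_mul, mul_pow,
      Complex.norm_real, Real.norm_eq_abs, sq_abs]
  have hks : ∀ i : I, kin D (fun o : Option I => o.elim s sp) (some i)
        (fun x : Option I → E3 => ((φ (x none) : ℝ) : ℂ) * ψ (fun i => x (some i))) x
      = φ (x none) ^ 2 * kin D sp i ψ (fun i => x (some i)) := by
    intro i
    unfold kin
    simp only [Option.elim]
    rw [mul_left_comm]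
    congr 1
    rw [Finset.mul_sum]
    refine Finset.sum_congr rfl fun k _ => ?_
    rw [q985_fd φ ψ hφ hψ]
    have hz : (fun j : I => (Pi.single (some i : Option I) (EuclideanSpace.single k (1 : ℝ)) :
        Option I → E3) (some j)) = Pi.single i (EuclideanSpace.single k (1 : ℝ)) := by
      funext j
      by_cases hj : j = i
      · subst hj
        simp
      · rw [Pi.single_eq_of_ne hj, Pi.single_eq_of_ne (by simpa using hj)]
    rw [hz, Pi.single_eq_of_ne (by simp), map_zero, Complex.ofReal_zero, zero_mul, add_zero,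
      norm_mul, mul_pow, Complex.norm_real, Real.norm_eq_abs, sq_abs]
  rw [Fintype.sum_option, hk0, hN, q985_coul]
  simp only [hks]
  have : (∑ i, D.charge s * D.charge (sp i) * (1 / ‖x none - x (some i)‖)) *
      (φ (x none) ^ 2 * ‖ψ (fun i => x (some i))‖ ^ 2)
      = ∑ i, D.charge s * D.charge (sp i) * ((1 / ‖x none - x (some i)‖) *
          ((φ (x none)) ^ 2 * ‖ψ (fun i => x (some i))‖ ^ 2)) := by
    rw [Finset.sum_mul]
    refine Finset.sum_congr rfl fun i _ => ?_
    ring
  rw [← Finset.mul_sum, add_mul, this]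
  ring

theorem q985_add3 {α : Type*} [MeasurableSpace α] {μ : Measure α} {A B C : α → ℝ}
    (hA : Integrable A μ) (hB : Integrable B μ) (hC : Integrable C μ) :
    ∫ x, (A x + B x + C x) ∂μ = ∫ x, A x ∂μ + ∫ x, B x ∂μ + ∫ x, C x ∂μ := by
  have h1 : ∫ x, (A x + B x) ∂μ = ∫ x, A x ∂μ + ∫ x, B x ∂μ := integral_add hA hB
  have h2 : ∫ x, ((A x + B x) + C x) ∂μ = ∫ x, (A x + B x) ∂μ + ∫ x, C x ∂μ :=
    integral_add (hA.add hB) hC
  rw [h2, h1]

theorem q985_ins0_in {S : Type} (D : Species S) {I : Type} (σ0 : Fin D.g) (φ : E3 → ℝ)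
    (Ψ : Wave D I) (τ' : I → Fin D.g) :
    ins0 D σ0 φ Ψ (fun o => o.elim σ0 τ')
      = fun x => ((φ (x none) : ℝ) : ℂ) * Ψ τ' (fun i => x (some i)) := by
  funext x
  show (if σ0 = σ0 then ((φ (x none) : ℝ) : ℂ) * Ψ τ' (fun i => x (some i)) else 0) = _
  rw [if_pos rfl]

theorem q985_ins0_out {S : Type} (D : Species S) {I : Type} (σ0 : Fin D.g) (φ : E3 → ℝ)
    (Ψ : Wave D I) (τ : Option I → Fin D.g) (h : τ none ≠ σ0) :
    ins0 D σ0 φ Ψ τ = fun _ => 0 := by
  funext x
  unfold ins0
  rw [if_neg h]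

theorem ins0_num {S : Type} (D : Species S) {I : Type} [Fintype I]
    [DecidableEq I] (sp : I → S) (ℓ : ℝ) (s : S) (σ0 : Fin D.g) (φ : E3 → ℝ)
    (hφ : ContDiff ℝ SM φ) (hφc : HasCompactSupport φ) (hφ1 : ∫ z, φ z ^ 2 = 1)
    (Ψ : Wave D I) (hΨ : IsState D sp ℓ Ψ) :
    nrm2 D (ins0 D σ0 φ Ψ) = nrm2 D Ψ ∧
      energy D (fun o : Option I => o.elim s sp) (ins0 D σ0 φ Ψ) = energy D sp Ψ +
        (1 / (2 * D.mass s)) * grad2 φ * nrm2 D Ψ + D.charge s * mean D sp Ψ (pot φ) ∧
      (∀ u : E3 → ℝ, Continuous u → mean D (fun o : Option I => o.elim s sp) (ins0 D σ0 φ Ψ) u =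
        mean D sp Ψ u + D.charge s * (∫ z, u z * φ z ^ 2) * nrm2 D Ψ) := by
  classical
  have hφcont : Continuous φ := hφ.continuous
  have hφ2 : Continuous (fun z => φ z ^ 2) := hφcont.pow 2
  have hφ2c : HasCompactSupport (fun z => φ z ^ 2) :=
    hφc.mono (by intro z hz; simp only [Function.mem_support] at hz ⊢; exact fun h => hz (by simp [h]))
  have hφ2i : Integrable (fun z => φ z ^ 2) := hφ2.integrable_of_hasCompactSupport hφ2c
  have hΨcont : ∀ τ, Continuous (Ψ τ) := fun τ => (hΨ.smooth τ).continuous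
  have hΨ2 : ∀ τ, Continuous (fun y => ‖Ψ τ y‖ ^ 2) := fun τ => ((hΨcont τ).norm).pow 2
  have hΨ2c : ∀ τ, HasCompactSupport (fun y => ‖Ψ τ y‖ ^ 2) := fun τ =>
    (hΨ.compact τ).mono (by intro z hz; simp only [Function.mem_support] at hz ⊢; exact fun h => hz (by simp [h]))
  have hS := fun τ => int_state D sp ℓ Ψ hΨ τ
  have hnrm : ∀ (x : Option I → E3) (τ' : I → Fin D.g),
      ‖((φ (x none) : ℝ) : ℂ) * Ψ τ' (fun i => x (some i))‖ ^ 2
      = (fun z => φ z ^ 2) (x none) * (fun y => ‖Ψ τ' y‖ ^ 2) (fun i => x (some i)) := by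
    intro x τ'
    simp only
    rw [norm_mul, mul_pow, Complex.norm_real, Real.norm_eq_abs, sq_abs]
  refine ⟨?_, ?_, ?_⟩
  · -- norm
    unfold nrm2
    rw [q985_sumtau σ0 (fun τ => ∫ x, ‖ins0 D σ0 φ Ψ τ x‖ ^ 2)
      (fun τ hτ => by simp [q985_ins0_out D σ0 φ Ψ τ hτ])]
    refine Finset.sum_congr rfl fun τ' _ => ?_
    simp only [q985_ins0_in, hnrm]
    rw [q985_prod (fun z => φ z ^ 2) (fun y => ‖Ψ τ' y‖ ^ 2)]
    rw [hφ1, one_mul]
  · -- energy
    unfold energy
    rw [q985_sumtau σ0 (fun τ => ∫ x, ((∑ i, kin D (fun o : Option I => o.elim s sp) i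
        (ins0 D σ0 φ Ψ τ) x) + coul D (fun o : Option I => o.elim s sp) x *
          ‖ins0 D σ0 φ Ψ τ x‖ ^ 2))
      (fun τ hτ => by simp [q985_ins0_out D σ0 φ Ψ τ hτ, kin])]
    have hterm : ∀ τ' : I → Fin D.g,
        (∫ x, ((∑ i, kin D (fun o : Option I => o.elim s sp) i
        (ins0 D σ0 φ Ψ (fun o => o.elim σ0 τ')) x) + coul D (fun o : Option I => o.elim s sp) x *
          ‖ins0 D σ0 φ Ψ (fun o => o.elim σ0 τ') x‖ ^ 2))
        = (1 / (2 * D.mass s)) * (grad2 φ * ∫ y, ‖Ψ τ' y‖ ^ 2)
          + (∫ y, ((∑ i, kin D sp i (Ψ τ') y) + coul D sp y * ‖Ψ τ' y‖ ^ 2))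
          + D.charge s * ∫ y, (∑ i, D.charge (sp i) * pot φ (y i)) * ‖Ψ τ' y‖ ^ 2 := by
      intro τ'
      simp only [q985_ins0_in]
      simp only [q985_point D sp s φ (Ψ τ') hφ (hΨ.smooth τ')]
      have hgc : Continuous (fun z => ∑ k : Fin 3,
          (fderiv ℝ φ z (EuclideanSpace.single k (1 : ℝ))) ^ 2) := by
        refine continuous_finsetSum _ fun k _ => ?_
        exact ((hφ.continuous_fderiv (by simp)).clm_apply continuous_const).pow 2
      have hgcc : HasCompactSupport (fun z => ∑ k : Fin 3,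
          (fderiv ℝ φ z (EuclideanSpace.single k (1 : ℝ))) ^ 2) := by
        refine (hφc.fderiv (𝕜 := ℝ)).mono ?_
        intro z hz
        simp only [Function.mem_support] at hz ⊢
        exact fun h => hz (by simp [h])
      have hgi : Integrable (fun z => ∑ k : Fin 3,
          (fderiv ℝ φ z (EuclideanSpace.single k (1 : ℝ))) ^ 2) :=
        hgc.integrable_of_hasCompactSupport hgcc
      have hHi : Integrable (fun y => (∑ i, kin D sp i (Ψ τ') y) +
          coul D sp y * ‖Ψ τ' y‖ ^ 2) :=
        (integrable_finsetSum _ fun i _ => (hS τ').2.1 i).add (hS τ').2.2.1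
      have i1 := (q985_prodi (fun z => ∑ k : Fin 3,
          (fderiv ℝ φ z (EuclideanSpace.single k (1 : ℝ))) ^ 2) (fun y => ‖Ψ τ' y‖ ^ 2) hgi
          (hS τ').1).const_mul (1 / (2 * D.mass s))
      have i2 := q985_prodi (fun z => φ z ^ 2) (fun y => (∑ i, kin D sp i (Ψ τ') y) +
          coul D sp y * ‖Ψ τ' y‖ ^ 2) hφ2i hHi
      have i3 : ∀ i : I, Integrable (fun x : Option I → E3 =>
          D.charge s * D.charge (sp i) * ((1 / ‖x none - x (some i)‖) *
          ((φ (x none)) ^ 2 * ‖Ψ τ' (fun i => x (some i))‖ ^ 2))) := fun i =>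
        (q985_cinti i (fun z => φ z ^ 2) (fun y => ‖Ψ τ' y‖ ^ 2) hφ2 hφ2c (hΨ2 τ')
          (hΨ2c τ')).const_mul _
      have i3' : Integrable (fun x : Option I → E3 =>
          ∑ i, D.charge s * D.charge (sp i) * ((1 / ‖x none - x (some i)‖) *
          ((φ (x none)) ^ 2 * ‖Ψ τ' (fun i => x (some i))‖ ^ 2))) :=
        integrable_finsetSum _ fun i _ => i3 i
      refine (q985_add3 i1 i2 i3').trans ?_
      rw [integral_const_mul,
        q985_prod (fun z => ∑ k : Fin 3,
          (fderiv ℝ φ z (EuclideanSpace.single k (1 : ℝ))) ^ 2) (fun y => ‖Ψ τ' y‖ ^ 2),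
        q985_prod (fun z => φ z ^ 2) (fun y => (∑ i, kin D sp i (Ψ τ') y) +
          coul D sp y * ‖Ψ τ' y‖ ^ 2), hφ1, one_mul,
        integral_finsetSum _ (fun i _ => i3 i)]
      congr 1
      have hpc := (pot_props φ hφ hφc).1
      have hpi : ∀ i : I, Integrable (fun y : I → E3 => pot φ (y i) * ‖Ψ τ' y‖ ^ 2) := by
        intro i
        refine Continuous.integrable_of_hasCompactSupport ?_ ?_
        · exact (hpc.comp (continuous_apply i)).mul (hΨ2 τ')
        · exact (hΨ2c τ').mul_left
      have e1 : ∀ i : I, ∫ x : Option I → E3,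
          D.charge s * D.charge (sp i) * ((1 / ‖x none - x (some i)‖) *
          ((φ (x none)) ^ 2 * ‖Ψ τ' (fun i => x (some i))‖ ^ 2))
          = D.charge s * (D.charge (sp i) * ∫ y : I → E3, pot φ (y i) * ‖Ψ τ' y‖ ^ 2) := by
        intro i
        rw [integral_const_mul, q985_cint i (fun z => φ z ^ 2) (fun y => ‖Ψ τ' y‖ ^ 2) hφ2 hφ2c
          (hΨ2 τ') (hΨ2c τ'), mul_assoc]
        rfl
      simp only [e1]
      rw [← Finset.mul_sum]
      congr 1
      have e2 : ∀ i : I, D.charge (sp i) * ∫ y : I → E3, pot φ (y i) * ‖Ψ τ' y‖ ^ 2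
          = ∫ y : I → E3, D.charge (sp i) * (pot φ (y i) * ‖Ψ τ' y‖ ^ 2) := fun i =>
        (integral_const_mul _ _).symm
      simp only [e2]
      rw [← integral_finsetSum _ (fun i _ => (hpi i).const_mul _)]
      congr 1
      funext y
      rw [Finset.sum_mul]
      refine Finset.sum_congr rfl fun i _ => ?_
      ring
    simp only [hterm]
    rw [Finset.sum_add_distrib, Finset.sum_add_distrib, ← Finset.mul_sum, ← Finset.mul_sum,
      ← Finset.mul_sum]
    unfold nrm2 mean
    ring
  · intro u hu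
    unfold mean nrm2
    rw [q985_sumtau σ0 (fun τ => ∫ x : Option I → E3, (∑ i : Option I, D.charge (i.elim s sp) * u (x i)) *
        ‖ins0 D σ0 φ Ψ τ x‖ ^ 2)
      (fun τ hτ => by simp [q985_ins0_out D σ0 φ Ψ τ hτ])]
    have hterm : ∀ τ' : I → Fin D.g,
        (∫ x : Option I → E3, (∑ i : Option I, D.charge (i.elim s sp) * u (x i)) *
        ‖ins0 D σ0 φ Ψ (fun o => o.elim σ0 τ') x‖ ^ 2)
        = (∫ y, (∑ i, D.charge (sp i) * u (y i)) * ‖Ψ τ' y‖ ^ 2)
          + D.charge s * (∫ z, u z * φ z ^ 2) * ∫ y, ‖Ψ τ' y‖ ^ 2 := by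
      intro τ'
      have huc : Continuous (fun z => u z * φ z ^ 2) := hu.mul hφ2
      have hucc : HasCompactSupport (fun z => u z * φ z ^ 2) := hφ2c.mul_left
      have hui : Integrable (fun z => u z * φ z ^ 2) := huc.integrable_of_hasCompactSupport hucc
      have hpt : ∀ x : Option I → E3, (∑ i : Option I, D.charge (i.elim s sp) * u (x i)) *
        ‖ins0 D σ0 φ Ψ (fun o => o.elim σ0 τ') x‖ ^ 2
        = (fun z => φ z ^ 2) (x none) * (fun y : I → E3 =>
            (∑ i, D.charge (sp i) * u (y i)) * ‖Ψ τ' y‖ ^ 2) (fun i => x (some i))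
          + D.charge s * ((fun z => u z * φ z ^ 2) (x none) *
            (fun y : I → E3 => ‖Ψ τ' y‖ ^ 2) (fun i => x (some i))) := by
        intro x
        rw [q985_ins0_in, Fintype.sum_option]
        simp only [hnrm, Option.elim]
        ring
      simp only [hpt]
      have i1 := q985_prodi (fun z => φ z ^ 2) (fun y : I → E3 =>
            (∑ i, D.charge (sp i) * u (y i)) * ‖Ψ τ' y‖ ^ 2) hφ2i ((hS τ').2.2.2.2 u hu)
      have i2 := (q985_prodi (fun z => u z * φ z ^ 2)
            (fun y : I → E3 => ‖Ψ τ' y‖ ^ 2) hui (hS τ').1).const_mul (D.charge s)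
      have e1 := q985_prod (fun z => φ z ^ 2) (fun y : I → E3 =>
            (∑ i, D.charge (sp i) * u (y i)) * ‖Ψ τ' y‖ ^ 2)
      have e2 := q985_prod (fun z => u z * φ z ^ 2)
            (fun y : I → E3 => ‖Ψ τ' y‖ ^ 2)
      rw [hφ1, one_mul] at e1
      rw [← e1, mul_assoc, ← e2, ← integral_const_mul]
      exact integral_add i1 i2
    simp only [hterm]
    rw [Finset.sum_add_distrib, ← Finset.mul_sum]

end Pool.Agent.Helper985.CP
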