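import Pool.Agent.Helper985.CP.M_exists_bump
import Pool.Agent.Helper985.CP.M_insert_one
import Pool.Agent.Helper985.CP.M_pot_props
import Pool.Agent.Helper985.CP.Defs

set_option autoImplicit false

open MeasureTheory
open scoped Topology

namespace Pool.Agent.Helper985.CP





theorem insert_pair_nrm2_nonneg {S : Type} (D : Species S) {I : Type} [Fintype I]
    [DecidableEq I] (Ψ : Wave D I) : 0 ≤ nrm2 D Ψ :=
  Finset.sum_nonneg fun _ _ => integral_nonneg fun _ => sq_nonneg _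

theorem insert_pair {S : Type} [Fintype S] (D : Species S) (hD : D.Valid) (r : ℝ)
    (hr : 0 < r) : ∃ C : ℝ, 0 < C ∧ ∀ (a b : S), D.charge b = -D.charge a →
      ∀ {I : Type} [Fintype I] [DecidableEq I] (sp : I → S) (ℓ : ℝ) (x0 : E3),
        Metric.closedBall x0 r ⊆ cube ℓ → ∀ (Ψ : Wave D I), IsState D sp ℓ Ψ →
          (∀ τ x i, x i ∈ Metric.closedBall x0 r → Ψ τ x = 0) →
          ∃ Φ : Wave D (Option (Option I)),
            IsState D (fun o => o.elim b (fun o' => o'.elim a sp)) ℓ Φ ∧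
            nrm2 D Φ = nrm2 D Ψ ∧
            energy D (fun o => o.elim b (fun o' => o'.elim a sp)) Φ ≤
              energy D sp Ψ + C * nrm2 D Ψ := by
  obtain ⟨T, hT, hbump⟩ := exists_bump r hr
  have hm : ∀ s : S, 0 ≤ 1 / (2 * D.mass s) := fun s => by
    have := hD.mass_pos s
    positivity
  set M : ℝ := ∑ s : S, 1 / (2 * D.mass s) with hM
  have hM0 : 0 ≤ M := Finset.sum_nonneg fun s _ => hm s
  have hms : ∀ s : S, 1 / (2 * D.mass s) ≤ M := fun s =>
    Finset.single_le_sum (f := fun s : S => 1 / (2 * D.mass s)) (fun s _ => hm s)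
      (Finset.mem_univ s)
  refine ⟨2 * (M * T) + 1, by positivity, ?_⟩
  intro a b hab I _ _ sp ℓ x0 hball Ψ hΨ hv
  obtain ⟨φ, hφ, hφc, hφs, hφ1, hφT⟩ := hbump x0
  obtain ⟨hpc, hp0⟩ := pot_props φ hφ hφc
  have hne : b ≠ a := by
    rintro rfl
    have h1 := hD.charge_ne b
    apply h1
    linarith
  have hsc : tsupport φ ⊆ cube ℓ := hφs.trans hball
  obtain ⟨Φ1, hΦ1, hn1, he1, hmean1, hvan1⟩ := insert_one D hD sp ℓ a φ hφ hφc hsc hφ1 Ψ hΨ
    (fun τ x i _ hx => hv τ x i (hφs hx))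
  have hv2 : ∀ (τ : Option I → Fin D.g) (x : Option I → E3) (o : Option I),
      o.elim a sp = b → x o ∈ tsupport φ → Φ1 τ x = 0 := by
    intro τ x o ho hx
    cases o with
    | none => exact absurd ho.symm hne
    | some i =>
      exact hvan1 b hne (tsupport φ) (fun τ x i _ hx => hv τ x i (hφs hx)) τ x i ho hx
  obtain ⟨Φ2, hΦ2, hn2, he2, -, -⟩ := insert_one D hD (fun o : Option I => o.elim a sp) ℓ b φ hφ
    hφc hsc hφ1 Φ1 hΦ1 hv2
  refine ⟨Φ2, hΦ2, hn2.trans hn1, ?_⟩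
  rw [he2, he1, hn1, hmean1 _ hpc, hab]
  have hN := insert_pair_nrm2_nonneg D Ψ
  have hI : 0 ≤ ∫ z, pot φ z * φ z ^ 2 :=
    integral_nonneg fun z => mul_nonneg (hp0 z) (sq_nonneg _)
  have hk : ∀ s : S, 1 / (2 * D.mass s) * grad2 φ ≤ M * T := fun s =>
    (mul_le_mul_of_nonneg_left hφT (hm s)).trans (mul_le_mul_of_nonneg_right (hms s) hT.le)
  have hka := mul_le_mul_of_nonneg_right (hk a) hN
  have hkb := mul_le_mul_of_nonneg_right (hk b) hN
  have hc : 0 ≤ D.charge a ^ 2 * ((∫ z, pot φ z * φ z ^ 2) * nrm2 D Ψ) := by positivity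
  nlinarith

end Pool.Agent.Helper985.CP
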