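import Pool.Agent.Helper985.CP.Defs

set_option autoImplicit false

open MeasureTheory
open scoped Topology

namespace Pool.Agent.Helper985.CP


theorem h21_ball_int (R : ℝ) (hR : 0 < R) :
    ∫⁻ y : E3, ENNReal.ofReal (1 / ‖y‖) * (Metric.closedBall (0 : E3) R).indicator 1 y < ⊤ := by
  have h1 : Integrable (fun y : E3 => (fun r : ℝ => if r ≤ R then 1 / r else 0) ‖y‖) := by
    rw [integrable_fun_norm_addHaar (volume : Measure E3) (f := fun r : ℝ => if r ≤ R then 1 / r else 0)]
    have hdim : Module.finrank ℝ E3 = 3 := by simp
    rw [hdim]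
    have hm : Measurable (fun y : ℝ => y ^ (3 - 1) • (if y ≤ R then 1 / y else 0)) := by
      refine Measurable.mul (f := fun y : ℝ => y ^ (3 - 1)) (g := fun y : ℝ => (if y ≤ R then 1 / y else 0)) (by fun_prop) ?_
      exact Measurable.ite measurableSet_Iic (by fun_prop) measurable_const
    have h2 : IntegrableOn (fun y : ℝ => (Set.Icc 0 R).indicator (fun _ => R) y) (Set.Ioi 0) := by
      apply Integrable.integrableOn
      rw [integrable_indicator_iff measurableSet_Icc]
      exact (continuous_const).integrableOn_Icc
    refine Integrable.mono' h2 hm.aestronglyMeasurable ?_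
    rw [ae_restrict_iff' measurableSet_Ioi]
    refine Filter.Eventually.of_forall (fun y hy => ?_)
    have hy0 : 0 < y := hy
    by_cases hyR : y ≤ R
    · rw [if_pos hyR, Set.indicator_of_mem (show y ∈ Set.Icc 0 R from ⟨hy0.le, hyR⟩)]
      have : y ^ (3 - 1) • (1 / y) = y := by
        simp only [smul_eq_mul]
        field_simp
      rw [this, Real.norm_eq_abs, abs_of_pos hy0]
      exact hyR
    · rw [if_neg hyR, Set.indicator_of_notMem (fun h => hyR h.2)]
      simp
  have h3 := h1.lintegral_lt_top
  refine lt_of_le_of_lt (lintegral_mono (fun y => ?_)) h3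
  by_cases hy : ‖y‖ ≤ R
  · rw [Set.indicator_of_mem (by simpa using hy)]
    simp [hy]
  · rw [Set.indicator_of_notMem (by simpa using hy)]
    simp

theorem h21_shift_int (R : ℝ) (hR : 0 < R) (a : E3) (ha : ‖a‖ ≤ R) :
    ∫⁻ y : E3, ENNReal.ofReal (1 / ‖y - a‖) * (Metric.closedBall (0 : E3) R).indicator 1 y ≤
    ∫⁻ y : E3, ENNReal.ofReal (1 / ‖y‖) * (Metric.closedBall (0 : E3) (2 * R)).indicator 1 y := by
  have h1 := lintegral_sub_right_eq_self (μ := (volume : Measure E3))
    (fun y : E3 => ENNReal.ofReal (1 / ‖y‖) * (Metric.closedBall (0 : E3) (2 * R)).indicator 1 y) a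
  rw [← h1]
  apply lintegral_mono
  intro y
  apply mul_le_mul_right
  by_cases hy : y ∈ Metric.closedBall (0 : E3) R
  · have h2 : y - a ∈ Metric.closedBall (0 : E3) (2 * R) := by
      rw [mem_closedBall_zero_iff] at hy ⊢
      have := norm_sub_le y a
      linarith
    rw [Set.indicator_of_mem hy, Set.indicator_of_mem h2]
    simp
  · rw [Set.indicator_of_notMem hy]
    simp

theorem h21_main_int {I : Type} [Fintype I] [DecidableEq I] (i j : I) (hij : i ≠ j)
    (R : ℝ) (hR : 0 < R) :
    ∫⁻ x : I → E3, ENNReal.ofReal (1 / ‖x i - x j‖) *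
      (Metric.closedBall (0 : I → E3) R).indicator 1 x < ⊤ := by
  set M : ENNReal := ∫⁻ y : E3, ENNReal.ofReal (1 / ‖y‖) *
    (Metric.closedBall (0 : E3) (2 * R)).indicator 1 y with hM
  have hMt : M < ⊤ := h21_ball_int (2 * R) (by linarith)
  set V : ENNReal := volume (Metric.closedBall (0 : E3) R) with hV
  have hV0 : V ≠ 0 := (Metric.measure_closedBall_pos volume (0 : E3) hR).ne'
  have hVt : V ≠ ⊤ := measure_closedBall_lt_top.ne
  set c : ENNReal := M / V with hc
  have hct : c < ⊤ := ENNReal.div_lt_top hMt.ne hV0
  have hmem : ∀ (x : I → E3), x ∈ Metric.closedBall (0 : I → E3) R ↔ ∀ k, ‖x k‖ ≤ R := by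
    intro x
    rw [mem_closedBall_zero_iff, pi_norm_le_iff_of_nonneg hR.le]
  have hmS : MeasurableSet (Metric.closedBall (0 : I → E3) R) := Metric.isClosed_closedBall.measurableSet
  have hle : ∫⁻ x : I → E3, ENNReal.ofReal (1 / ‖x i - x j‖) *
      (Metric.closedBall (0 : I → E3) R).indicator 1 x ≤
      ∫⁻ x : I → E3, c * (Metric.closedBall (0 : I → E3) R).indicator 1 x := by
    have hm1 : Measurable (fun x : I → E3 => ENNReal.ofReal (1 / ‖x i - x j‖) *
      (Metric.closedBall (0 : I → E3) R).indicator 1 x) := by
      apply Measurable.mul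
      · fun_prop
      · exact measurable_one.indicator hmS
    have hm2 : Measurable (fun x : I → E3 => c * (Metric.closedBall (0 : I → E3) R).indicator (1 : (I → E3) → ENNReal) x) := by
      apply Measurable.const_mul
      exact measurable_one.indicator hmS
    refine lintegral_le_of_lmarginal_le (μ := fun _ : I => (volume : Measure E3)) {i} hm1 hm2 ?_
    rw [lmarginal_singleton, lmarginal_singleton]
    intro x
    simp only [Function.update_self, Function.update_of_ne hij.symm]
    by_cases hx : ∀ k, k ≠ i → ‖x k‖ ≤ R
    · have hup : ∀ y : E3, (Metric.closedBall (0 : I → E3) R).indicator (1 : (I → E3) → ENNReal) (Function.update x i y)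
          = (Metric.closedBall (0 : E3) R).indicator (1 : E3 → ENNReal) y := by
        intro y
        by_cases hy : ‖y‖ ≤ R
        · rw [Set.indicator_of_mem, Set.indicator_of_mem]
          · rfl
          · rw [mem_closedBall_zero_iff]; exact hy
          · rw [hmem]
            intro k
            by_cases hk : k = i
            · subst hk; simpa using hy
            · rw [Function.update_of_ne hk]; exact hx k hk
        · rw [Set.indicator_of_notMem, Set.indicator_of_notMem]
          · rw [mem_closedBall_zero_iff]; exact hy
          · rw [hmem]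
            intro h
            apply hy
            simpa using h i
      simp only [hup]
      refine (h21_shift_int R hR (x j) (hx j hij.symm)).trans ?_
      rw [lintegral_const_mul _ (measurable_one.indicator Metric.isClosed_closedBall.measurableSet),
        lintegral_indicator_one Metric.isClosed_closedBall.measurableSet, ← hV, ← hM, hc,
        ENNReal.div_mul_cancel hV0 hVt]
    · have hup : ∀ y : E3, (Metric.closedBall (0 : I → E3) R).indicator (1 : (I → E3) → ENNReal) (Function.update x i y)
          = 0 := by
        intro y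
        rw [Set.indicator_of_notMem]
        rw [hmem]
        intro h
        apply hx
        intro k hk
        have := h k
        rwa [Function.update_of_ne hk] at this
      simp [hup]
  refine lt_of_le_of_lt hle ?_
  rw [lintegral_const_mul _ (measurable_one.indicator hmS), lintegral_indicator_one hmS]
  exact ENNReal.mul_lt_top hct measure_closedBall_lt_top

theorem int_coul {I : Type} [Fintype I] [DecidableEq I] (i j : I) (hij : i ≠ j)
    (u : (I → E3) → ℝ) (hu : Continuous u) (huc : HasCompactSupport u) :
    Integrable (fun x => (1 / ‖x i - x j‖) * u x) := by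
  obtain ⟨R0, hR0⟩ := (huc.isCompact.isBounded).subset_closedBall (0 : I → E3)
  obtain ⟨C, hC⟩ := huc.exists_bound_of_continuous hu
  set R := max R0 1 with hRdef
  have hR : 0 < R := lt_of_lt_of_le one_pos (le_max_right _ _)
  have hsub : tsupport u ⊆ Metric.closedBall (0 : I → E3) R :=
    hR0.trans (Metric.closedBall_subset_closedBall (le_max_left _ _))
  refine ⟨?_, ?_⟩
  · apply Measurable.aestronglyMeasurable
    apply Measurable.mul
    · fun_prop
    · exact hu.measurable
  · unfold HasFiniteIntegral
    have h1 := h21_main_int i j hij R hR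
    refine lt_of_le_of_lt (lintegral_mono (g := fun x : I → E3 => ENNReal.ofReal C *
      (ENNReal.ofReal (1 / ‖x i - x j‖) * (Metric.closedBall (0 : I → E3) R).indicator 1 x))
      (fun x => ?_)) ?_
    · by_cases hx : x ∈ Metric.closedBall (0 : I → E3) R
      · simp only [Set.indicator_of_mem hx, Pi.one_apply, mul_one]
        rw [enorm_mul, mul_comm]
        apply mul_le_mul'
        · rw [← ofReal_norm_eq_enorm]
          exact ENNReal.ofReal_le_ofReal (hC x)
        · rw [← ofReal_norm_eq_enorm, Real.norm_of_nonneg (by positivity)]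
      · have : u x = 0 := by
          by_contra h
          exact hx (hsub (subset_tsupport u h))
        simp [this]
    · rw [lintegral_const_mul']
      · exact ENNReal.mul_lt_top ENNReal.ofReal_lt_top h1
      · exact ENNReal.ofReal_ne_top

end Pool.Agent.Helper985.CP
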