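import Pool.Agent.Helper985.CP.M_insert_one
import Pool.Agent.Helper985.CP.M_int_state
import Pool.Agent.Helper985.CP.M_pot_props
import Pool.Agent.Helper985.CP.M_slice_basic
import Pool.Agent.Helper985.CP.M_slice_energy
import Pool.Agent.Helper985.CP.M_slice_state
import Pool.Agent.Helper985.CP.Defs

set_option autoImplicit false

open MeasureTheory
open scoped Topology

namespace Pool.Agent.Helper985.CP








theorem move_none {S : Type} (D : Species S) (hD : D.Valid) {I : Type} [Fintype I]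
    [DecidableEq I] (sp : Option I → S) (ℓ : ℝ) (E : ℝ)
    (hE : ∀ Φ, IsState D sp ℓ Φ → E * nrm2 D Φ ≤ energy D sp Φ) (φ : E3 → ℝ)
    (hφ : ContDiff ℝ SM φ) (hφc : HasCompactSupport φ) (hφs : tsupport φ ⊆ cube ℓ)
    (hφ1 : ∫ z, φ z ^ 2 = 1) (Ψ : Wave D (Option I)) (hΨ : IsState D sp ℓ Ψ)
    (hv : ∀ τ x i, x i ∈ tsupport φ → Ψ τ x = 0) :
    pe D sp none Ψ ≤ D.charge (sp none) * mean D sp Ψ (pot φ) +
      (energy D sp Ψ - E * nrm2 D Ψ) +
      (1 / (2 * D.mass (sp none))) * grad2 φ * nrm2 D Ψ := by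
  have hsp : (fun o : Option I => o.elim (sp none) (fun i => sp (some i))) = sp := by
    funext o
    cases o <;> rfl
  obtain ⟨hpc, hpn⟩ := pot_props φ hφ hφc
  obtain ⟨⟨hn1, hn2⟩, hm⟩ := slice_basic D sp ℓ Ψ hΨ
  obtain ⟨hm1, hm2⟩ := hm (pot φ) hpc
  obtain ⟨he1, he2⟩ := slice_energy D sp ℓ Ψ hΨ
  obtain ⟨t, ht⟩ : ∃ t, t = (1 / (2 * D.mass (sp none))) * grad2 φ := ⟨_, rfl⟩
  obtain ⟨c, hc⟩ : ∃ c, c = D.charge (sp none) := ⟨_, rfl⟩
  rw [← hc] at hm2
  rw [← ht, ← hc]
  have hpt : ∀ σ z, E * nrm2 D (slice D σ z Ψ) ≤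
      energy D (fun i => sp (some i)) (slice D σ z Ψ) + t * nrm2 D (slice D σ z Ψ) +
        c * mean D (fun i => sp (some i)) (slice D σ z Ψ) (pot φ) := by
    intro σ z
    obtain ⟨Φ, h1, h2, h3, _, _⟩ := insert_one D hD (fun i => sp (some i)) ℓ (sp none) φ hφ hφc hφs
      hφ1 (slice D σ z Ψ) (slice_state D sp ℓ Ψ hΨ σ z) (by
        intro τ x i _ hx
        exact hv (fun o => o.elim σ τ) (fun o => o.elim z x) (some i) hx)
    rw [hsp] at h1 h3
    have h4 := hE Φ h1
    rw [h2, h3] at h4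
    rw [ht, hc]
    exact h4
  have hint : ∀ σ, E * ∫ z, nrm2 D (slice D σ z Ψ) ≤
      (∫ z, energy D (fun i => sp (some i)) (slice D σ z Ψ)) + t * (∫ z, nrm2 D (slice D σ z Ψ)) +
        c * ∫ z, mean D (fun i => sp (some i)) (slice D σ z Ψ) (pot φ) := by
    intro σ
    have i1 : Integrable (fun z => E * nrm2 D (slice D σ z Ψ)) := (hn1 σ).const_mul E
    have i2 : Integrable (fun z => t * nrm2 D (slice D σ z Ψ)) := (hn1 σ).const_mul t
    have i3 : Integrable (fun z => c * mean D (fun i => sp (some i)) (slice D σ z Ψ) (pot φ)) :=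
      (hm1 σ).const_mul c
    have i4 : Integrable (fun z => energy D (fun i => sp (some i)) (slice D σ z Ψ) +
      t * nrm2 D (slice D σ z Ψ)) := (he1 σ).add i2
    have i5 : Integrable (fun z => energy D (fun i => sp (some i)) (slice D σ z Ψ) +
      t * nrm2 D (slice D σ z Ψ) + c * mean D (fun i => sp (some i)) (slice D σ z Ψ) (pot φ)) :=
      i4.add i3
    have h5 := integral_mono i1 i5 (fun z => hpt σ z)
    rw [integral_const_mul, integral_add i4 i3, integral_add (he1 σ) i2, integral_const_mul,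
      integral_const_mul] at h5
    exact h5
  have hsum := Finset.sum_le_sum (fun σ (_ : σ ∈ (Finset.univ : Finset (Fin D.g))) => hint σ)
  rw [← Finset.mul_sum, Finset.sum_add_distrib, Finset.sum_add_distrib, ← Finset.mul_sum,
    ← Finset.mul_sum, hn2, hm2, he2] at hsum
  have hnn : 0 ≤ c * ∑ τ, ∫ x, c * pot φ (x none) * ‖Ψ τ x‖ ^ 2 := by
    rw [Finset.mul_sum]
    apply Finset.sum_nonneg
    intro τ _
    have h6 : ∀ x : Option I → E3, c * pot φ (x none) * ‖Ψ τ x‖ ^ 2
        = c * (pot φ (x none) * ‖Ψ τ x‖ ^ 2) := fun x => by ring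
    simp only [h6]
    rw [integral_const_mul, ← mul_assoc]
    apply mul_nonneg (mul_self_nonneg c)
    apply integral_nonneg
    intro x
    exact mul_nonneg (hpn _) (sq_nonneg _)
  rw [mul_sub] at hsum
  linarith

end Pool.Agent.Helper985.CP
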