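import Pool.Agent.Helper985.CP.M_energies_basic
import Pool.Agent.Helper985.CP.M_hole
import Pool.Agent.Helper985.CP.M_insert_pair
import Pool.Agent.Helper985.CP.M_nrm2_pos
import Pool.Agent.Helper985.CP.Defs

set_option autoImplicit false

open MeasureTheory
open scoped Topology

namespace Pool.Agent.Helper985.CP






theorem upper_general {S : Type} [Fintype S] [DecidableEq S] (D : Species S) (hD : D.Valid)
    (hst : HStable D) (r : ℝ) (hr : 0 < r) :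
    ∃ C : ℝ, 0 < C ∧ ∀ (a b : S), D.charge b = -D.charge a →
      ∀ {I : Type} [Fintype I] [DecidableEq I] (sp : I → S) (ℓ : ℝ),
      8 * r ≤ ℓ → (Fintype.card I : ℝ) * (1024 * r ^ 3) ≤ ℓ ^ 3 →
      sInf (energies D (fun o : Option (Option I) => o.elim b (fun o' => o'.elim a sp)) ℓ) ≤
        sInf (energies D sp ℓ) + C := by
  obtain ⟨C₁, hC1, hole'⟩ := hole D hD r hr
  obtain ⟨C₂, hC2, ins'⟩ := insert_pair D hD r hr
  refine ⟨2 * (1 + C₁) + C₂, by positivity, ?_⟩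
  intro a b hab I _ _ sp ℓ hℓ hcard
  have hℓ0 : 0 < ℓ := by linarith
  obtain ⟨_, _, hE, hδ⟩ := energies_basic D hD hst sp ℓ hℓ0
  obtain ⟨_, hbdd, _, _⟩ := energies_basic D hD hst
    (fun o : Option (Option I) => o.elim b (fun o' => o'.elim a sp)) ℓ hℓ0
  generalize sInf (energies D sp ℓ) = E at hE hδ ⊢
  obtain ⟨Ψ, hΨ, hΨ0, hΨE⟩ := hδ 1 one_pos
  obtain ⟨x0, hball, Φ, hΦ, hvan, h1, h2, h3⟩ := hole' sp ℓ hℓ hcard Ψ hΨ E hE
  obtain ⟨Θ, hΘ, hn, hen⟩ := ins' a b hab sp ℓ x0 hball Φ hΦ hvan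
  have hΦ0 : 0 < nrm2 D Φ := by linarith
  have hΘ0 : 0 < nrm2 D Θ := by rw [hn]; exact hΦ0
  have hΘne : Θ ≠ 0 := by
    rintro rfl
    have : nrm2 D (0 : Wave D (Option (Option I))) = 0 := by
      unfold nrm2
      simp
    rw [this] at hΘ0
    exact lt_irrefl _ hΘ0
  refine (csInf_le hbdd ⟨Θ, hΘ, hΘne, rfl⟩).trans ?_
  rw [div_le_iff₀ hΘ0, hn]
  have h4 : energy D sp Φ ≤ E * nrm2 D Φ + (1 + C₁) * nrm2 D Ψ := by linarith
  have h5 : (1 + C₁) * nrm2 D Ψ ≤ (1 + C₁) * (2 * nrm2 D Φ) :=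
    mul_le_mul_of_nonneg_left (by linarith) (by linarith)
  linarith

end Pool.Agent.Helper985.CP
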